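import Pool.Agent.H8.RZ.NRZ
import Pool.Agent.H4.AR.Roth

/-! # [H8 RZ FRZ] Separated scales

Adapt `far_m` (`Pool/Agent/H97/NW/FAR.lean`). `τ, K0` from `norm_z`; `S = r n^m`; `cr` from `H4AR.roth (m+1) (τ / (4 S))`; `R = max 1 (2 / cr)`, `δ = cr S / 2`-like as in `far_m`, `c` at least that of `norm_z`, `c log 2 ≥ 8 / cr`, `c ≥ R`, `c ≥ 8/cr`.
`Y = K0 ell_0`. `a_v = 2 S Y / ell_v` (`v < m`), `a_last = 2 S Y / L`, `L = log q`; `d = ⌊a⌋₊` (as functions on `Fin (m+1)`: `Fin.snoc`). For `i < j`: `d_i ≤ cr d_j`: both `< m`: as in `far_m`; `j = last`: `L ≤ ell_i / c ≤ ell_i / R`. `D = 2 S Y / c'` bounds all `d_v`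
(`ell_v ≥ c log 2`, `L ≥ c`). Heights: `ht ((x : ℤ) : ℚ) = |x|`, `log = ell_v`; `ht ((q : ℚ)/p) = max p q ≥ q` (`p, q` coprime: `Rat.div_int_inj`/`Rat.num_div_den` for coprime, `NP.cop`), so `d_last log ht ≥ d_last L ≥ S Y`. `roth` gives `e` with
`∑ e_v/d_v ≤ τ/(4 S)` and `(sh x' (toQ N)).coeff e ≠ 0`; but `e_last (lam L) + ∑ ell_v e_v ≤ e_last L + ∑ ell_v e_v = ∑ (e_v/a_v) 2 S Y ≤ 2 S Y ∑ e_v/d_v ≤ τ Y/2 < τ Y` (`Fin.sum_univ_castSucc`): contradiction with the last statement of `norm_z`. -/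

namespace Pool.Agent.H8.RZ

open Finset Polynomial Pool.Agent.H72.ES Pool.Agent.H87.SA2 Pool.Agent.H8.AW Pool.Agent.H52.AC
  Pool.Agent.H97.NW H4AR

theorem far_z (m n r : ℕ) (hm : 1 ≤ m) (hn : 4 ≤ n) (hr : 1 ≤ r) (lam : ℝ) (hlam : 0 < lam)
    (hlam1 : lam ≤ 1) (γ : ℝ) (hγ : 0 < γ) :
    ∃ (R : ℝ) (c : ℕ), 1 ≤ R ∧ cA n ≤ c ∧
      ∀ (P : Fin m → Ptd n) (PP : Finset (∀ v, Fin (P v).d)), Stb P PP →
      (fun v => (P v).i) ∈ PP →
      (1 + γ) * (((m : ℝ) + 1) ^ (m + 1) * PP.card) ≤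
        ((m + 1).factorial : ℝ) * (r * lam * ∏ v, ((P v).d : ℝ)) →
      ∀ (p q : ℕ), NP lam p q → ∀ _ : ZD P PP r p q,
      (∀ v, (P v).Thr c) → (c : ℝ) ≤ Real.log q → (∀ v, c * Real.log q ≤ (P v).ell) →
      ¬ ∀ i j : Fin m, i < j → R * (P j).ell ≤ (P i).ell := by
  obtain ⟨τ, K0, hτ, hK0, haux⟩ := norm_z m n r hm hn hr lam hlam hlam1 γ hγ
  obtain ⟨S, hS⟩ : ∃ S : ℝ, S = (r : ℝ) * (n : ℝ) ^ m := ⟨_, rfl⟩
  have hnR : (4 : ℝ) ≤ n := by exact_mod_cast hn
  have hrR : (1 : ℝ) ≤ r := by exact_mod_cast hr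
  have hnm : (1 : ℝ) ≤ (n : ℝ) ^ m := one_le_pow₀ (by linarith)
  have hS1 : 1 ≤ S := by
    rw [hS]
    nlinarith
  have hS0 : 0 < S := by linarith
  obtain ⟨cr, hcr0, hcr1, hroth⟩ := H4AR.roth (m + 1) (τ / (4 * S)) (by positivity)
  obtain ⟨c1, hc1, hN⟩ := haux (cr * S / 2) (by positivity)
  refine ⟨max 1 (2 / cr), max c1 (⌈8 / cr⌉₊), le_max_left _ _, hc1.trans (le_max_left _ _), ?_⟩
  intro P PP hStb hnear hcard p q hNP Z hThr hcq hcl hsep
  obtain ⟨c, hc⟩ : ∃ c : ℕ, c = max c1 (⌈8 / cr⌉₊) := ⟨_, rfl⟩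
  rw [← hc] at hThr hcq hcl
  have hc1c : c1 ≤ c := by
    rw [hc]
    exact le_max_left _ _
  have hc1R : (c1 : ℝ) ≤ c := by exact_mod_cast hc1c
  have hcc : 8 / cr ≤ c := (Nat.le_ceil _).trans (by
    rw [hc]
    exact_mod_cast le_max_right _ _)
  have hc8 : 8 ≤ cr * c := by
    rw [div_le_iff₀ hcr0] at hcc
    linarith
  have h8 : 8 ≤ 8 / cr := by
    rw [le_div_iff₀ hcr0]
    linarith
  have hc0 : (8 : ℝ) ≤ c := h8.trans hcc
  have hRc : max 1 (2 / cr) ≤ (c : ℝ) := by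
    refine max_le (by linarith) (le_trans ?_ hcc)
    exact div_le_div_of_nonneg_right (by norm_num) hcr0.le
  have hThr1 : ∀ v, (P v).Thr c1 := fun v => (P v).thr_mono hc1c (hThr v)
  have hThrA : ∀ v, (P v).Thr (cA n) := fun v => (P v).thr_mono (hc1.trans hc1c) (hThr v)
  have hl2 : 1 / 2 ≤ Real.log 2 := by
    have := Real.log_two_gt_d9
    linarith
  have hl21 : Real.log 2 ≤ 1 := by
    have := Real.log_two_lt_d9
    linarith
  have hl20 : 0 < Real.log 2 := by linarith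
  obtain ⟨L, hL⟩ : ∃ L : ℝ, L = Real.log q := ⟨_, rfl⟩
  have hLc : (c : ℝ) ≤ L := by
    rw [hL]
    exact hcq
  have hL0 : 0 < L := by linarith
  have hcL : ∀ v, c * L ≤ (P v).ell := by
    intro v
    rw [hL]
    exact hcl v
  -- the logarithms of the heights
  obtain ⟨lg, hlg⟩ : ∃ lg : Fin (m + 1) → ℝ,
      lg = Fin.snoc (α := fun _ => ℝ) (fun v => (P v).ell) L := ⟨_, rfl⟩
  have hlg1 : ∀ v : Fin m, lg v.castSucc = (P v).ell := fun v => by
    rw [hlg, Fin.snoc_castSucc]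
  have hlg2 : lg (Fin.last m) = L := by
    rw [hlg, Fin.snoc_last]
  have hell : ∀ j, (c : ℝ) * Real.log 2 ≤ lg j := by
    intro j
    induction j using Fin.lastCases with
    | last =>
      rw [hlg2]
      nlinarith
    | cast v =>
      rw [hlg1]
      exact ((P v).ell_ge (hThr v)).2
  have hell0 : ∀ j, 0 < lg j := fun j => lt_of_lt_of_le (by positivity) (hell j)
  have hell1 : ∀ v, 0 < (P v).ell := fun v => by
    rw [← hlg1]
    exact hell0 _
  have hsep' : ∀ i j : Fin (m + 1), i < j → max 1 (2 / cr) * lg j ≤ lg i := by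
    intro i j hij
    induction i using Fin.lastCases with
    | last => exact absurd hij (not_lt.mpr (Fin.le_last j))
    | cast u =>
      induction j using Fin.lastCases with
      | last =>
        rw [hlg2, hlg1]
        exact (mul_le_mul_of_nonneg_right hRc hL0.le).trans (hcL u)
      | cast v =>
        rw [hlg1, hlg1]
        exact hsep u v (Fin.castSucc_lt_castSucc_iff.mp hij)
  have hmax : ∀ j, lg j ≤ lg 0 := by
    intro j
    rcases eq_or_ne j 0 with h | h
    · rw [h]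
    · have h1 : 0 < j := Fin.pos_iff_ne_zero.mpr h
      have h2 := hsep' 0 j h1
      have h3 : lg j ≤ max 1 (2 / cr) * lg j :=
        le_mul_of_one_le_left (hell0 j).le (le_max_left _ _)
      exact h3.trans h2
  obtain ⟨Y, hY⟩ : ∃ Y : ℝ, Y = K0 * lg 0 := ⟨_, rfl⟩
  have hY0 : 0 < Y := by
    rw [hY]
    exact mul_pos (by linarith) (hell0 0)
  have hYv : ∀ j, K0 * lg j ≤ Y := fun j => by
    rw [hY]
    exact mul_le_mul_of_nonneg_left (hmax j) (by linarith)
  have hYv1 : ∀ j, lg j ≤ Y := fun j =>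
    (le_mul_of_one_le_left (hell0 j).le hK0).trans (hYv j)
  obtain ⟨N, hN0, hdeg, hdegl, hlog, hvan⟩ := hN P PP hStb hnear hcard p q hNP Z hThr1
    (hc1R.trans hcq) (fun v => (mul_le_mul_of_nonneg_right hc1R (by rw [← hL]; exact hL0.le)).trans
      (hcl v)) Y (fun v => by
        rw [← hlg1]
        exact hYv _)
  rw [← hS] at hdeg hdegl
  rw [← hL] at hdegl
  have hdeg' : ∀ j, (N.degreeOf j : ℝ) * lg j ≤ 2 * S * Y := by
    intro j
    induction j using Fin.lastCases with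
    | last =>
      rw [hlg2]
      exact hdegl
    | cast v =>
      rw [hlg1]
      exact hdeg v
  set a : Fin (m + 1) → ℝ := fun v => 2 * S * Y / lg v with ha
  have ha2 : ∀ v, 2 ≤ a v := by
    intro v
    simp only [ha]
    rw [le_div_iff₀ (hell0 v)]
    have := hYv1 v
    nlinarith
  have ha0 : ∀ v, 0 < a v := fun v => by linarith [ha2 v]
  set d : Fin (m + 1) → ℕ := fun v => ⌊a v⌋₊ with hd
  have hd1 : ∀ v, (d v : ℝ) ≤ a v := fun v => Nat.floor_le (ha0 v).le
  have hd2 : ∀ v, a v / 2 ≤ d v := by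
    intro v
    have h1 := Nat.lt_floor_add_one (a v)
    have h2 := ha2 v
    have h3 : a v < (d v : ℝ) + 1 := h1
    linarith
  have hd3 : ∀ v, 1 ≤ d v := by
    intro v
    have h1 := hd2 v
    have h2 := ha2 v
    exact_mod_cast (by linarith : (1 : ℝ) ≤ d v)
  set D : ℝ := 2 * S * Y / (c * Real.log 2) with hD
  have haD : ∀ v, a v ≤ D := fun v =>
    div_le_div_of_nonneg_left (by positivity) (by positivity) (hell v)
  have hD1 : 1 ≤ D := by
    have h1 := haD 0
    have h2 := ha2 0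
    linarith
  -- heights
  have hht : ∀ j, lg j ≤ Real.log (ht ((Fin.snoc (α := fun _ => ℚ) (fun v => ((P v).x : ℚ))
      ((q : ℚ) / p) : Fin (m + 1) → ℚ) j)) := by
    intro j
    induction j using Fin.lastCases with
    | last =>
      rw [hlg2, Fin.snoc_last, hL]
      have hq0 : (0 : ℝ) < q := by exact_mod_cast hNP.q1
      refine Real.log_le_log hq0 ?_
      have hnum : ((q : ℚ) / p).num = q := by
        have h1 := Rat.num_div_eq_of_coprime (a := (q : ℤ)) (b := (p : ℤ))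
          (by exact_mod_cast hNP.p1) (by simpa using hNP.cop.symm)
        simpa using h1
      unfold ht
      refine le_trans ?_ (le_max_left _ _)
      rw [hnum]
      simp
    | cast v =>
      rw [hlg1, Fin.snoc_castSucc]
      have hx0 : (P v).x ≠ 0 := ((P v).facts hn (hThrA v)).2.2.2.2.1
      unfold Ptd.ell ht
      rw [Rat.num_intCast, Rat.den_intCast]
      refine le_of_eq ?_
      congr 1
      symm
      apply max_eq_left
      rw [Nat.cast_one]
      have h1 : 1 ≤ |(P v).x| := Int.one_le_abs hx0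
      exact_mod_cast h1
  obtain ⟨e, he1, he2⟩ := hroth d (Fin.snoc (α := fun _ => ℚ) (fun v => ((P v).x : ℚ))
      ((q : ℚ) / p)) N D hD1 hd3
    (fun j => (hd1 j).trans (haD j))
    (fun i j hij => by
      have h1 := hsep' i j hij
      have h2 : a i ≤ cr / 2 * a j := by
        simp only [ha]
        rw [div_le_iff₀ (hell0 i)]
        have h3 : 2 / cr * lg j ≤ lg i :=
          (mul_le_mul_of_nonneg_right (le_max_right _ _) (hell0 j).le).trans h1
        have h4 : cr / 2 * (2 * S * Y / lg j) * (2 / cr * lg j) = 2 * S * Y := by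
          have := (hell0 j).ne'
          field_simp
        have h5 : 0 ≤ cr / 2 * (2 * S * Y / lg j) := by
          have := hell0 j
          positivity
        calc 2 * S * Y = cr / 2 * (2 * S * Y / lg j) * (2 / cr * lg j) := h4.symm
          _ ≤ cr / 2 * (2 * S * Y / lg j) * lg i := mul_le_mul_of_nonneg_left h3 h5
      have h6 := hd1 i
      have h7 := mul_le_mul_of_nonneg_left (hd2 j) hcr0.le
      linarith)
    hN0
    (fun j => by
      apply Nat.le_floor
      simp only [ha]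
      rw [le_div_iff₀ (hell0 j)]
      exact hdeg' j)
    (fun j => by
      have h1 : S * Y ≤ (d j : ℝ) * lg j := by
        have h2 := mul_le_mul_of_nonneg_right (hd2 j) (hell0 j).le
        have h3 : a j / 2 * lg j = S * Y := by
          simp only [ha]
          have := (hell0 j).ne'
          field_simp
        rwa [h3] at h2
      have h1' := h1.trans (mul_le_mul_of_nonneg_left (hht j) (Nat.cast_nonneg (d j)))
      have h4 := mul_le_mul_of_nonneg_left h1' hcr0.le
      have h5 : D ≤ cr * S / 2 * Y := by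
        rw [hD, div_le_iff₀ (by positivity)]
        have h6 : 4 ≤ cr * (c * Real.log 2) := by nlinarith
        have h7 : 0 ≤ S * Y := by positivity
        nlinarith
      linarith)
  -- contradiction
  apply he2
  apply hvan e
  have h1 : ∀ v, lg v * (e v : ℝ) ≤ 2 * S * Y * ((e v : ℝ) / (d v : ℝ)) := by
    intro v
    have hdv : (0 : ℝ) < d v := by exact_mod_cast hd3 v
    have h2 : lg v * (d v : ℝ) ≤ 2 * S * Y := by
      have h3 := hd1 v
      simp only [ha] at h3
      rw [le_div_iff₀ (hell0 v)] at h3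
      linarith
    rw [mul_div_assoc', le_div_iff₀ hdv]
    have h4 : (0 : ℝ) ≤ e v := Nat.cast_nonneg _
    nlinarith
  have h2 : ∑ v, lg v * (e v : ℝ) < τ * Y := by
    calc ∑ v, lg v * (e v : ℝ) ≤ ∑ v, 2 * S * Y * ((e v : ℝ) / (d v : ℝ)) :=
          Finset.sum_le_sum fun v _ => h1 v
      _ = 2 * S * Y * wt d e := by rw [← Finset.mul_sum]; rfl
      _ ≤ 2 * S * Y * (τ / (4 * S)) := mul_le_mul_of_nonneg_left he1 (by positivity)
      _ = τ * Y / 2 := by field_simp; ring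
      _ < τ * Y := by
          have : 0 < τ * Y := mul_pos hτ hY0
          linarith
  refine lt_of_le_of_lt ?_ h2
  rw [Fin.sum_univ_castSucc, hlg2, ← hL]
  have h3 : ∀ v : Fin m, lg v.castSucc * (e v.castSucc : ℝ) = (P v).ell * (e v.castSucc : ℝ) :=
    fun v => by rw [hlg1]
  rw [Finset.sum_congr rfl fun v _ => h3 v]
  have h4 : (0 : ℝ) ≤ e (Fin.last m) := Nat.cast_nonneg _
  have h5 : lam * L ≤ L := by nlinarith
  have h6 := mul_le_mul_of_nonneg_left h5 h4
  linarith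

end Pool.Agent.H8.RZ
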