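import Pool.Agent.H8.RZ.Defs
import Pool.Agent.H97.NW.RPD
import Pool.Agent.H97.NW.PTF
import Pool.Agent.H52.AC.FIB

/-! # [H8 RZ PRZ] The root attached to a pair of radical pointed curves, and to one such curve

`PP = S_0 × S_1`, `z(j_0,j_1) = ± th_1(j_1)/th_0(j_0)`; for one curve `z(j) = ± th(j)`. -/

namespace Pool.Agent.H8.RZ

open Finset Polynomial Pool.Agent.H72.ES Pool.Agent.H87.SA2 Pool.Agent.H8.AW Pool.Agent.H52.AC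
  Pool.Agent.H97.NW

variable {m n : ℕ}

private theorem prz_stb {r : ℕ} (P : Fin m → Ptd n) (β : Fin m → ℚ)
    (h : ∀ v, ThS r (β v) (P v).C.pd) : Stb P (Fintype.piFinset fun v => (h v).S) := by
  refine ⟨fun σ p hp p' hpp => ?_, fun ζ hζ p hp p' hpp => ?_⟩
  · rw [Fintype.mem_piFinset] at hp ⊢
    exact fun v => ((h v).gal σ (p v) (hp v) (p' v) (fun k a ha => hpp v k a ha)).1
  · rw [Fintype.mem_piFinset] at hp ⊢
    exact fun v => ((h v).rot (ζ v) (p v) (hp v) (p' v) (hζ v) (hpp v)).1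

private theorem prz_card {r : ℕ} (P : Fin m → Ptd n) (β : Fin m → ℚ)
    (h : ∀ v, ThS r (β v) (P v).C.pd) :
    (Fintype.piFinset fun v => (h v).S).card ≤ ∏ v, (P v).d := by
  rw [Fintype.card_piFinset]
  refine Finset.prod_le_prod' fun v _ => ?_
  have := card_le_univ (h v).S
  rwa [Fintype.card_fin] at this

private theorem prz_alg {r : ℕ} (hr : 1 ≤ r) {β : ℚ} {f : ℤ[X][X]} {d : ℕ} {pd : PData f d}
    (h : ThS r β pd) (i : Fin d) : h.th i ∈ AA := by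
  rw [mem_algebraicClosure_iff]
  refine ⟨X ^ r - C β, ?_, ?_⟩
  · exact X_pow_sub_C_ne_zero (by omega) _
  · rw [map_sub, map_pow, aeval_X, aeval_C, h.root i]
    simp

/-- the sign making the near root positive -/
private theorem prz_sign {r : ℕ} {β : ℚ} (hβ : 0 < β) {t : ℂ} (ht : t ^ r = (β : ℂ))
    (him : t.im = 0) (hr : 1 ≤ r) :
    ∃ ε : ℚ, (ε : ℂ) ^ r = 1 ∧ ∃ x : ℝ, 0 < x ∧ (ε : ℂ) * t = (x : ℂ) := by
  have h1 : t = ((t.re : ℝ) : ℂ) := by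
    apply Complex.ext
    · simp
    · simp [him]
  have h2 : t.re ^ r = (β : ℝ) := by
    rw [h1] at ht
    have : ((t.re ^ r : ℝ) : ℂ) = (((β : ℚ) : ℝ) : ℂ) := by
      push_cast
      exact ht
    exact_mod_cast this
  have hβ' : (0 : ℝ) < (β : ℝ) := by exact_mod_cast hβ
  have h0 : t.re ≠ 0 := by
    intro h0
    rw [h0, zero_pow (by omega)] at h2
    linarith
  rcases lt_or_gt_of_ne h0 with h | h
  · have hev : Even r := by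
      by_contra hodd
      rw [Nat.not_even_iff_odd] at hodd
      have := hodd.pow_neg h
      linarith
    refine ⟨-1, ?_, -t.re, by linarith, ?_⟩
    · push_cast
      exact hev.neg_one_pow
    · push_cast
      rw [neg_mul, one_mul]
      congr 1
  · refine ⟨1, by simp, t.re, h, ?_⟩
    push_cast
    rw [one_mul]
    exact h1

private def prz_b (b0 b1 : ℚ) : Fin 2 → ℚ
  | 0 => b0
  | 1 => b1

private def prz_Q {r n : ℕ} {b0 b1 : ℚ} (Q0 : RPt r n b0) (Q1 : RPt r n b1) :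
    ∀ v : Fin 2, RPt r n (prz_b b0 b1 v)
  | 0 => Q0
  | 1 => Q1

private theorem prz_root {r p q : ℕ} {ε0 ε1 b0 b1 : ℚ} (h0 : 0 < b0)
    (hb : b1 * (q : ℚ) = (p : ℚ) * b0) (hε0 : (ε0 : ℂ) ^ r = 1) (hε1 : (ε1 : ℂ) ^ r = 1)
    {t0 t1 : ℂ} (ht0 : t0 ^ r = (b0 : ℂ)) (ht1 : t1 ^ r = (b1 : ℂ)) :
    (((ε1 : ℂ) * t1) / ((ε0 : ℂ) * t0)) ^ r * (q : ℂ) = (p : ℂ) := by
  rw [div_pow, mul_pow, mul_pow, hε1, hε0, ht1, ht0, one_mul, one_mul]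
  have hb0 : ((b0 : ℚ) : ℂ) ≠ 0 := by exact_mod_cast h0.ne'
  rw [div_mul_eq_mul_div, div_eq_iff hb0]
  exact_mod_cast hb

private theorem prz_gal {ε0 ε1 : ℚ} (σ : AA →+* ℂ) {t0 t1 s0 s1 : ℂ} (m0 : t0 ∈ AA) (m1 : t1 ∈ AA)
    (e0 : ∀ a : AA, (a : ℂ) = t0 → σ a = s0) (e1 : ∀ a : AA, (a : ℂ) = t1 → σ a = s1) (a : AA)
    (ha : (a : ℂ) = ((ε1 : ℂ) * t1) / ((ε0 : ℂ) * t0)) :
    σ a = ((ε1 : ℂ) * s1) / ((ε0 : ℂ) * s0) := by
  obtain ⟨a0, ha0⟩ : ∃ a0 : AA, (a0 : ℂ) = t0 := ⟨⟨_, m0⟩, rfl⟩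
  obtain ⟨a1, ha1⟩ : ∃ a1 : AA, (a1 : ℂ) = t1 := ⟨⟨_, m1⟩, rfl⟩
  have h4 : a = ((ε1 : AA) * a1) / ((ε0 : AA) * a0) := by
    apply Subtype.ext
    rw [ha]
    push_cast
    rw [ha0, ha1]
  rw [h4, map_div₀, map_mul, map_mul, map_ratCast, map_ratCast, e0 a0 ha0, e1 a1 ha1]

private theorem prz_gal1 {ε0 : ℚ} (σ : AA →+* ℂ) {t0 s0 : ℂ} (m0 : t0 ∈ AA)
    (e0 : ∀ a : AA, (a : ℂ) = t0 → σ a = s0) (a : AA)
    (ha : (a : ℂ) = (ε0 : ℂ) * t0) : σ a = (ε0 : ℂ) * s0 := by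
  obtain ⟨a0, ha0⟩ : ∃ a0 : AA, (a0 : ℂ) = t0 := ⟨⟨_, m0⟩, rfl⟩
  have h4 : a = (ε0 : AA) * a0 := by
    apply Subtype.ext
    rw [ha]
    push_cast
    rw [ha0]
  rw [h4, map_mul, map_ratCast, e0 a0 ha0]

private theorem prz_rot {ε0 ε1 t0 t1 s0 s1 : ℂ} (e0 : s0 = t0) (e1 : s1 = t1) :
    (ε1 * s1) / (ε0 * s0) = (ε1 * t1) / (ε0 * t0) := by rw [e0, e1]

private theorem prz_near {ε0 ε1 t0 t1 : ℂ} {x0 x1 : ℝ} (hx0 : 0 < x0) (hx1 : 0 < x1)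
    (e0 : ε0 * t0 = x0) (e1 : ε1 * t1 = x1) :
    ∃ ρ : ℝ, 0 < ρ ∧ (ε1 * t1) / (ε0 * t0) = (ρ : ℂ) := by
  refine ⟨x1 / x0, div_pos hx1 hx0, ?_⟩
  rw [e0, e1]
  push_cast
  rfl

theorem prod_z {r p q : ℕ} (hr : 1 ≤ r) {b0 b1 : ℚ} (h0 : 0 < b0)
    (h1 : 0 < b1) (hb : b1 * (q : ℚ) = (p : ℚ) * b0) (Q0 : RPt r n b0) (Q1 : RPt r n b1) :
    ∃ P : Fin 2 → Ptd n, P 0 = Q0.P ∧ P 1 = Q1.P ∧
      ∃ PP : Finset (∀ v, Fin (P v).d), Stb P PP ∧ (fun v => (P v).i) ∈ PP ∧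
        Nonempty (ZD P PP r p q) ∧ PP.card ≤ ∏ v, (P v).d := by
  classical
  refine ⟨fun v => (prz_Q Q0 Q1 v).P, rfl, rfl,
    Fintype.piFinset fun v => (prz_Q Q0 Q1 v).h.S, ?_, ?_, ?_, ?_⟩
  · exact prz_stb _ _ fun v => (prz_Q Q0 Q1 v).h
  · rw [Fintype.mem_piFinset]
    exact fun v => (prz_Q Q0 Q1 v).mem
  · obtain ⟨ε0, hε0, x0, hx0, he0⟩ := prz_sign h0 (Q0.h.root Q0.P.i) Q0.real hr
    obtain ⟨ε1, hε1, x1, hx1, he1⟩ := prz_sign h1 (Q1.h.root Q1.P.i) Q1.real hr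
    refine ⟨{ z := fun j => ((ε1 : ℂ) * Q1.h.th (j 1)) / ((ε0 : ℂ) * Q0.h.th (j 0))
              root := fun j _ => prz_root h0 hb hε0 hε1 (Q0.h.root (j 0)) (Q1.h.root (j 1))
              gal := ?_, rot := ?_, near := prz_near hx0 hx1 he0 he1 }⟩
    · intro σ j hj j' hjj a ha
      rw [Fintype.mem_piFinset] at hj
      exact prz_gal σ (prz_alg hr Q0.h (j 0)) (prz_alg hr Q1.h (j 1))
        (Q0.h.gal σ (j 0) (hj 0) (j' 0) (fun k a ha => hjj 0 k a ha)).2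
        (Q1.h.gal σ (j 1) (hj 1) (j' 1) (fun k a ha => hjj 1 k a ha)).2 a ha
    · intro ζ hζ j hj j' hjj
      rw [Fintype.mem_piFinset] at hj
      exact prz_rot (Q0.h.rot (ζ 0) (j 0) (hj 0) (j' 0) (hζ 0) (hjj 0)).2
        (Q1.h.rot (ζ 1) (j 1) (hj 1) (j' 1) (hζ 1) (hjj 1)).2
  · exact prz_card _ _ fun v => (prz_Q Q0 Q1 v).h

theorem one_z {r p q : ℕ} (hr : 1 ≤ r) {b : ℚ} (h0 : 0 < b)
    (hb : b * (q : ℚ) = (p : ℚ)) (Q : RPt r n b) :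
    ∃ P : Fin 1 → Ptd n, P 0 = Q.P ∧
      ∃ PP : Finset (∀ v, Fin (P v).d), Stb P PP ∧ (fun v => (P v).i) ∈ PP ∧
        Nonempty (ZD P PP r p q) ∧ PP.card ≤ ∏ v, (P v).d := by
  classical
  refine ⟨fun _ => Q.P, rfl, Fintype.piFinset fun _ => Q.h.S, ?_, ?_, ?_, ?_⟩
  · exact prz_stb _ (fun _ => b) fun _ => Q.h
  · rw [Fintype.mem_piFinset]
    exact fun _ => Q.mem
  · obtain ⟨ε0, hε0, x0, hx0, he0⟩ := prz_sign h0 (Q.h.root Q.P.i) Q.real hr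
    refine ⟨{ z := fun j => (ε0 : ℂ) * Q.h.th (j 0)
              root := ?_, gal := ?_, rot := ?_, near := ⟨x0, hx0, he0⟩ }⟩
    · intro j _
      have h1 : Q.h.th (j 0) ^ r = (b : ℂ) := Q.h.root (j 0)
      have h2 : ((ε0 : ℂ) * Q.h.th (j 0)) ^ r * (q : ℂ) = (p : ℂ) := by
        rw [mul_pow, hε0, h1, one_mul]
        exact_mod_cast hb
      exact h2
    · intro σ j hj j' hjj a ha
      rw [Fintype.mem_piFinset] at hj
      exact prz_gal1 σ (prz_alg hr Q.h (j 0))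
        (Q.h.gal σ (j 0) (hj 0) (j' 0) (fun k a ha => hjj 0 k a ha)).2 a ha
    · intro ζ hζ j hj j' hjj
      rw [Fintype.mem_piFinset] at hj
      have e0 := (Q.h.rot (ζ 0) (j 0) (hj 0) (j' 0) (hζ 0) (hjj 0)).2
      exact congrArg (fun t => (ε0 : ℂ) * t) e0
  · exact prz_card _ (fun _ => b) fun _ => Q.h

end Pool.Agent.H8.RZ
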