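import Mathlib

/-! # [H8 RZ SEP] Counting separated numbers (Mathlib only)

`sep_count`: `S` finite, `0 ≤ M`, `f` real valued with `0 ≤ f x ≤ M` and `κ ≤ |f x - f y|` for `x ≠ y`: the map `x ↦ ⌊f x / κ⌋₊` is injective on `S` (two different values of `f/κ` differ by at least `1`) with values in `range (⌊M/κ⌋₊ + 1)`.
`pow_sep`: for `1 ≤ a`, `a^δ ≤ b - a`, `0 < δ < 1`: `b^(1-δ) - a^(1-δ) ≥ (1-δ)/2`: it suffices to take `b = a + a^δ ≤ 2a`; mean value (or concavity `Real.rpow_le_rpow..`): `≥ (1-δ) b^(-δ) (b - a) ≥ (1-δ) (2a)^(-δ) a^δ = (1-δ) 2^(-δ) ≥ (1-δ)/2`.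
`log_sep`: for `0 < x < y`, `0 < κ ≤ 1`, `κ x ≤ y - x`: `κ/2 ≤ log y - log x`: `log (1 + κ) ≥ κ/2` (`Real.one_sub_inv_le_log_of_pos`: `log t ≥ 1 - 1/t`, `κ/(1+κ) ≥ κ/2`). -/

namespace Pool.Agent.H8.RZ

theorem sep_count {ι : Type} (S : Finset ι) (f : ι → ℝ) (M κ : ℝ) (hκ : 0 < κ) (hM0 : 0 ≤ M)
    (h0 : ∀ x ∈ S, 0 ≤ f x) (hM : ∀ x ∈ S, f x ≤ M)
    (hs : ∀ x ∈ S, ∀ y ∈ S, x ≠ y → κ ≤ |f x - f y|) : (S.card : ℝ) ≤ M / κ + 1 := by
  have hcard : S.card ≤ (Finset.range (⌊M / κ⌋₊ + 1)).card := by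
    apply Finset.card_le_card_of_injOn (fun x => ⌊f x / κ⌋₊)
    · intro x hx
      have hx' : x ∈ S := hx
      simp only [Finset.coe_range, Set.mem_Iio]
      have h1 : f x / κ ≤ M / κ := div_le_div_of_nonneg_right (hM x hx') hκ.le
      exact Nat.lt_succ_of_le (Nat.floor_le_floor h1)
    · intro x hx y hy hxy
      have hx' : x ∈ S := hx
      have hy' : y ∈ S := hy
      by_contra hne
      have h1 := hs x hx' y hy' hne
      have hfx : 0 ≤ f x / κ := div_nonneg (h0 x hx') hκ.le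
      have hfy : 0 ≤ f y / κ := div_nonneg (h0 y hy') hκ.le
      simp only at hxy
      have a1 := Nat.floor_le hfx
      have a2 := Nat.lt_floor_add_one (f x / κ)
      have b1 := Nat.floor_le hfy
      have b2 := Nat.lt_floor_add_one (f y / κ)
      rw [hxy] at a1 a2
      have h2 : |f x / κ - f y / κ| < 1 := by
        rw [abs_lt]
        constructor <;> linarith
      rw [← sub_div, abs_div, abs_of_pos hκ, div_lt_one hκ] at h2
      linarith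
  rw [Finset.card_range] at hcard
  have h1 : (⌊M / κ⌋₊ : ℝ) ≤ M / κ := Nat.floor_le (div_nonneg hM0 hκ.le)
  calc (S.card : ℝ) ≤ ((⌊M / κ⌋₊ + 1 : ℕ) : ℝ) := by exact_mod_cast hcard
    _ ≤ M / κ + 1 := by push_cast; linarith

theorem pow_sep {δ : ℝ} (hδ : 0 < δ) (hδ1 : δ < 1) {a b : ℝ} (ha : 1 ≤ a) (hab : a ^ δ ≤ b - a) :
    (1 - δ) / 2 ≤ b ^ (1 - δ) - a ^ (1 - δ) := by
  have ha0 : 0 < a := by linarith
  have haδ : 0 < a ^ δ := Real.rpow_pos_of_pos ha0 δ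
  have haδ1 : a ^ δ ≤ a := by
    calc a ^ δ ≤ a ^ (1 : ℝ) := Real.rpow_le_rpow_of_exponent_le ha hδ1.le
      _ = a := Real.rpow_one a
  obtain ⟨c, hc⟩ : ∃ c, c = a + a ^ δ := ⟨_, rfl⟩
  have hc0 : 0 < c := by linarith
  have hcb : c ≤ b := by linarith
  have h1 : c ^ (1 - δ) ≤ b ^ (1 - δ) := Real.rpow_le_rpow hc0.le hcb (by linarith)
  have h2 : (1 + (-(a ^ δ / c))) ^ (1 - δ) ≤ 1 + (1 - δ) * (-(a ^ δ / c)) := by
    apply rpow_one_add_le_one_add_mul_self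
    · have : a ^ δ / c ≤ 1 := by
        rw [div_le_one hc0]
        linarith
      linarith
    · linarith
    · linarith
  have h3 : 1 + (-(a ^ δ / c)) = a / c := by
    field_simp
    rw [hc]
    ring
  rw [h3, Real.div_rpow ha0.le hc0.le, div_le_iff₀ (Real.rpow_pos_of_pos hc0 _)] at h2
  have h4 : (1 - δ) * (a ^ δ / c) * c ^ (1 - δ) = (1 - δ) * (a / c) ^ δ := by
    rw [Real.div_rpow ha0.le hc0.le, Real.rpow_sub hc0, Real.rpow_one]
    have := (Real.rpow_pos_of_pos hc0 δ).ne'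
    field_simp
  have h5 : (1 / 2 : ℝ) ≤ (a / c) ^ δ := by
    have h6 : (1 / 2 : ℝ) ≤ a / c := by
      rw [div_le_div_iff₀ (by norm_num) hc0]
      linarith
    calc (1 / 2 : ℝ) = (1 / 2) ^ (1 : ℝ) := (Real.rpow_one _).symm
      _ ≤ (1 / 2) ^ δ := Real.rpow_le_rpow_of_exponent_ge (by norm_num) (by norm_num) hδ1.le
      _ ≤ (a / c) ^ δ := Real.rpow_le_rpow (by norm_num) h6 hδ.le
  have h7 : (1 - δ) / 2 ≤ (1 - δ) * (a / c) ^ δ := by
    have : (1 - δ) * (1 / 2) ≤ (1 - δ) * (a / c) ^ δ :=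
      mul_le_mul_of_nonneg_left h5 (by linarith)
    linarith
  rw [← h4] at h7
  nlinarith

theorem log_sep {x y κ : ℝ} (hx : 0 < x) (hκ : 0 < κ) (hκ1 : κ ≤ 1) (h : κ * x ≤ y - x) :
    κ / 2 ≤ Real.log y - Real.log x := by
  have h1 : x * (1 + κ) ≤ y := by nlinarith
  have h2 : 0 < x * (1 + κ) := by positivity
  have h3 := Real.log_le_log h2 h1
  rw [Real.log_mul hx.ne' (by positivity)] at h3
  have h4 := Real.one_sub_inv_le_log_of_pos (show (0 : ℝ) < 1 + κ by positivity)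
  have h5 : κ / 2 ≤ 1 - (1 + κ)⁻¹ := by
    have : (1 + κ)⁻¹ = 1 - κ / (1 + κ) := by
      field_simp
      ring
    rw [this]
    have h6 : κ / 2 ≤ κ / (1 + κ) := div_le_div_of_nonneg_left hκ.le (by positivity) (by linarith)
    linarith
  linarith

end Pool.Agent.H8.RZ
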