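import Pool.Agent.H8.RZ.INT
import Pool.Agent.H8.RZ.SEP

/-! # [H8 RZ CTA] The number of exceptional `a ≤ T`

`C1` from `int_gap`. The exceptional `a < C1` are at most `C1`. For the exceptional `a ∈ [C1, T]` put `f a = a^(1-δ) ∈ [0, T^(1-δ)]`; by `int_gap` and `pow_sep` they are `(1-δ)/2`-separated (`a0 < a1` or `a1 < a0`), so by `sep_count` their number is at most `2 T^(1-δ)/(1-δ) + 1`.
`C` at least `C1` and `C1 + 2/(1-δ) + 1` (`1 ≤ T^(1-δ)`), and `Big r n C T` implies `Big r n C1 T` (`Big.mono`). -/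

namespace Pool.Agent.H8.RZ

open Pool.Agent.H34.AC Pool.Agent.H97.NW

open Classical in
theorem count_a (r n : ℕ) (hr : 5 ≤ r) (hn : 3 ≤ n) (δ : ℝ) (hδ : 0 < δ)
    (hδ1 : δ < 1 - 9 / (2 * r)) :
    ∃ C : ℕ, 1 ≤ C ∧ ∀ T b : ℕ, 1 ≤ T → 1 ≤ b →
      (((Finset.Icc 1 T).filter fun a : ℕ => Big r n C T ((a : ℚ) / b)).card : ℝ) ≤
        C * (T : ℝ) ^ (1 - δ) := by
  obtain ⟨C1, hC1, hint⟩ := int_gap r n hr hn δ hδ hδ1
  have hδ2 : δ < 1 := by
    have : (0 : ℝ) ≤ 9 / (2 * r) := by positivity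
    linarith
  have hδ3 : 0 < 1 - δ := by linarith
  refine ⟨C1 + ⌈2 / (1 - δ)⌉₊ + 2, by omega, ?_⟩
  intro T b hT hb
  have hT1 : (1 : ℝ) ≤ (T : ℝ) := by exact_mod_cast hT
  have hTp : (1 : ℝ) ≤ (T : ℝ) ^ (1 - δ) := Real.one_le_rpow hT1 hδ3.le
  set A' := (Finset.Icc C1 T).filter fun a : ℕ => Big r n C1 T ((a : ℚ) / b) with hA'
  have hsub : ((Finset.Icc 1 T).filter fun a : ℕ =>
      Big r n (C1 + ⌈2 / (1 - δ)⌉₊ + 2) T ((a : ℚ) / b)) ⊆ Finset.range C1 ∪ A' := by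
    intro a ha
    rw [Finset.mem_filter, Finset.mem_Icc] at ha
    rw [Finset.mem_union, Finset.mem_range, hA', Finset.mem_filter, Finset.mem_Icc]
    by_cases h : a < C1
    · exact Or.inl h
    · refine Or.inr ⟨⟨by omega, ha.1.2⟩, Big.mono ?_ ha.2⟩
      intro H hH
      apply Nat.pow_le_pow_right
      · exact Nat.mul_pos hT (by omega)
      · omega
  have hsep : ∀ x ∈ A', ∀ y ∈ A', x ≠ y →
      (1 - δ) / 2 ≤ |((x : ℝ) ^ (1 - δ)) - ((y : ℝ) ^ (1 - δ))| := by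
    have key : ∀ x ∈ A', ∀ y ∈ A', x < y →
        (1 - δ) / 2 ≤ ((y : ℝ) ^ (1 - δ)) - ((x : ℝ) ^ (1 - δ)) := by
      intro x hx y hy hxy
      rw [hA', Finset.mem_filter, Finset.mem_Icc] at hx hy
      have h1 := hint T b hb x y hx.1.1 hxy hy.1.2 hx.2 hy.2
      have hx1 : (1 : ℝ) ≤ (x : ℝ) := by exact_mod_cast hC1.trans hx.1.1
      exact pow_sep hδ hδ2 hx1 h1.le
    intro x hx y hy hne
    rcases lt_or_gt_of_ne hne with h | h
    · have := key x hx y hy h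
      rw [abs_sub_comm]
      exact this.trans (le_abs_self _)
    · exact (key y hy x hx h).trans (le_abs_self _)
  have hcount := sep_count A' (fun a : ℕ => (a : ℝ) ^ (1 - δ)) ((T : ℝ) ^ (1 - δ)) ((1 - δ) / 2)
    (by linarith) (by positivity) (fun x _ => by positivity)
    (fun x hx => by
      rw [hA', Finset.mem_filter, Finset.mem_Icc] at hx
      exact Real.rpow_le_rpow (by positivity) (by exact_mod_cast hx.1.2) hδ3.le) hsep
  have hle : ((((Finset.Icc 1 T).filter fun a : ℕ =>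
      Big r n (C1 + ⌈2 / (1 - δ)⌉₊ + 2) T ((a : ℚ) / b)).card : ℕ) : ℝ) ≤ C1 + A'.card := by
    have h1 := (Finset.card_le_card hsub).trans (Finset.card_union_le _ _)
    rw [Finset.card_range] at h1
    exact_mod_cast h1
  refine hle.trans ?_
  have hceil : 2 / (1 - δ) ≤ (⌈2 / (1 - δ)⌉₊ : ℝ) := Nat.le_ceil _
  have e1 : (T : ℝ) ^ (1 - δ) / ((1 - δ) / 2) = (2 / (1 - δ)) * (T : ℝ) ^ (1 - δ) := by
    field_simp
  rw [e1] at hcount
  have hC1' : (0 : ℝ) ≤ C1 := by positivity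
  push_cast
  nlinarith

end Pool.Agent.H8.RZ
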