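import Pool.Agent.H8.RZ.PDL
import Pool.Agent.H8.RZ.SEP

/-! # [H8 RZ CTB] The number of exceptional rationals of height at most `T`

Choose `δ'` with `δ < δ' < 1 - 9/(2r)`, `C1` from `pair_ratio` for `δ'`. Let `b0 ≠ b1` be exceptional of height `≤ T` (numerator and denominator `≤ T`), `b0 = a/b`, `b1 = a'/b'`; `p = a' b`, `q = a b'`, `M = T²`: `b1 q = p b0`, `p ≠ q`. `Big r n C T` implies `Big r n C1 (T²)` for `C ≥ 2 C1`
(`Big.mono`: `(T² H)^C1 ≤ (T H)^(2 C1)`). So `(T²)^(δ'-1) q ≤ C1 |p - q|`; divide by `b b'`... i.e. with `κ = (T²)^(δ'-1)/C1 ≤ 1` and `b0 < b1`: `κ b0 ≤ b1 - b0` (as `b1 - b0 = b0 (p - q)/q`), and `log_sep` gives `κ/2 ≤ log b1 - log b0`. The numbers `f β = log β + log T` lie in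
`[0, 2 log T]`, so by `sep_count` there are at most `4 C1 T^(2(1-δ')) log T + 1 ≤ C T^(2(1-δ))` of them (`log T ≤ T^(2(δ'-δ))/(2(δ'-δ))`, `Real.log_le_rpow_div`). -/

namespace Pool.Agent.H8.RZ

open Pool.Agent.H34.AC Pool.Agent.H97.NW

theorem count_b (r n : ℕ) (hr : 5 ≤ r) (hn : 3 ≤ n) (δ : ℝ) (hδ : 0 < δ)
    (hδ1 : δ < 1 - 9 / (2 * r)) :
    ∃ C : ℕ, 1 ≤ C ∧ ∀ T : ℕ, 1 ≤ T → ∀ S : Finset ℚ,
      (∀ β ∈ S, 0 < β ∧ β.num ≤ T ∧ β.den ≤ T ∧ Big r n C T β) →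
      (S.card : ℝ) ≤ C * (T : ℝ) ^ (2 * (1 - δ)) := by
  obtain ⟨δ', hδ'⟩ : ∃ x, x = (δ + (1 - 9 / (2 * (r : ℝ)))) / 2 := ⟨_, rfl⟩
  have hr0 : (0 : ℝ) < r := by exact_mod_cast (by omega : 0 < r)
  have hq0 : (0 : ℝ) < 9 / (2 * (r : ℝ)) := by positivity
  have hd1 : δ < δ' := by rw [hδ']; linarith
  have hd2 : δ' < 1 - 9 / (2 * (r : ℝ)) := by rw [hδ']; linarith
  have hd3 : δ' < 1 := by linarith
  obtain ⟨C1, hC1, hpair⟩ := pair_ratio r n hr hn δ' (by linarith) hd2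
  have hC1r : (1 : ℝ) ≤ C1 := by exact_mod_cast hC1
  refine ⟨max (2 * C1) (⌈2 * (C1 : ℝ) / (δ' - δ)⌉₊ + 1), le_max_of_le_left (by omega), ?_⟩
  intro T hT S hS
  obtain ⟨C, hC⟩ : ∃ C, C = max (2 * C1) (⌈2 * (C1 : ℝ) / (δ' - δ)⌉₊ + 1) := ⟨_, rfl⟩
  rw [← hC] at hS ⊢
  have hCa : 2 * C1 ≤ C := by rw [hC]; exact le_max_left _ _
  have hCb : 2 * (C1 : ℝ) / (δ' - δ) + 1 ≤ C := by
    have h1 : ⌈2 * (C1 : ℝ) / (δ' - δ)⌉₊ + 1 ≤ C := by rw [hC]; exact le_max_right _ _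
    have h2 : ((⌈2 * (C1 : ℝ) / (δ' - δ)⌉₊ + 1 : ℕ) : ℝ) ≤ C := by exact_mod_cast h1
    push_cast at h2
    have h3 := Nat.le_ceil (2 * (C1 : ℝ) / (δ' - δ))
    linarith
  have hTr : (1 : ℝ) ≤ T := by exact_mod_cast hT
  have hT0 : (0 : ℝ) < T := by linarith
  -- the separation
  obtain ⟨κ, hκ⟩ : ∃ κ, κ = (((T ^ 2 : ℕ) : ℝ)) ^ (δ' - 1) / (C1 : ℝ) := ⟨_, rfl⟩
  have hM1 : (1 : ℝ) ≤ ((T ^ 2 : ℕ) : ℝ) := by exact_mod_cast Nat.one_le_pow _ _ hT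
  have hM0 : (0 : ℝ) < ((T ^ 2 : ℕ) : ℝ) := by linarith
  have hκ0 : 0 < κ := by
    rw [hκ]
    have := Real.rpow_pos_of_pos hM0 (δ' - 1)
    positivity
  have hκ1 : κ ≤ 1 := by
    rw [hκ]
    apply div_le_one_of_le₀ _ (by linarith)
    have h1 := Real.rpow_le_one_of_one_le_of_nonpos hM1 (by linarith : δ' - 1 ≤ 0)
    linarith
  have hbig : ∀ β ∈ S, Big r n C1 (T ^ 2) β := by
    intro β hβ
    refine Big.mono (fun H hH => ?_) (hS β hβ).2.2.2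
    have hTH : 1 ≤ T * H := Nat.mul_pos hT (by omega)
    calc (T ^ 2 * H) ^ C1 ≤ ((T * H) ^ 2) ^ C1 := by
          refine Nat.pow_le_pow_left ?_ _
          rw [mul_pow]
          exact Nat.mul_le_mul_left _ (Nat.le_self_pow (by norm_num) _)
      _ = (T * H) ^ (2 * C1) := (pow_mul _ _ _).symm
      _ ≤ (T * H) ^ C := Nat.pow_le_pow_right hTH hCa
  have hsep : ∀ b0 ∈ S, ∀ b1 ∈ S, b0 < b1 →
      κ / 2 ≤ Real.log ((b1 : ℚ) : ℝ) - Real.log ((b0 : ℚ) : ℝ) := by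
    intro b0 h0 b1 h1 hlt
    obtain ⟨p0, p1, p2, -⟩ := hS b0 h0
    obtain ⟨q0, q1, q2, -⟩ := hS b1 h1
    obtain ⟨a0, ha0⟩ : ∃ a : ℕ, (a : ℤ) = b0.num :=
      ⟨b0.num.toNat, Int.toNat_of_nonneg (Rat.num_pos.2 p0).le⟩
    obtain ⟨a1, ha1⟩ : ∃ a : ℕ, (a : ℤ) = b1.num :=
      ⟨b1.num.toNat, Int.toNat_of_nonneg (Rat.num_pos.2 q0).le⟩
    have ha0p : 1 ≤ a0 := by
      have h2 := Rat.num_pos.2 p0
      omega
    have ha1p : 1 ≤ a1 := by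
      have h2 := Rat.num_pos.2 q0
      omega
    have ha0T : a0 ≤ T := by omega
    have ha1T : a1 ≤ T := by omega
    have hd0 := b0.den_pos
    have hd1' := b1.den_pos
    have e0 : b0 = (a0 : ℚ) / b0.den := by
      conv_lhs => rw [← Rat.num_div_den b0]
      rw [← ha0, Int.cast_natCast]
    have e1 : b1 = (a1 : ℚ) / b1.den := by
      conv_lhs => rw [← Rat.num_div_den b1]
      rw [← ha1, Int.cast_natCast]
    have hd0q : (0 : ℚ) < b0.den := by exact_mod_cast hd0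
    have hd1q : (0 : ℚ) < b1.den := by exact_mod_cast hd1'
    have hrel : b1 * ((a0 * b1.den : ℕ) : ℚ) = ((a1 * b0.den : ℕ) : ℚ) * b0 := by
      push_cast
      have f0 : b0 * b0.den = a0 := by
        nth_rewrite 1 [e0]
        field_simp
      have f1 : b1 * b1.den = a1 := by
        nth_rewrite 1 [e1]
        field_simp
      linear_combination (a0 : ℚ) * f1 - (a1 : ℚ) * f0
    have hq1 : 1 ≤ a0 * b1.den := Nat.mul_pos ha0p hd1'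
    have hp1 : 1 ≤ a1 * b0.den := Nat.mul_pos ha1p hd0
    have hqq : (0 : ℚ) < ((a0 * b1.den : ℕ) : ℚ) := by exact_mod_cast hq1
    have hlt2 : a0 * b1.den < a1 * b0.den := by
      have h2 : ((a0 * b1.den : ℕ) : ℚ) * b0 < ((a1 * b0.den : ℕ) : ℚ) * b0 := by
        rw [← hrel, mul_comm b1]
        exact mul_lt_mul_of_pos_left hlt hqq
      have h3 := lt_of_mul_lt_mul_right h2 p0.le
      exact_mod_cast h3
    have hTT : ∀ x y : ℕ, x ≤ T → y ≤ T → x * y ≤ T ^ 2 := by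
      intro x y hx hy
      rw [sq]
      exact Nat.mul_le_mul hx hy
    have h4 := hpair (a1 * b0.den) (a0 * b1.den) (T ^ 2) hp1 hq1 hlt2.ne' (hTT _ _ ha1T p2)
      (hTT _ _ ha0T q2) b0 b1 p0 q0 hrel (hbig b0 h0) (hbig b1 h1)
    obtain ⟨P, hP⟩ : ∃ P : ℝ, P = ((a1 * b0.den : ℕ) : ℝ) := ⟨_, rfl⟩
    obtain ⟨Q, hQ⟩ : ∃ Q : ℝ, Q = ((a0 * b1.den : ℕ) : ℝ) := ⟨_, rfl⟩
    rw [← hP, ← hQ] at h4
    have hQ0 : 0 < Q := by rw [hQ]; exact_mod_cast hq1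
    have hPQ : Q < P := by rw [hQ, hP]; exact_mod_cast hlt2
    rw [abs_of_pos (by linarith)] at h4
    have hrelR : ((b1 : ℚ) : ℝ) * Q = P * ((b0 : ℚ) : ℝ) := by
      rw [hP, hQ]
      exact_mod_cast congrArg (fun x : ℚ => (x : ℝ)) hrel
    have hb0r : (0 : ℝ) < ((b0 : ℚ) : ℝ) := by exact_mod_cast p0
    refine log_sep hb0r hκ0 hκ1 ?_
    have h5 : κ * Q ≤ P - Q := by
      rw [hκ, div_mul_eq_mul_div, div_le_iff₀ (by linarith)]
      linarith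
    have h6 : κ * ((b0 : ℚ) : ℝ) * Q ≤ (((b1 : ℚ) : ℝ) - ((b0 : ℚ) : ℝ)) * Q := by
      have h7 := mul_le_mul_of_nonneg_left h5 hb0r.le
      nlinarith
    exact le_of_mul_le_mul_right h6 hQ0
  have hlogT : 0 ≤ Real.log T := Real.log_nonneg hTr
  have hcount := sep_count S (fun β => Real.log ((β : ℚ) : ℝ) + Real.log T) (2 * Real.log T)
    (κ / 2) (by linarith) (by linarith) ?_ ?_ ?_
  · have h1 : 2 * Real.log T / (κ / 2) + 1 =
        4 * C1 * (Real.log T * ((T ^ 2 : ℕ) : ℝ) ^ (1 - δ')) + 1 := by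
      have h2 : ((T ^ 2 : ℕ) : ℝ) ^ (1 - δ') * ((T ^ 2 : ℕ) : ℝ) ^ (δ' - 1) = 1 := by
        rw [← Real.rpow_add hM0]
        norm_num
      have h3 : 0 < ((T ^ 2 : ℕ) : ℝ) ^ (δ' - 1) := Real.rpow_pos_of_pos hM0 _
      have h4 : ((T ^ 2 : ℕ) : ℝ) ^ (1 - δ') = (((T ^ 2 : ℕ) : ℝ) ^ (δ' - 1))⁻¹ :=
        eq_inv_of_mul_eq_one_left h2
      rw [h4, hκ]
      field_simp
      ring
    have h2 : ((T ^ 2 : ℕ) : ℝ) ^ (1 - δ') = (T : ℝ) ^ (2 * (1 - δ')) := by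
      rw [Real.rpow_mul hT0.le]
      congr 1
      push_cast
      exact (Real.rpow_natCast _ 2).symm
    have hdd : 0 < 2 * (δ' - δ) := by linarith
    have h3 : Real.log T ≤ (T : ℝ) ^ (2 * (δ' - δ)) / (2 * (δ' - δ)) :=
      Real.log_le_rpow_div hT0.le hdd
    have h4 : Real.log T * (T : ℝ) ^ (2 * (1 - δ')) ≤
        (T : ℝ) ^ (2 * (1 - δ)) / (2 * (δ' - δ)) := by
      have h5 : (T : ℝ) ^ (2 * (1 - δ)) = (T : ℝ) ^ (2 * (δ' - δ)) * (T : ℝ) ^ (2 * (1 - δ')) := by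
        rw [← Real.rpow_add hT0]
        congr 1
        ring
      rw [h5, mul_div_right_comm]
      exact mul_le_mul_of_nonneg_right h3 (Real.rpow_nonneg hT0.le _)
    have h5 : (1 : ℝ) ≤ (T : ℝ) ^ (2 * (1 - δ)) := Real.one_le_rpow hTr (by linarith)
    rw [h1, h2] at hcount
    calc (S.card : ℝ) ≤ 4 * C1 * (Real.log T * (T : ℝ) ^ (2 * (1 - δ'))) + 1 := hcount
      _ ≤ 4 * C1 * ((T : ℝ) ^ (2 * (1 - δ)) / (2 * (δ' - δ))) + 1 := by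
          have h6 := mul_le_mul_of_nonneg_left h4 (by positivity : (0 : ℝ) ≤ 4 * C1)
          linarith
      _ = 2 * (C1 : ℝ) / (δ' - δ) * (T : ℝ) ^ (2 * (1 - δ)) + 1 := by
          have h7 : δ' - δ ≠ 0 := by linarith
          field_simp
          ring
      _ ≤ (2 * (C1 : ℝ) / (δ' - δ) + 1) * (T : ℝ) ^ (2 * (1 - δ)) := by
          rw [add_mul, one_mul]
          linarith
      _ ≤ C * (T : ℝ) ^ (2 * (1 - δ)) := mul_le_mul_of_nonneg_right hCb (by positivity)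
  · intro β hβ
    obtain ⟨p0, p1, p2, -⟩ := hS β hβ
    have hd0 : (0 : ℝ) < β.den := by exact_mod_cast β.den_pos
    have hdT : (β.den : ℝ) ≤ T := by exact_mod_cast p2
    have hn1 : (1 : ℝ) ≤ β.num := by exact_mod_cast Rat.num_pos.2 p0
    have hb : ((β : ℚ) : ℝ) = (β.num : ℝ) / β.den := Rat.cast_def β
    have h1 : (T : ℝ)⁻¹ ≤ ((β : ℚ) : ℝ) := by
      rw [hb, inv_eq_one_div]
      exact div_le_div₀ (by linarith) hn1 hd0 hdT
    have h2 := Real.log_le_log (by positivity) h1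
    rw [Real.log_inv] at h2
    show 0 ≤ Real.log ((β : ℚ) : ℝ) + Real.log T
    linarith
  · intro β hβ
    obtain ⟨p0, p1, p2, -⟩ := hS β hβ
    have hd1 : (1 : ℝ) ≤ β.den := by exact_mod_cast β.den_pos
    have hnT : (β.num : ℝ) ≤ T := by exact_mod_cast p1
    have hb : ((β : ℚ) : ℝ) = (β.num : ℝ) / β.den := Rat.cast_def β
    have hb0 : (0 : ℝ) < ((β : ℚ) : ℝ) := by exact_mod_cast p0
    have h1 : ((β : ℚ) : ℝ) ≤ T := by
      rw [hb, div_le_iff₀ (by linarith)]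
      nlinarith
    have h2 := Real.log_le_log hb0 h1
    show Real.log ((β : ℚ) : ℝ) + Real.log T ≤ 2 * Real.log T
    linarith
  · intro x hx y hy hxy
    show κ / 2 ≤ |Real.log ((x : ℚ) : ℝ) + Real.log T - (Real.log ((y : ℚ) : ℝ) + Real.log T)|
    have e1 : Real.log ((x : ℚ) : ℝ) + Real.log T - (Real.log ((y : ℚ) : ℝ) + Real.log T) =
        Real.log ((x : ℚ) : ℝ) - Real.log ((y : ℚ) : ℝ) := by ring
    rw [e1]
    rcases lt_or_gt_of_ne hxy with h | h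
    · rw [abs_sub_comm]
      exact (hsep x hx y hy h).trans (le_abs_self _)
    · exact (hsep y hy x hx h).trans (le_abs_self _)

end Pool.Agent.H8.RZ
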