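import Pool.Agent.H8.RZ.EXD
import Pool.Agent.H37.RR.AnP
import Pool.Agent.H87.RZ.REP

/-! # [H8 RZ ANP] Radicals close to one are never exceptional (Theorem A+, helper37)

`anchor_plus` (`Pool/Agent/H37/RR/AnP.lean`): `far_z` with `m = 1`, `one_z`, `redP`. -/

namespace Pool.Agent.H8.RZ

open Pool.Agent.H34.AC Pool.Agent.H97.NW

theorem anchor_big (r n : ℕ) (hr : 1 ≤ r) (hn : 3 ≤ n) (lam : ℝ) (hlam : 0 < lam)
    (hlam1 : lam ≤ 1) (hrl : 2 < r * lam) :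
    ∃ C : ℕ, ∀ (p q : ℕ), NP lam p q → C ≤ q → ¬ Big r n C q ((p : ℚ) / q) := by
  obtain ⟨C, hC⟩ := Pool.Agent.H37.RR.anchor_plus r n lam hlam hlam1 hrl
  refine ⟨C, ?_⟩
  rintro p q hNP hq ⟨F, h1, h2, h3, H, h4, h5, x, y, h6, h7⟩
  exact absurd h7 (not_lt.2 (hC p q hNP hq F h1 h2 h3 H h4 h5 x y h6))

/-- the same with an exponent -/
theorem anchor_delta (r n : ℕ) (hr : 3 ≤ r) (hn : 3 ≤ n) (δ : ℝ) (hδ : 0 < δ)
    (hδ1 : δ < 1 - 2 / r) :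
    ∃ C : ℕ, 1 ≤ C ∧ ∀ (p q : ℕ), Nat.Coprime p q → p ≠ q → C ≤ q →
      |(p : ℝ) - q| ≤ (q : ℝ) ^ δ → ¬ Big r n C q ((p : ℚ) / q) := by
  have hrR : (0 : ℝ) < r := by exact_mod_cast (by omega : 0 < r)
  obtain ⟨lam, hlamdef⟩ : ∃ lam : ℝ, lam = (1 - δ + 2 / r) / 2 := ⟨_, rfl⟩
  have h2r : (0 : ℝ) < 2 / r := by positivity
  have hl0 : 0 < lam := by rw [hlamdef]; linarith
  have hl1 : lam < 1 - δ := by rw [hlamdef]; linarith
  have hl2 : 2 / r < lam := by rw [hlamdef]; linarith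
  have hrl : 2 < r * lam := by
    rw [div_lt_iff₀ hrR] at hl2
    linarith
  obtain ⟨C0, hC0⟩ := anchor_big r n (by omega) hn lam hl0 (by linarith) hrl
  obtain ⟨C1, hC1⟩ := np_of_close hl0 hl1 (by linarith)
  obtain ⟨C2, hC2⟩ := exists_nat_ge ((2 : ℝ) ^ (1 / (1 - δ)))
  refine ⟨C0 + C1 + C2 + 1, by omega, ?_⟩
  intro p q hcop hne hq hcl hbig
  have hq1 : (1 : ℝ) ≤ q := by exact_mod_cast (by omega : 1 ≤ q)
  have hq0 : (0 : ℝ) < q := by linarith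
  have hhalf : |(p : ℝ) - q| ≤ q / 2 := by
    refine hcl.trans ?_
    have h1 : (2 : ℝ) ^ (1 / (1 - δ)) ≤ q := hC2.trans (by exact_mod_cast (by omega : C2 ≤ q))
    have h2 : (2 : ℝ) ≤ (q : ℝ) ^ (1 - δ) := by
      calc (2 : ℝ) = ((2 : ℝ) ^ (1 / (1 - δ))) ^ (1 - δ) := by
            rw [← Real.rpow_mul (by norm_num), one_div,
              inv_mul_cancel₀ (by linarith : (1 - δ : ℝ) ≠ 0), Real.rpow_one]
        _ ≤ (q : ℝ) ^ (1 - δ) := Real.rpow_le_rpow (by positivity) h1 (by linarith)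
    have h3 : (q : ℝ) ^ δ * (q : ℝ) ^ (1 - δ) = q := by
      rw [← Real.rpow_add hq0]
      simp
    have h4 : 0 < (q : ℝ) ^ δ := Real.rpow_pos_of_pos hq0 _
    nlinarith
  have hp1 : 1 ≤ p := by
    rcases Nat.eq_zero_or_pos p with h | h
    · exfalso
      rw [h, Nat.cast_zero, zero_sub, abs_neg, abs_of_pos hq0] at hhalf
      linarith
    · exact h
  have hNP : NP lam p q := hC1 p q hp1 (by omega) hcop hne
    (by rw [sub_sub_cancel]; exact hcl) hhalf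
  refine hC0 p q hNP (by omega) (Big.mono (fun H hH => ?_) hbig)
  exact Nat.pow_le_pow_right (Nat.mul_pos (by omega) (by omega)) (by omega)

end Pool.Agent.H8.RZ
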