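import Pool.Agent.H8.RZ.EQZ
import Pool.Agent.H97.NW.SIE
import Pool.Agent.H97.NW.CNT
import Pool.Agent.H97.NW.CEL
import Pool.Agent.H52.AC.UB

/-! # [H8 RZ AXA] The auxiliary function

Adapt `auxA` (`Pool/Agent/H97/NW/AUXA.lean`, 120 lines). `siegel_gen` with `ι = Ix2 J r × Mo P N`, `C = {K' // K' ∈ cells (Fin.snoc ℓ L) TT}`, `P = {j // j ∈ PP}`,
`V K' j (u, μ) = (ex u).choose (K' (Fin.last m)) * (q^(r-1) * z(j)^(u.2)) * ∑_(ρ) ∏_v coeff (e_v K_v + ρ_v) (uu ..)`, `K_v = K' v.castSucc`,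
so that `∑_(u,μ) A u μ V = q^(r-1) * ∑_ρ Bz .. (K' last) (e K + ρ)` (`Finset.sum_comm`, `Fintype.sum_prod_type`). `cj j = (c_v (j v))_v` with `exists_cj` as in `auxA`;
`z (cj j) = conj (z j)` by `Z.gal` with `σ = (starRingEnd ℂ).comp (algebraMap AA ℂ)` (`z j` is algebraic: root of `q z^r = p`; see the header of EQZ), real
coefficients otherwise, `coeff_uu_conj`. Bounds: `choose ≤ 2^(ex u) ≤ 2^(r (J+1))` (`Nat.choose_le_two_pow`, or `Nat.choose` is at most `Nat.sum_range_choose`),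
`‖q^(r-1) z^i‖ ≤ (p + q)^(r-1)` (`‖q z‖^r = p q^(r-1) ≤ (p+q)^r`, so `‖q z‖ ≤ p + q`; `q^(r-1) z^i = q^(r-1-i) (q z)^i`, `i ≤ r-1`), the rest as in `auxA`: `hVn : ‖V‖ ≤ B' * B`
with `B' = 2^(r (J+1)) * (p+q)^(r-1)`. Count: `(∑ over the cells of Fin.snoc)`: `mem_cells` with `Fin.sum_univ_castSucc`, `Fin.snoc_castSucc`, `Fin.snoc_last`; a cell `K'`
gives `∑ ℓ_v K_v < TT`, so `hB` applies to `K ∈ cells ℓ TT` (`L * K' last ≥ 0`). Then `cell_zero_z`; for `k` arbitrary take `K_v = k_v / e_v`, `ρ_v = k_v % e_v`. -/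

namespace Pool.Agent.H8.RZ

open Finset Polynomial Pool.Agent.H72.ES Pool.Agent.H87.SA2 Pool.Agent.H8.AW Pool.Agent.H52.AC
  Pool.Agent.H97.NW

variable {m n : ℕ}

private theorem axa_ex {J r : ℕ} (u : Ix2 J r) : ex u ≤ r * (J + 1) := by
  unfold ex
  have h1 : (u.1 : ℕ) ≤ J := Nat.lt_succ_iff.1 u.1.isLt
  have h2 : (u.2 : ℕ) < r := u.2.isLt
  have h3 : r * (u.1 : ℕ) ≤ r * J := Nat.mul_le_mul_left r h1
  rw [Nat.mul_succ]
  omega

private theorem axa_choose {J r : ℕ} (u : Ix2 J r) (l : ℕ) :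
    ‖((ex u).choose l : ℂ)‖ ≤ (2 : ℝ) ^ (r * (J + 1)) := by
  rw [Complex.norm_natCast]
  have h1 : (ex u).choose l ≤ 2 ^ (r * (J + 1)) :=
    (Nat.choose_le_two_pow _ _).trans (Nat.pow_le_pow_right (by norm_num) (axa_ex u))
  exact_mod_cast h1

private theorem axa_z {z : ℂ} {r p q : ℕ} (hr : 1 ≤ r) (hp : 1 ≤ p) (hq : 1 ≤ q)
    (h : z ^ r * (q : ℂ) = (p : ℂ)) (i : Fin r) :
    ‖(q : ℂ) ^ (r - 1) * z ^ (i : ℕ)‖ ≤ ((p : ℝ) + q) ^ (r - 1) := by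
  have hp1 : (1 : ℝ) ≤ p := by exact_mod_cast hp
  have hq1 : (1 : ℝ) ≤ q := by exact_mod_cast hq
  have h1 : ‖z‖ ^ r * q = p := by
    have h2 := congrArg norm h
    rw [norm_mul, norm_pow, Complex.norm_natCast, Complex.norm_natCast] at h2
    exact h2
  have hqz : (q : ℝ) * ‖z‖ ≤ (p : ℝ) + q := by
    by_contra hcon
    push Not at hcon
    have h2 : ((p : ℝ) + q) ^ r < ((q : ℝ) * ‖z‖) ^ r :=
      pow_lt_pow_left₀ hcon (by linarith) (by omega)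
    obtain ⟨s, rfl⟩ : ∃ s, r = s + 1 := ⟨r - 1, by omega⟩
    have h3 : ((q : ℝ) * ‖z‖) ^ (s + 1) = (q : ℝ) ^ s * p := by
      rw [mul_pow, ← h1]
      ring
    rw [h3] at h2
    have h4 : (q : ℝ) ^ s * p ≤ ((p : ℝ) + q) ^ s * ((p : ℝ) + q) := by
      apply mul_le_mul (pow_le_pow_left₀ (by linarith) (by linarith) _) (by linarith) (by linarith)
        (by positivity)
    rw [← pow_succ] at h4
    linarith
  have e : r - 1 = (r - 1 - (i : ℕ)) + (i : ℕ) := by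
    have := i.isLt
    omega
  rw [norm_mul, norm_pow, norm_pow, Complex.norm_natCast]
  calc (q : ℝ) ^ (r - 1) * ‖z‖ ^ (i : ℕ) = (q : ℝ) ^ (r - 1 - (i : ℕ)) * ((q : ℝ) * ‖z‖) ^ (i : ℕ) := by
        rw [mul_pow, ← mul_assoc, ← pow_add, ← e]
    _ ≤ ((p : ℝ) + q) ^ (r - 1 - (i : ℕ)) * ((p : ℝ) + q) ^ (i : ℕ) := by
        apply mul_le_mul (pow_le_pow_left₀ (by linarith) (by linarith) _)
          (pow_le_pow_left₀ (by positivity) hqz _) (by positivity) (by positivity)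
    _ = ((p : ℝ) + q) ^ (r - 1) := by rw [← pow_add, ← e]

private theorem axa_swap {U R M : Type*} [Fintype U] [Fintype R] [Fintype M] (Q : ℂ) (a z : U → ℂ)
    (A : U × M → ℂ) (F : R → M → ℂ) :
    Q * ∑ ρ, ∑ u, a u * z u * ∑ μ, A (u, μ) * F ρ μ =
      ∑ x : U × M, A x * (a x.1 * (Q * z x.1) * ∑ ρ, F ρ x.2) := by
  rw [Fintype.sum_prod_type, Finset.sum_comm, Finset.mul_sum]
  refine Finset.sum_congr rfl fun u _ => ?_
  have h1 : ∑ ρ, a u * z u * ∑ μ, A (u, μ) * F ρ μ = a u * z u * ∑ μ, A (u, μ) * ∑ ρ, F ρ μ := by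
    rw [← Finset.mul_sum, Finset.sum_comm]
    congr 1
    refine Finset.sum_congr rfl fun μ _ => ?_
    rw [← Finset.mul_sum]
  rw [h1, Finset.mul_sum, Finset.mul_sum]
  refine Finset.sum_congr rfl fun μ _ => ?_
  ring

theorem auxAZ (P : Fin m → Ptd n) (PP : Finset (∀ v, Fin (P v).d)) (hst : Stb P PP)
    {r p q : ℕ} (hr : 1 ≤ r) (hp : 1 ≤ p) (hq : 1 ≤ q) (Z : ZD P PP r p q)
    (D N : Fin m → ℕ) (J : ℕ) (hN : ∀ v, 1 ≤ N v) (ℓ : Fin m → ℝ) (hℓ : ∀ v, 0 < ℓ v)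
    (L : ℝ) (hL : 0 < L) (TT : ℝ) (hTT : 0 < TT) (r' : ℕ) (hr' : 1 ≤ r')
    (hcount : (r' + 1) * (PP.card * (cells (Fin.snoc ℓ L : Fin (m + 1) → ℝ) TT).card) ≤
      r' * ((J + 1) * r * ∏ v, (N v * (P v).d))) (B : ℝ)
    (hB : ∀ K ∈ cells ℓ TT, ∏ v, (((P v).C.pd.e : ℝ) *
      (2 * (P v).C.pd.q * (P v).C.pd.R) ^ ((P v).C.pd.e * (K v + 1) + n)) ≤ B) :
    ∃ A : Ix2 J r → Mo P N → ℤ, A ≠ 0 ∧
      (∀ u μ, |(A u μ : ℝ)| ≤ (4 * ((((J + 1) * r * ∏ v, (N v * (P v).d) : ℕ) : ℝ) *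
        ((2 : ℝ) ^ (r * (J + 1)) * ((p : ℝ) + q) ^ (r - 1) * B))) ^ r') ∧
      ∀ j ∈ PP, ∀ (l : ℕ) (k : Fin m → ℕ),
        (l : ℝ) * L + ∑ v, ℓ v * ((k v / (P v).C.pd.e : ℕ) : ℝ) < TT →
        Bz P D N A (Z.z j) j l k = 0 := by
  classical
  choose c hc1 hc2 using fun v => exists_cj (P v)
  have hq1 : ∀ v, (1 : ℝ) ≤ (P v).C.pd.q := fun v => by exact_mod_cast (P v).C.pd.q_pos
  have hR1 : ∀ v, (2 : ℝ) ≤ (P v).C.pd.R := fun v => (P v).C.pd.R_ge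
  have he1 : ∀ v, (1 : ℝ) ≤ (P v).C.pd.e := fun v => by exact_mod_cast (P v).C.pd.e_pos
  have hX1 : ∀ v, (1 : ℝ) ≤ 2 * (P v).C.pd.q * (P v).C.pd.R := fun v => by
    have h1 := hq1 v
    have h2 := hR1 v
    nlinarith
  have hp1 : (1 : ℝ) ≤ p := by exact_mod_cast hp
  have hqq1 : (1 : ℝ) ≤ q := by exact_mod_cast hq
  have hsn : ∀ v, 0 < (Fin.snoc ℓ L : Fin (m + 1) → ℝ) v := by
    intro v
    refine Fin.lastCases ?_ (fun v => ?_) v
    · rw [Fin.snoc_last]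
      exact hL
    · rw [Fin.snoc_castSucc]
      exact hℓ v
  -- conjugation
  have hgal : ∀ j ∈ PP, ∀ (v : Fin m) (k : ℕ) (a : AA), (a : ℂ) = PowerSeries.coeff k ((P v).C.pd.x (j v)) →
      ((starRingEnd ℂ).comp (algebraMap AA ℂ)) a = PowerSeries.coeff k ((P v).C.pd.x (c v (j v))) := by
    intro j _ v k a ha
    rw [hc2 v (j v) k, ← ha]
    rfl
  have hcm : ∀ j ∈ PP, (fun v => c v (j v)) ∈ PP := by
    intro j hj
    exact hst.1 ((starRingEnd ℂ).comp (algebraMap AA ℂ)) j hj _ (hgal j hj)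
  have hzc : ∀ j ∈ PP, Z.z (fun v => c v (j v)) = (starRingEnd ℂ) (Z.z j) := by
    intro j hj
    have h1 := Z.gal ((starRingEnd ℂ).comp (algebraMap AA ℂ)) j hj (fun v => c v (j v)) (hgal j hj)
      ⟨Z.z j, eqz_mem hr hq (Z.root j hj)⟩ rfl
    exact h1.symm
  let cj : {j // j ∈ PP} → {j // j ∈ PP} := fun j => ⟨fun v => c v (j.1 v), hcm j.1 j.2⟩
  have hcj : ∀ j, cj (cj j) = j := by
    intro j
    apply Subtype.ext
    funext v
    exact hc1 v _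
  let V : {K // K ∈ cells (Fin.snoc ℓ L : Fin (m + 1) → ℝ) TT} → {j // j ∈ PP} →
      (Ix2 J r × Mo P N) → ℂ := fun K j x =>
    ((ex x.1).choose (K.1 (Fin.last m)) : ℂ) * ((q : ℂ) ^ (r - 1) * Z.z j.1 ^ (x.1.2 : ℕ)) *
    ∑ ρ : (∀ v, Fin (P v).C.pd.e), ∏ v, PowerSeries.coeff ((P v).C.pd.e * K.1 v.castSucc + (ρ v : ℕ))
      (uu (P v).C.pd.q (P v).C.pd.e ((P v).C.pd.x (j.1 v)) (D v) (x.2 v).1 (x.2 v).2)
  have hconj : ∀ K j x, V K (cj j) x = (starRingEnd ℂ) (V K j x) := by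
    intro K j x
    simp only [V, cj]
    rw [map_mul, map_mul, map_mul, map_pow, map_pow, map_natCast, map_natCast, map_sum, hzc j.1 j.2]
    congr 1
    refine Finset.sum_congr rfl fun ρ _ => ?_
    rw [map_prod]
    refine Finset.prod_congr rfl fun v _ => ?_
    exact coeff_uu_conj _ _ (hc2 v (j.1 v)) _ _ _ _
  have hcell : ∀ K ∈ cells (Fin.snoc ℓ L : Fin (m + 1) → ℝ) TT, (fun v : Fin m => K v.castSucc) ∈ cells ℓ TT := by
    intro K hK
    rw [mem_cells hsn, Fin.sum_univ_castSucc] at hK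
    simp only [Fin.snoc_castSucc, Fin.snoc_last] at hK
    rw [mem_cells hℓ]
    have h1 : 0 ≤ L * (K (Fin.last m) : ℝ) := by positivity
    linarith
  set B' : ℝ := (2 : ℝ) ^ (r * (J + 1)) * ((p : ℝ) + q) ^ (r - 1) with hB'
  have hB'1 : 1 ≤ B' := by
    rw [hB']
    exact one_le_mul_of_one_le_of_one_le (one_le_pow₀ (by norm_num)) (one_le_pow₀ (by linarith))
  have hVn : ∀ K j x, ‖V K j x‖ ≤ B' * B := by
    intro K j x
    simp only [V]
    rw [norm_mul, norm_mul, hB']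
    refine mul_le_mul (mul_le_mul (axa_choose x.1 _) (axa_z hr hp hq (Z.root j.1 j.2) x.1.2)
      (norm_nonneg _) (by positivity)) ?_ (norm_nonneg _) (by positivity)
    refine le_trans ?_ (hB (fun v => K.1 v.castSucc) (hcell K.1 K.2))
    refine (norm_sum_le _ _).trans ?_
    have h1 : ∀ ρ ∈ (Finset.univ : Finset (∀ v, Fin (P v).C.pd.e)),
        ‖∏ v, PowerSeries.coeff ((P v).C.pd.e * K.1 v.castSucc + (ρ v : ℕ))
        (uu (P v).C.pd.q (P v).C.pd.e ((P v).C.pd.x (j.1 v)) (D v) (x.2 v).1 (x.2 v).2)‖ ≤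
        ∏ v, (2 * ((P v).C.pd.q : ℝ) * (P v).C.pd.R) ^ ((P v).C.pd.e * (K.1 v.castSucc + 1) + n) := by
      intro ρ _
      rw [norm_prod]
      refine Finset.prod_le_prod (fun v _ => norm_nonneg _) fun v _ => ?_
      refine (uu_le (P v).C.pd.q_pos (by linarith [hR1 v]) ((P v).C.pd.growth (j.1 v)) _ _ _ _).trans ?_
      apply pow_le_pow_right₀ (hX1 v)
      have h2 : ((x.2 v).2 : ℕ) < (P v).d := (x.2 v).2.2
      have h3 := (P v).C.dn
      have h4 : (ρ v : ℕ) < (P v).C.pd.e := (ρ v).2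
      have h5 : (P v).C.pd.e * (K.1 v.castSucc + 1) = (P v).C.pd.e * K.1 v.castSucc + (P v).C.pd.e := by ring
      omega
    refine (Finset.sum_le_sum h1).trans (le_of_eq ?_)
    rw [Finset.sum_const, Finset.card_univ, Fintype.card_pi, nsmul_eq_mul]
    push_cast
    rw [← Finset.prod_mul_distrib]
    refine Finset.prod_congr rfl fun v _ => ?_
    rw [Fintype.card_fin]
  have hcardM : Fintype.card (Mo P N) = ∏ v, (N v * (P v).d) := by
    rw [Fintype.card_pi]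
    refine Finset.prod_congr rfl fun v _ => ?_
    rw [Fintype.card_prod, Fintype.card_fin, Fintype.card_fin]
  have hcard : Fintype.card (Ix2 J r × Mo P N) = (J + 1) * r * ∏ v, (N v * (P v).d) := by
    rw [Fintype.card_prod, hcardM, Fintype.card_prod, Fintype.card_fin, Fintype.card_fin]
  have hcard0 : 0 < Fintype.card (Ix2 J r × Mo P N) := by
    rw [hcard]
    refine Nat.mul_pos (Nat.mul_pos (Nat.succ_pos J) hr) (Finset.prod_pos fun v _ => ?_)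
    exact Nat.mul_pos (hN v) (P v).C.d1
  have hB1 : 1 ≤ B := by
    have h0 : (fun _ => 0 : Fin m → ℕ) ∈ cells ℓ TT := by
      rw [mem_cells hℓ]
      simpa using hTT
    refine le_trans ?_ (hB _ h0)
    refine Finset.prod_induction _ (fun x : ℝ => 1 ≤ x)
      (fun a b ha hb => one_le_mul_of_one_le_of_one_le ha hb) le_rfl fun v _ => ?_
    exact one_le_mul_of_one_le_of_one_le (he1 v) (one_le_pow₀ (hX1 v))
  have hM1 : 1 ≤ (((J + 1) * r * ∏ v, (N v * (P v).d) : ℕ) : ℝ) * (B' * B) := by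
    apply one_le_mul_of_one_le_of_one_le _ (one_le_mul_of_one_le_of_one_le hB'1 hB1)
    rw [← hcard]
    exact_mod_cast hcard0
  obtain ⟨A, hA0, hAb, hAs⟩ := siegel_gen V cj hcj hconj hM1
    (by
      intro K j
      calc ∑ x, ‖V K j x‖ ≤ ∑ _x : Ix2 J r × Mo P N, B' * B := Finset.sum_le_sum fun x _ => hVn K j x
        _ = (((J + 1) * r * ∏ v, (N v * (P v).d) : ℕ) : ℝ) * (B' * B) := by
            rw [Finset.sum_const, Finset.card_univ, nsmul_eq_mul, hcard]) hr'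
    (by
      rw [Fintype.card_coe, Fintype.card_coe, hcard]
      exact hcount) hcard0
  refine ⟨fun u μ => A (u, μ), ?_, fun u μ => hAb (u, μ), ?_⟩
  · intro h0
    apply hA0
    funext x
    exact congrFun (congrFun h0 x.1) x.2
  intro j hj l k hk
  have hmem : (Fin.snoc (fun v => k v / (P v).C.pd.e) l : Fin (m + 1) → ℕ) ∈
      cells (Fin.snoc ℓ L : Fin (m + 1) → ℝ) TT := by
    rw [mem_cells hsn, Fin.sum_univ_castSucc]
    simp only [Fin.snoc_castSucc, Fin.snoc_last]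
    linarith
  have hsmall : ∀ j ∈ PP, ‖(q : ℂ) ^ (r - 1) * ∑ ρ : (∀ v, Fin (P v).C.pd.e),
      Bz P D N (fun u μ => A (u, μ)) (Z.z j) j l
        (fun v => (P v).C.pd.e * (k v / (P v).C.pd.e) + (ρ v : ℕ))‖ < 1 := by
    intro j hj
    have h1 := hAs ⟨_, hmem⟩ ⟨j, hj⟩
    have h2 : (q : ℂ) ^ (r - 1) * ∑ ρ : (∀ v, Fin (P v).C.pd.e),
        Bz P D N (fun u μ => A (u, μ)) (Z.z j) j l
          (fun v => (P v).C.pd.e * (k v / (P v).C.pd.e) + (ρ v : ℕ)) =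
        ∑ x, (A x : ℂ) * V ⟨_, hmem⟩ ⟨j, hj⟩ x := by
      simp only [V, Fin.snoc_castSucc, Fin.snoc_last]
      unfold Bz Bm
      exact axa_swap ((q : ℂ) ^ (r - 1)) (fun u : Ix2 J r => ((ex u).choose l : ℂ))
        (fun u : Ix2 J r => Z.z j ^ (u.2 : ℕ)) (fun x : Ix2 J r × Mo P N => (A x : ℂ))
        (fun (ρ : ∀ v, Fin (P v).C.pd.e) (μ : Mo P N) => ∏ v,
          PowerSeries.coeff ((P v).C.pd.e * (k v / (P v).C.pd.e) + (ρ v : ℕ))
          (uu (P v).C.pd.q (P v).C.pd.e ((P v).C.pd.x (j v)) (D v) (μ v).1 (μ v).2))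
    rw [h2]
    exact h1
  have h3 := cell_zero_z P PP hst hr hq Z D N (fun u μ => A (u, μ)) l _ hsmall j hj
    (fun v => ⟨k v % (P v).C.pd.e, Nat.mod_lt _ (P v).C.pd.e_pos⟩)
  have h4 : (fun v => (P v).C.pd.e * (k v / (P v).C.pd.e) + k v % (P v).C.pd.e) = k := by
    funext v
    exact Nat.div_add_mod _ _
  simp only [h4] at h3
  exact h3

end Pool.Agent.H8.RZ
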