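import Pool.Agent.H8.RZ.Defs
import Pool.Agent.H97.NW.CNT

/-! # [H8 RZ CNA] Counting, abstract form, and the form with the block `ζ`

`count_abs`: copy the proof of `count_num` (`Pool/Agent/H97/NW/CNB.lean`, 170 lines, landed) and replace `(P v).ell` by `ℓ v`, `(P v).d` by `d v`
(`(P v).C.dn` by `hd v`, `(P v).C.d1` by `hd1 v`), `Df P Y v` by `⌊Y / ℓ v⌋₊`, `Nf P Y v` by `⌊Y / ℓ v⌋₊ + 1 - d v`; the private lemma `cnb_delta` has to be copied.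
The only change: the weights of the cells are `w v ≤ ℓ v` with `∏ w v = lam ∏ ℓ v`; `cells_card` gives `#cells * (m! ∏ w_v) ≤ (T + ∑ w_v)^m ≤ (T + ∑ ℓ_v)^m`, i.e. `#cells * (m! lam ∏ ℓ_v) ≤ (T + ∑ ℓ_v)^m`, and the factor `lam > 0`
is carried through the main inequality (the hypothesis has `lam` on the right).
`count_z`: `count_abs (m+1) (max n r) _ lam γ` applied to `ℓ' = Fin.snoc (fun v => (P v).ell) L`, `w' = Fin.snoc (fun v => (P v).ell) (lam * L)`, `d' = Fin.snoc (fun v => (P v).d) r`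
(`Fin.prod_univ_castSucc`, `Fin.snoc_castSucc`, `Fin.snoc_last`, `Fin.lastCases`); `Nf P Y v = ⌊Y / ell⌋₊ + 1 - d` by definition; `r ≤ ⌊Y/L⌋₊` from `1 ≤ ⌊Y/L⌋₊ + 1 - r`. -/

namespace Pool.Agent.H8.RZ

open Finset Pool.Agent.H97.NW

private theorem cna_delta (m n : ℕ) (hm : 1 ≤ m) (γ : ℝ) (hγ : 0 < γ) : ∃ δ : ℝ, 0 < δ ∧ δ < 1 / (n + 2) ∧
    (1 + δ) * ((m : ℝ) + δ + m * δ) ^ m ≤ (1 + γ) * ((1 - n * δ) ^ m * (m : ℝ) ^ m) := by
  have hmr : (0 : ℝ) < m := by exact_mod_cast hm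
  have hc : ContinuousAt (fun δ : ℝ => (1 + γ) * ((1 - n * δ) ^ m * (m : ℝ) ^ m) -
      (1 + δ) * ((m : ℝ) + δ + m * δ) ^ m) 0 := by
    apply Continuous.continuousAt
    fun_prop
  have h0 : (0 : ℝ) < (fun δ : ℝ => (1 + γ) * ((1 - n * δ) ^ m * (m : ℝ) ^ m) -
      (1 + δ) * ((m : ℝ) + δ + m * δ) ^ m) 0 := by
    have h1 : (fun δ : ℝ => (1 + γ) * ((1 - n * δ) ^ m * (m : ℝ) ^ m) -
      (1 + δ) * ((m : ℝ) + δ + m * δ) ^ m) 0 = γ * (m : ℝ) ^ m := by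
      simp only [mul_zero, sub_zero, one_pow, add_zero, one_mul]
      ring
    rw [h1]
    positivity
  have h2 := hc.eventually (lt_mem_nhds h0)
  have h3 : ∀ᶠ δ : ℝ in nhdsWithin 0 (Set.Ioi 0), 0 < (1 + γ) * ((1 - n * δ) ^ m * (m : ℝ) ^ m) -
      (1 + δ) * ((m : ℝ) + δ + m * δ) ^ m := h2.filter_mono nhdsWithin_le_nhds
  have h4 : ∀ᶠ δ : ℝ in nhdsWithin 0 (Set.Ioi 0), δ ∈ Set.Ioo (0 : ℝ) (1 / (n + 2)) :=
    Ioo_mem_nhdsGT (by positivity)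
  obtain ⟨δ, hδ, hδ'⟩ := (h3.and h4).exists
  exact ⟨δ, hδ'.1, hδ'.2, by linarith⟩

theorem count_abs (m n : ℕ) (hm : 1 ≤ m) (γ : ℝ) (hγ : 0 < γ) : ∃ (η K0 : ℝ) (r : ℕ),
    0 < η ∧ η ≤ 1 ∧ 1 ≤ K0 ∧ 1 ≤ r ∧ ∀ (ℓ w : Fin m → ℝ) (lam : ℝ) (d : Fin m → ℕ) (c : ℕ),
      (∀ v, 1 ≤ d v) → (∀ v, d v ≤ n) → 0 < lam → (∀ v, 0 < w v) → (∀ v, w v ≤ ℓ v) →
      ∏ v, w v = lam * ∏ v, ℓ v →
      (1 + γ) * ((m : ℝ) ^ m * c) ≤ (m.factorial : ℝ) * (lam * ∏ v, (d v : ℝ)) →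
      ∀ Y : ℝ, (∀ v, K0 * ℓ v ≤ Y) →
      (∀ v, 1 ≤ ⌊Y / ℓ v⌋₊ + 1 - d v) ∧ (r + 1) * (c * (cells w ((m + η) * Y)).card) ≤
        r * ∏ v, ((⌊Y / ℓ v⌋₊ + 1 - d v) * d v) := by
  obtain ⟨δ, hδ, hδn, hδm⟩ := cna_delta m n hm γ hγ
  have hmr : (0 : ℝ) < m := by exact_mod_cast hm
  have hn0 : (0 : ℝ) ≤ n := Nat.cast_nonneg n
  have hδ2 : δ * (n + 2) < 1 := by rwa [lt_div_iff₀ (by positivity)] at hδn
  have hδ1 : δ ≤ 1 := by nlinarith
  obtain ⟨r, hr⟩ := exists_nat_ge (1 / δ)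
  have hrδ : 1 ≤ (r : ℝ) * δ := by rwa [div_le_iff₀ hδ] at hr
  have hr1 : 1 ≤ r := by
    rcases Nat.eq_zero_or_pos r with h | h
    · rw [h] at hrδ
      norm_num at hrδ
    · exact h
  have hK0 : 1 ≤ 1 / δ := by rw [le_div_iff₀ hδ]; linarith
  refine ⟨δ, 1 / δ, r, hδ, hδ1, hK0, hr1, ?_⟩
  intro ℓ w lam d c hd1 hdn' hlam hw hwl hprod hc Y hY
  have hell : ∀ v, 0 < ℓ v := fun v => (hw v).trans_le (hwl v)
  have hell' : ∀ v, ℓ v ≤ δ * Y := by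
    intro v
    have h1 := hY v
    have h2 : δ * (1 / δ * ℓ v) ≤ δ * Y := mul_le_mul_of_nonneg_left h1 hδ.le
    rwa [← mul_assoc, mul_one_div_cancel hδ.ne', one_mul] at h2
  have hY0 : 0 < Y := by
    have h1 := hell ⟨0, hm⟩
    have h2 := hell' ⟨0, hm⟩
    by_contra h
    push Not at h
    nlinarith
  -- the degrees
  have hq : ∀ v, (n : ℝ) + 2 ≤ Y / ℓ v := by
    intro v
    rw [le_div_iff₀ (hell v)]
    have h1 := hell' v
    nlinarith [hell v]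
  have hDf : ∀ v, Y / ℓ v - 1 < (⌊Y / ℓ v⌋₊ : ℝ) := by
    intro v
    have := Nat.lt_floor_add_one (Y / ℓ v)
    linarith
  have hdn : ∀ v, (d v : ℝ) ≤ n := fun v => by exact_mod_cast hdn' v
  have hdD : ∀ v, d v + 1 ≤ ⌊Y / ℓ v⌋₊ + 1 := by
    intro v
    have h1 : ((n + 1 : ℕ) : ℝ) < ((⌊Y / ℓ v⌋₊ + 1 : ℕ) : ℝ) := by
      push_cast
      linarith [hq v, hDf v]
    have h2 : n + 1 < ⌊Y / ℓ v⌋₊ + 1 := by exact_mod_cast h1
    have h3 := hdn' v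
    omega
  obtain ⟨NN, hNN⟩ : ∃ NN : Fin m → ℕ, ∀ v, NN v = ⌊Y / ℓ v⌋₊ + 1 - d v := ⟨_, fun _ => rfl⟩
  have hNf1 : ∀ v, 1 ≤ NN v := by
    intro v
    have := hdD v
    rw [hNN]
    omega
  refine ⟨fun v => by rw [← hNN]; exact hNf1 v, ?_⟩
  have hNf : ∀ v, Y / ℓ v * (1 - n * δ) ≤ (NN v : ℝ) := by
    intro v
    have h1 : (NN v : ℝ) = (⌊Y / ℓ v⌋₊ : ℝ) + 1 - d v := by
      have h2 := hdD v
      rw [hNN, Nat.cast_sub (by omega)]
      push_cast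
      ring
    have h3 : (n : ℝ) ≤ Y / ℓ v * (n * δ) := by
      have h4 : 1 ≤ Y / ℓ v * δ := by
        rw [div_mul_eq_mul_div, le_div_iff₀ (hell v)]
        linarith [hell' v]
      nlinarith
    rw [h1]
    have h5 := hDf v
    have h6 := hdn v
    linarith
  have h1nd : 0 ≤ 1 - (n : ℝ) * δ := by nlinarith
  obtain ⟨L, hL⟩ : ∃ L : ℝ, L = ∏ v, ℓ v := ⟨_, rfl⟩
  have hL0 : 0 < L := by
    rw [hL]
    exact Finset.prod_pos fun v _ => hell v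
  have hprodN : Y ^ m * (1 - n * δ) ^ m ≤ (∏ v, (NN v : ℝ)) * L := by
    have h1 : ∏ v : Fin m, (Y / ℓ v * (1 - n * δ)) ≤ ∏ v, (NN v : ℝ) :=
      Finset.prod_le_prod (fun v _ => mul_nonneg (div_nonneg hY0.le (hell v).le) h1nd) fun v _ => hNf v
    have h2 : ∏ v : Fin m, (Y / ℓ v * (1 - n * δ)) = Y ^ m * (1 - n * δ) ^ m / L := by
      rw [Finset.prod_mul_distrib, Finset.prod_div_distrib, Finset.prod_const, Finset.prod_const,
        Finset.card_univ, Fintype.card_fin, ← hL]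
      ring
    rw [h2, div_le_iff₀ hL0] at h1
    exact h1
  have hcells := cells_card m w hw ((m + δ) * Y) (by positivity)
  rw [hprod, ← hL] at hcells
  obtain ⟨CC, hCC⟩ : ∃ CC : ℝ, CC = ((cells w ((m + δ) * Y)).card : ℝ) := ⟨_, rfl⟩
  rw [← hCC] at hcells
  have hcells2 : CC * ((m.factorial : ℝ) * (lam * L)) ≤ Y ^ m * ((m : ℝ) + δ + m * δ) ^ m := by
    refine hcells.trans ?_
    rw [← mul_pow]
    apply pow_le_pow_left₀
    · have : 0 ≤ ∑ v, w v := Finset.sum_nonneg fun v _ => (hw v).le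
      positivity
    · have h1 : ∑ v, w v ≤ m * (δ * Y) := by
        calc ∑ v, w v ≤ ∑ _v : Fin m, δ * Y :=
              Finset.sum_le_sum fun v _ => (hwl v).trans (hell' v)
          _ = m * (δ * Y) := by rw [Finset.sum_const, Finset.card_univ, Fintype.card_fin, nsmul_eq_mul]
      linarith
  have hC0 : 0 ≤ CC := by rw [hCC]; exact Nat.cast_nonneg _
  have hfac : (0 : ℝ) < m.factorial := by exact_mod_cast m.factorial_pos
  have hdd : 0 ≤ ∏ v, (d v : ℝ) := Finset.prod_nonneg fun v _ => Nat.cast_nonneg _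
  -- the main inequality
  have hmain : (1 + δ) * (c * CC) ≤ (∏ v, (NN v : ℝ)) * ∏ v, (d v : ℝ) := by
    have hpos : 0 < (1 + γ) * (m : ℝ) ^ m * (m.factorial : ℝ) * (lam * L) := by positivity
    refine le_of_mul_le_mul_left ?_ hpos
    calc (1 + γ) * (m : ℝ) ^ m * (m.factorial : ℝ) * (lam * L) * ((1 + δ) * (c * CC))
        = ((1 + γ) * ((m : ℝ) ^ m * c)) * ((1 + δ) * (CC * ((m.factorial : ℝ) * (lam * L)))) := by ring
      _ ≤ ((m.factorial : ℝ) * (lam * ∏ v, (d v : ℝ))) * ((1 + δ) * (Y ^ m * ((m : ℝ) + δ + m * δ) ^ m)) := by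
          gcongr
      _ = ((m.factorial : ℝ) * (lam * ∏ v, (d v : ℝ))) * Y ^ m * ((1 + δ) * ((m : ℝ) + δ + m * δ) ^ m) := by ring
      _ ≤ ((m.factorial : ℝ) * (lam * ∏ v, (d v : ℝ))) * Y ^ m *
            ((1 + γ) * ((1 - n * δ) ^ m * (m : ℝ) ^ m)) := by gcongr
      _ = ((m.factorial : ℝ) * (lam * ∏ v, (d v : ℝ))) * (1 + γ) * (m : ℝ) ^ m *
            (Y ^ m * (1 - n * δ) ^ m) := by ring
      _ ≤ ((m.factorial : ℝ) * (lam * ∏ v, (d v : ℝ))) * (1 + γ) * (m : ℝ) ^ m *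
            ((∏ v, (NN v : ℝ)) * L) := by gcongr
      _ = _ := by ring
  have hcc0 : 0 ≤ (c : ℝ) * CC := by positivity
  have hfin : ((r + 1 : ℕ) : ℝ) * (c * CC) ≤ (r : ℝ) * ((∏ v, (NN v : ℝ)) * ∏ v, (d v : ℝ)) := by
    push_cast
    calc ((r : ℝ) + 1) * (c * CC) ≤ ((r : ℝ) + r * δ) * (c * CC) := by gcongr
      _ = r * ((1 + δ) * (c * CC)) := by ring
      _ ≤ _ := by gcongr
  rw [← Finset.prod_mul_distrib, hCC] at hfin
  have hfin' : (((r + 1) * (c * (cells w ((m + δ) * Y)).card) : ℕ) : ℝ) ≤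
      ((r * ∏ v, (NN v * d v) : ℕ) : ℝ) := by
    push_cast
    push_cast at hfin
    exact hfin
  have hfin'' : (r + 1) * (c * (cells w ((m + δ) * Y)).card) ≤ r * ∏ v, (NN v * d v) := by
    exact_mod_cast hfin'
  simpa only [hNN] using hfin''

theorem count_z (m n r : ℕ) (hr : 1 ≤ r) (lam : ℝ) (hlam : 0 < lam) (hlam1 : lam ≤ 1) (γ : ℝ)
    (hγ : 0 < γ) :
    ∃ (η K0 : ℝ) (r' : ℕ), 0 < η ∧ η ≤ 1 ∧ 1 ≤ K0 ∧ 1 ≤ r' ∧
      ∀ (P : Fin m → Ptd n) (c : ℕ) (L : ℝ),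
      (1 + γ) * (((m : ℝ) + 1) ^ (m + 1) * c) ≤
        ((m + 1).factorial : ℝ) * (r * lam * ∏ v, ((P v).d : ℝ)) →
      0 < L → (∀ v, 0 < (P v).ell) → ∀ Y : ℝ, K0 * L ≤ Y → (∀ v, K0 * (P v).ell ≤ Y) →
      (∀ v, 1 ≤ Nf P Y v) ∧ r ≤ ⌊Y / L⌋₊ ∧
      (r' + 1) * (c * (cells (Fin.snoc (fun v => (P v).ell) (lam * L) : Fin (m + 1) → ℝ)
        ((m + 1 + η) * Y)).card) ≤
        r' * ((⌊Y / L⌋₊ + 1 - r) * r * ∏ v, (Nf P Y v * (P v).d)) := by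
  obtain ⟨η, K0, r', h1, h2, h3, h4, h5⟩ :=
    count_abs (m + 1) (max n r) (Nat.le_add_left 1 m) γ hγ
  refine ⟨η, K0, r', h1, h2, h3, h4, ?_⟩
  intro P c L hc hL hell Y hYL hY
  obtain ⟨h6, h7⟩ := h5 (Fin.snoc (fun v => (P v).ell) L : Fin (m + 1) → ℝ)
    (Fin.snoc (fun v => (P v).ell) (lam * L) : Fin (m + 1) → ℝ) lam
    (Fin.snoc (fun v => (P v).d) r : Fin (m + 1) → ℕ) c
    (fun v => by
      refine Fin.lastCases ?_ (fun i => ?_) v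
      · rw [Fin.snoc_last]
        exact hr
      · rw [Fin.snoc_castSucc]
        exact (P i).C.d1)
    (fun v => by
      refine Fin.lastCases ?_ (fun i => ?_) v
      · rw [Fin.snoc_last]
        exact le_max_right _ _
      · rw [Fin.snoc_castSucc]
        exact (P i).C.dn.trans (le_max_left _ _))
    hlam
    (fun v => by
      refine Fin.lastCases ?_ (fun i => ?_) v
      · rw [Fin.snoc_last]
        exact mul_pos hlam hL
      · rw [Fin.snoc_castSucc]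
        exact hell i)
    (fun v => by
      refine Fin.lastCases ?_ (fun i => ?_) v
      · rw [Fin.snoc_last, Fin.snoc_last]
        nlinarith
      · rw [Fin.snoc_castSucc, Fin.snoc_castSucc])
    (by
      rw [Fin.prod_univ_castSucc, Fin.prod_univ_castSucc]
      simp only [Fin.snoc_castSucc, Fin.snoc_last]
      ring)
    (by
      rw [Fin.prod_univ_castSucc]
      simp only [Fin.snoc_castSucc, Fin.snoc_last]
      push_cast
      refine hc.trans (le_of_eq ?_)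
      ring)
    Y
    (fun v => by
      refine Fin.lastCases ?_ (fun i => ?_) v
      · rw [Fin.snoc_last]
        exact hYL
      · rw [Fin.snoc_castSucc]
        exact hY i)
  refine ⟨fun v => ?_, ?_, ?_⟩
  · have h8 := h6 (Fin.castSucc v)
    rw [Fin.snoc_castSucc, Fin.snoc_castSucc] at h8
    exact h8
  · have h8 := h6 (Fin.last m)
    rw [Fin.snoc_last, Fin.snoc_last] at h8
    omega
  · rw [Fin.prod_univ_castSucc] at h7
    simp only [Fin.snoc_castSucc, Fin.snoc_last] at h7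
    push_cast at h7
    refine h7.trans (le_of_eq ?_)
    rw [mul_comm (∏ v : Fin m, _)]
    rfl

end Pool.Agent.H8.RZ
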