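import Pool.Agent.H8.RZ.Defs
import Pool.Agent.H97.NW.LOC

/-! # [H8 RZ LCC] Cauchy's estimate for the local coefficients, complex arrays

`loc_mc`: copy the proof of `loc_m` (`Pool/Agent/H97/NW/LOC.lean`, landed; it uses the public `loc_c` one variable at a time, keep using it) with `f μ : ℂ` in place of `(A μ : ℂ)`;
`LmC P N f K = ∑ f μ * (∏ coeff (K v) (psi ..) : ℤ)` in place of the cast of `Lm`. -/

namespace Pool.Agent.H8.RZ

open Finset Polynomial Pool.Agent.H72.ES Pool.Agent.H87.SA2 Pool.Agent.H8.AW Pool.Agent.H52.AC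
  Pool.Agent.H97.NW

variable {m n : ℕ}

private theorem lcc_fib {α β : Type*} [Fintype α] [DecidableEq β] (key : α → β) (a : α → ℂ)
    (f : β → ℂ) : ∑ t ∈ Finset.univ.image key, (∑ μ, if key μ = t then a μ else 0) * f t =
      ∑ μ, a μ * f (key μ) := by
  simp_rw [Finset.sum_mul, ite_mul, zero_mul]
  rw [Finset.sum_comm]
  refine Finset.sum_congr rfl fun μ _ => ?_
  rw [Finset.sum_ite_eq, if_pos (Finset.mem_image_of_mem key (Finset.mem_univ μ))]

/-- the mixed expression: local coefficients at the places of `s`, values elsewhere -/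
private noncomputable def lcc_E (P : Fin m → Ptd n) (N : Fin m → ℕ) (A : Mo P N → ℂ)
    (K : Fin m → ℕ) (s : Finset (Fin m)) (T ξ : Fin m → ℂ) : ℂ :=
  ∑ μ : Mo P N, A μ * ∏ v, if v ∈ s then
    ((PowerSeries.coeff (K v) ((P v).psi ((μ v).1, (μ v).2)) : ℤ) : ℂ) else
    (ξ v ^ ((μ v).1 : ℕ) * (ξ v * evz (T v) ((P v).C.pd.x (P v).i)) ^ ((μ v).2 : ℕ))

private theorem lcc_step (hn : 4 ≤ n) (P : Fin m → Ptd n) (hP : ∀ v, (P v).Thr (cA n))
    (N : Fin m → ℕ) (A : Mo P N → ℂ) {M : ℝ} (ρ : Fin m → ℝ) (hρ : ∀ v, 0 < ρ v)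
    (hρx : ∀ v, |((P v).kap : ℝ)| * ρ v ≤ |((P v).x : ℝ)| / 2) (K : Fin m → ℕ)
    (s : Finset (Fin m)) (w : Fin m) (hw : w ∉ s)
    (ih : ∀ T ξ : Fin m → ℂ,
      (∀ v, v ∉ s → ((((P v).C.pd.q : ℕ) : ℂ) * T v) ^ (P v).C.pd.e * ξ v = 1) →
      (∀ v, v ∉ s → ‖ξ v - (P v).x‖ ≤ |((P v).x : ℝ)| / 2) →
      ‖lcc_E P N A K s T ξ‖ * ∏ v ∈ s, ρ v ^ K v ≤ M) (T ξ : Fin m → ℂ)
    (h1 : ∀ v, v ∉ insert w s → ((((P v).C.pd.q : ℕ) : ℂ) * T v) ^ (P v).C.pd.e * ξ v = 1)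
    (h2 : ∀ v, v ∉ insert w s → ‖ξ v - (P v).x‖ ≤ |((P v).x : ℝ)| / 2) :
    ‖lcc_E P N A K (insert w s) T ξ‖ * ∏ v ∈ insert w s, ρ v ^ K v ≤ M := by
  classical
  let key : Mo P N → ℕ × ℕ := fun μ => (((μ w).1 : ℕ), ((μ w).2 : ℕ))
  let a : Mo P N → ℂ := fun μ => A μ * ∏ v ∈ Finset.univ.erase w, if v ∈ s then
    ((PowerSeries.coeff (K v) ((P v).psi ((μ v).1, (μ v).2)) : ℤ) : ℂ) else
    (ξ v ^ ((μ v).1 : ℕ) * (ξ v * evz (T v) ((P v).C.pd.x (P v).i)) ^ ((μ v).2 : ℕ))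
  have hpos : 0 < ∏ v ∈ s, ρ v ^ K v := Finset.prod_pos fun v _ => pow_pos (hρ v) _
  have hA : lcc_E P N A K (insert w s) T ξ = ∑ μ, a μ *
      ((PowerSeries.coeff (K w) ((P w).psi (key μ)) : ℤ) : ℂ) := by
    unfold lcc_E
    refine Finset.sum_congr rfl fun μ _ => ?_
    rw [← Finset.mul_prod_erase Finset.univ _ (Finset.mem_univ w),
      if_pos (Finset.mem_insert_self w s)]
    simp only [a, key]
    rw [mul_comm ((PowerSeries.coeff (K w) _ : ℤ) : ℂ), ← mul_assoc]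
    congr 2
    refine Finset.prod_congr rfl fun v hv => ?_
    have hvw : v ≠ w := Finset.ne_of_mem_erase hv
    simp only [Finset.mem_insert, hvw, false_or]
  have hB : ∀ T' ξ' : ℂ, lcc_E P N A K s (Function.update T w T') (Function.update ξ w ξ') =
      ∑ μ, a μ * (ξ' ^ (key μ).1 * (ξ' * evz T' ((P w).C.pd.x (P w).i)) ^ (key μ).2) := by
    intro T' ξ'
    unfold lcc_E
    refine Finset.sum_congr rfl fun μ _ => ?_
    rw [← Finset.mul_prod_erase Finset.univ _ (Finset.mem_univ w), if_neg hw]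
    simp only [a, key, Function.update_self]
    rw [mul_comm (ξ' ^ _ * _), ← mul_assoc]
    congr 2
    refine Finset.prod_congr rfl fun v hv => ?_
    have hvw : v ≠ w := Finset.ne_of_mem_erase hv
    rw [Function.update_of_ne hvw, Function.update_of_ne hvw]
  rw [hA, Finset.prod_insert hw]
  rw [← lcc_fib key a (fun t => ((PowerSeries.coeff (K w) ((P w).psi t) : ℤ) : ℂ))]
  have h3 := loc_c hn (P w) (hP w) (Finset.univ.image key)
    (fun t => ∑ μ, if key μ = t then a μ else 0) (M := M / ∏ v ∈ s, ρ v ^ K v) (hρ w) (hρx w)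
    (fun T' ξ' hT' hξ' => by
      rw [lcc_fib key a (fun t => ξ' ^ t.1 * (ξ' * evz T' ((P w).C.pd.x (P w).i)) ^ t.2), ← hB,
        le_div_iff₀ hpos]
      refine ih _ _ (fun v hv => ?_) (fun v hv => ?_)
      · rcases eq_or_ne v w with rfl | hvw
        · rw [Function.update_self, Function.update_self]
          exact hT'
        · rw [Function.update_of_ne hvw, Function.update_of_ne hvw]
          exact h1 v (by simp [hvw, hv])
      · rcases eq_or_ne v w with rfl | hvw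
        · rw [Function.update_self]
          exact hξ'
        · rw [Function.update_of_ne hvw]
          exact h2 v (by simp [hvw, hv])) (K w)
  rw [le_div_iff₀ hpos, mul_assoc] at h3
  exact h3

theorem loc_mc (hn : 4 ≤ n) (P : Fin m → Ptd n) (hP : ∀ v, (P v).Thr (cA n)) (N : Fin m → ℕ)
    (f : Mo P N → ℂ) {M : ℝ} (ρ : Fin m → ℝ) (hρ : ∀ v, 0 < ρ v)
    (hρx : ∀ v, |((P v).kap : ℝ)| * ρ v ≤ |((P v).x : ℝ)| / 2)
    (hM : ∀ T ξ : Fin m → ℂ, Nearby P T ξ → ‖VmC P N f T ξ‖ ≤ M) (K : Fin m → ℕ) :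
    ‖LmC P N f K‖ * ∏ v, ρ v ^ K v ≤ M := by
  classical
  have key : ∀ s : Finset (Fin m), ∀ T ξ : Fin m → ℂ,
      (∀ v, v ∉ s → ((((P v).C.pd.q : ℕ) : ℂ) * T v) ^ (P v).C.pd.e * ξ v = 1) →
      (∀ v, v ∉ s → ‖ξ v - (P v).x‖ ≤ |((P v).x : ℝ)| / 2) →
      ‖lcc_E P N f K s T ξ‖ * ∏ v ∈ s, ρ v ^ K v ≤ M := by
    intro s
    induction s using Finset.induction_on with
    | empty =>
      intro T ξ h1 h2
      rw [Finset.prod_empty, mul_one]
      have h3 := hM T ξ ⟨fun v => h1 v (Finset.notMem_empty v), fun v => h2 v (Finset.notMem_empty v)⟩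
      simpa only [VmC, lcc_E, Finset.notMem_empty, if_false] using h3
    | insert w s hw ih =>
      intro T ξ h1 h2
      exact lcc_step hn P hP N f ρ hρ hρx K s w hw ih T ξ h1 h2
  have h1 := key Finset.univ 0 0 (fun v hv => absurd (Finset.mem_univ v) hv)
    (fun v hv => absurd (Finset.mem_univ v) hv)
  have h2 : lcc_E P N f K Finset.univ 0 0 = LmC P N f K := by
    unfold lcc_E LmC
    push_cast
    refine Finset.sum_congr rfl fun μ _ => ?_
    congr 1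
    refine Finset.prod_congr rfl fun v _ => ?_
    rw [if_pos (Finset.mem_univ v)]
  rw [h2] at h1
  exact h1

end Pool.Agent.H8.RZ
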