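import Pool.Agent.H8.RZ.TLC
import Pool.Agent.H8.RZ.VLC
import Pool.Agent.H97.NW.PTF

/-! # [H8 RZ SMC] The function is small near the integer points, complex arrays

Adapt `small_m` (`Pool/Agent/H97/NW/ZER.lean`, landed; copy its private lemmas, `zer_one` etc.). Let `δ' = min (1/4) (ε / (8 W))`. The facts about `T, ξ` as in `small_m` (`c` large depending on `δ', n`).
By `val_c` (`N v + d ≤ D v + 1` for `Nf, Df` since `1 ≤ Nf`) and `tail_c` (with `ℓ = ell`, `δ = δ'`): `‖VmC‖ ≤ ∏ |ξ_v|^(D_v) * card * Z * ∏ (2qR)^n * 4^m * exp(-(1-2δ') TT)`,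
`exp(-(1-2δ')TT) ≤ exp(-TT + 2 δ' W Y) ≤ exp(-TT + ε/4 Y)`, `∏ |ξ_v|^(D_v) ≤ exp(m Y + ∑ Y/ell_v)` and the other factors are `exp((C(m,n)/c) Y)` exactly as in `small_m`; `0 ≤ Z` (there is a `μ`). -/

namespace Pool.Agent.H8.RZ

open Finset Polynomial Pool.Agent.H72.ES Pool.Agent.H87.SA2 Pool.Agent.H8.AW Pool.Agent.H52.AC
  Pool.Agent.H97.NW

private theorem smc_one {n : ℕ} (hn : 4 ≤ n) (P : Ptd n) {c : ℕ} (hc : cA n ≤ c) (h : P.Thr c)
    {δ : ℝ} (hδ : 0 < δ) (hδ2 : δ ≤ 1 / 2) (hc1 : 2 * (n.factorial : ℝ) + 1 ≤ δ * c) (T ξ : ℂ)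
    (hT : (((P.C.pd.q : ℕ) : ℂ) * T) ^ P.C.pd.e * ξ = 1)
    (hξ : ‖ξ - (P.x : ℂ)‖ ≤ |(P.x : ℝ)| / 2) :
    2 * P.C.pd.q * P.C.pd.R * ‖T‖ ≤ 1 / 2 ∧
      (2 * P.C.pd.q * P.C.pd.R * ‖T‖) ^ P.C.pd.e ≤ Real.exp (-(1 - δ) * P.ell) ∧
      Real.exp (-δ * P.ell) ≤ 1 / 2 ∧ P.C.pd.R * ‖T‖ < 1 ∧ ‖ξ‖ ≤ Real.exp (P.ell + 1) := by
  have hfa := P.facts hn (P.thr_mono hc h)
  have hx0 : P.x ≠ 0 := hfa.2.2.2.2.1
  obtain ⟨hg1, hg2⟩ := P.ell_ge h
  have hX0 : (0 : ℝ) < |(P.x : ℝ)| := by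
    rw [abs_pos]
    exact_mod_cast hx0
  have hexp : Real.exp P.ell = |(P.x : ℝ)| := Real.exp_log hX0
  set X : ℝ := |(P.x : ℝ)| with hX
  have hxn : ‖(P.x : ℂ)‖ = X := by
    rw [Complex.norm_intCast]
  have hb2 : (2 : ℝ) ≤ P.b := by exact_mod_cast P.C.b2
  have hq1 : (1 : ℝ) ≤ P.C.pd.q := by exact_mod_cast P.C.pd.q_pos
  have hR2 : 2 ≤ P.C.pd.R := P.C.pd.R_ge
  have hRb : P.C.pd.R ≤ P.b := P.C.R_le
  have hef : P.C.pd.e ≤ n.factorial := P.C.e_le.trans (Nat.factorial_le P.C.dn)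
  have hfac : (P.C.pd.e : ℝ) ≤ (n.factorial : ℝ) := by exact_mod_cast hef
  have hl2 : 0 < Real.log 2 := Real.log_pos (by norm_num)
  have hlb : 0 < Real.log P.b := Real.log_pos (by linarith)
  have hfac0 : (0 : ℝ) ≤ (n.factorial : ℝ) := Nat.cast_nonneg _
  have hc0 : (0 : ℝ) < c := by
    by_contra hcon
    push Not at hcon
    nlinarith
  have hell0 : 0 < P.ell := lt_of_lt_of_le (by positivity) hg2
  -- the size of `ξ`
  have hξ1 : X / 2 ≤ ‖ξ‖ := by
    have h1 := norm_sub_norm_le (P.x : ℂ) ξ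
    rw [hxn, norm_sub_rev] at h1
    linarith
  have hξ2 : ‖ξ‖ ≤ Real.exp (P.ell + 1) := by
    have h1 := norm_sub_norm_le ξ (P.x : ℂ)
    rw [hxn] at h1
    rw [Real.exp_add, hexp]
    have h2 := Real.add_one_le_exp (1 : ℝ)
    nlinarith
  -- the size of `T`
  have hnT : ((P.C.pd.q : ℝ) * ‖T‖) ^ P.C.pd.e * ‖ξ‖ = 1 := by
    have h1 := congrArg norm hT
    rw [norm_mul, norm_pow, norm_mul, Complex.norm_natCast, norm_one] at h1
    exact h1
  set τ : ℝ := (P.C.pd.q : ℝ) * ‖T‖ with hτ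
  have hτ0 : 0 ≤ τ := by positivity
  have hτe : τ ^ P.C.pd.e ≤ 2 * Real.exp (-P.ell) := by
    rw [Real.exp_neg, hexp]
    have h1 : τ ^ P.C.pd.e * (X / 2) ≤ 1 := by
      rw [← hnT]
      exact mul_le_mul_of_nonneg_left hξ1 (by positivity)
    rw [← div_eq_mul_inv, le_div_iff₀ hX0]
    linarith
  have hs : 2 * P.C.pd.q * P.C.pd.R * ‖T‖ = (2 * P.C.pd.R) * τ := by rw [hτ]; ring
  have hpow : 2 * (2 * P.C.pd.R) ^ P.C.pd.e ≤ Real.exp (δ * P.ell) := by
    have h1 : (2 * P.C.pd.R) ^ P.C.pd.e ≤ (P.b : ℝ) ^ (2 * n.factorial) := by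
      calc (2 * P.C.pd.R) ^ P.C.pd.e ≤ ((P.b : ℝ) ^ 2) ^ P.C.pd.e := by
            apply pow_le_pow_left₀ (by linarith)
            nlinarith
        _ = (P.b : ℝ) ^ (2 * P.C.pd.e) := by rw [← pow_mul]
        _ ≤ (P.b : ℝ) ^ (2 * n.factorial) := pow_le_pow_right₀ (by linarith) (by omega)
    have h2 : 2 * (2 * P.C.pd.R) ^ P.C.pd.e ≤ (P.b : ℝ) ^ (2 * n.factorial + 1) := by
      rw [pow_succ, mul_comm]
      exact mul_le_mul h1 hb2 (by norm_num) (by positivity)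
    refine h2.trans ?_
    have h3 : (P.b : ℝ) ^ (2 * n.factorial + 1) =
        Real.exp (((2 * n.factorial + 1 : ℕ) : ℝ) * Real.log P.b) := by
      rw [Real.exp_nat_mul, Real.exp_log (by linarith)]
    rw [h3]
    apply Real.exp_le_exp.mpr
    push_cast
    calc (2 * (n.factorial : ℝ) + 1) * Real.log P.b ≤ (δ * c) * Real.log P.b :=
          mul_le_mul_of_nonneg_right hc1 hlb.le
      _ = δ * (c * Real.log P.b) := by ring
      _ ≤ δ * P.ell := mul_le_mul_of_nonneg_left hg1 hδ.le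
  have hse : ((2 * P.C.pd.R) * τ) ^ P.C.pd.e ≤ Real.exp (-(1 - δ) * P.ell) := by
    rw [mul_pow]
    calc (2 * P.C.pd.R) ^ P.C.pd.e * τ ^ P.C.pd.e
        ≤ (2 * P.C.pd.R) ^ P.C.pd.e * (2 * Real.exp (-P.ell)) :=
          mul_le_mul_of_nonneg_left hτe (pow_nonneg (by linarith) _)
      _ = (2 * (2 * P.C.pd.R) ^ P.C.pd.e) * Real.exp (-P.ell) := by ring
      _ ≤ Real.exp (δ * P.ell) * Real.exp (-P.ell) :=
          mul_le_mul_of_nonneg_right hpow (Real.exp_pos _).le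
      _ = Real.exp (-(1 - δ) * P.ell) := by
          rw [← Real.exp_add]
          congr 1
          ring
  have hs2 : (2 * P.C.pd.R) * τ ≤ 1 / 2 := by
    by_contra hcon
    push Not at hcon
    have h1 : (1 / 2 : ℝ) ^ P.C.pd.e < ((2 * P.C.pd.R) * τ) ^ P.C.pd.e :=
      pow_lt_pow_left₀ hcon (by norm_num) (by have := P.C.pd.e_pos; omega)
    have h2 : (1 / 2 : ℝ) ^ P.C.pd.e = Real.exp (-((P.C.pd.e : ℝ) * Real.log 2)) := by
      rw [Real.exp_neg, Real.exp_nat_mul, Real.exp_log (by norm_num), one_div, inv_pow]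
    rw [h2] at h1
    have h3 := Real.exp_lt_exp.mp (h1.trans_le hse)
    have h4 : (P.C.pd.e : ℝ) * 2 ≤ c := by nlinarith
    have h5 : (P.C.pd.e : ℝ) * 2 * Real.log 2 ≤ P.ell :=
      (mul_le_mul_of_nonneg_right h4 hl2.le).trans hg2
    have h6 : δ * P.ell ≤ 1 / 2 * P.ell := mul_le_mul_of_nonneg_right hδ2 hell0.le
    linarith
  refine ⟨hs ▸ hs2, hs ▸ hse, ?_, ?_, hξ2⟩
  · have h1 : Real.log 2 ≤ δ * P.ell := by
      calc Real.log 2 = 1 * Real.log 2 := (one_mul _).symm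
        _ ≤ (δ * c) * Real.log 2 := mul_le_mul_of_nonneg_right (by linarith) hl2.le
        _ = δ * (c * Real.log 2) := by ring
        _ ≤ δ * P.ell := mul_le_mul_of_nonneg_left hg2 hδ.le
    calc Real.exp (-δ * P.ell) ≤ Real.exp (-Real.log 2) := Real.exp_le_exp.mpr (by linarith)
      _ = 1 / 2 := by rw [Real.exp_neg, Real.exp_log (by norm_num)]; norm_num
  · have h1 : ‖T‖ ≤ τ := by
      rw [hτ]
      exact le_mul_of_one_le_left (norm_nonneg _) hq1
    have h2 : P.C.pd.R * ‖T‖ ≤ P.C.pd.R * τ := mul_le_mul_of_nonneg_left h1 (by linarith)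
    linarith


theorem small_c (m n : ℕ) (hm : 1 ≤ m) (hn : 4 ≤ n) (ε W : ℝ) (hε : 0 < ε) (hW : 1 ≤ W) :
    ∃ c : ℕ, cA n ≤ c ∧ ∀ (P : Fin m → Ptd n), (∀ v, (P v).Thr c) → ∀ Y : ℝ,
      (∀ v, (P v).ell ≤ Y) → (∀ v, 1 ≤ Nf P Y v) → ∀ (f : Mo P (Nf P Y) → ℂ) (Z TT : ℝ),
      0 ≤ TT → TT ≤ W * Y → (∀ μ, ‖f μ‖ ≤ Z) →
      (∀ k : Fin m → ℕ, ∑ v, (P v).ell * ((k v / (P v).C.pd.e : ℕ) : ℝ) < TT →
        BmC P (Df P Y) (Nf P Y) f (fun v => (P v).i) k = 0) →
      ∀ T ξ : Fin m → ℂ, Nearby P T ξ →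
      ‖VmC P (Nf P Y) f T ξ‖ ≤ Z * Real.exp (m * Y - TT + ε * Y) := by
  have hm1 : (1 : ℝ) ≤ m := by exact_mod_cast hm
  have hn1 : (4 : ℝ) ≤ n := by exact_mod_cast hn
  set δ : ℝ := min (1 / 4) (ε / (8 * W)) with hδ
  have hδ0 : 0 < δ := lt_min (by norm_num) (by positivity)
  have hδW : δ * W ≤ ε / 8 := by
    have h1 : δ ≤ ε / (8 * W) := min_le_right _ _
    have h2 := mul_le_mul_of_nonneg_right h1 (by linarith : (0 : ℝ) ≤ W)
    have h3 : ε / (8 * W) * W = ε / 8 := by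
      field_simp
    rwa [h3] at h2
  have hδ16 : δ ≤ 1 / 4 := min_le_left _ _
  refine ⟨max (cA n) (max ⌈(2 * (n.factorial : ℝ) + 1) / δ⌉₊ ⌈4 * (8 * (m : ℝ) + 5 * m * n) / ε⌉₊),
    le_max_left _ _, ?_⟩
  set c : ℕ := max (cA n) (max ⌈(2 * (n.factorial : ℝ) + 1) / δ⌉₊ ⌈4 * (8 * (m : ℝ) + 5 * m * n) / ε⌉₊)
    with hcdef
  have hcA : cA n ≤ c := le_max_left _ _
  have hc1 : 2 * (n.factorial : ℝ) + 1 ≤ δ * c := by
    have h1 : ⌈(2 * (n.factorial : ℝ) + 1) / δ⌉₊ ≤ c := (le_max_left _ _).trans (le_max_right _ _)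
    have h2 : (2 * (n.factorial : ℝ) + 1) / δ ≤ c := (Nat.le_ceil _).trans (by exact_mod_cast h1)
    rw [div_le_iff₀ hδ0] at h2
    linarith
  have hc2 : 4 * (8 * (m : ℝ) + 5 * m * n) ≤ ε * c := by
    have h1 : ⌈4 * (8 * (m : ℝ) + 5 * m * n) / ε⌉₊ ≤ c := (le_max_right _ _).trans (le_max_right _ _)
    have h2 : 4 * (8 * (m : ℝ) + 5 * m * n) / ε ≤ c := (Nat.le_ceil _).trans (by exact_mod_cast h1)
    rw [div_le_iff₀ hε] at h2
    linarith
  have hfac0 : (0 : ℝ) ≤ (n.factorial : ℝ) := Nat.cast_nonneg _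
  have hc0 : (0 : ℝ) < c := by
    by_contra hcon
    push Not at hcon
    nlinarith
  intro P hP Y hY hN f Z TT hTT0 hTTW hf hvan T ξ hnear
  obtain ⟨hT, hξ⟩ := hnear
  have hone := fun v => smc_one hn (P v) hcA (hP v) hδ0 (by linarith) hc1 (T v) (ξ v) (hT v) (hξ v)
  have hell := fun v => (P v).ell_ge (hP v)
  have hl2 : 0 < Real.log 2 := Real.log_pos (by norm_num)
  have hell0 : ∀ v, 0 < (P v).ell := fun v => lt_of_lt_of_le (by positivity) (hell v).2
  have hY0 : 0 < Y := by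
    have v0 : Fin m := ⟨0, by omega⟩
    exact (hell0 v0).trans_le (hY v0)
  have hDN : ∀ v, Nf P Y v + (P v).d ≤ Df P Y v + 1 := by
    intro v
    have h1 := hN v
    unfold Nf at h1 ⊢
    omega
  have hZ0 : 0 ≤ Z := by
    have μ0 : Mo P (Nf P Y) := fun v => (⟨0, by have := hN v; omega⟩, ⟨0, by have := (P v).C.d1; omega⟩)
    exact (norm_nonneg _).trans (hf μ0)
  rw [val_c P (Df P Y) (Nf P Y) hDN f T ξ hT (fun v => (hone v).2.2.2.1), norm_mul]
  have htail := tail_c P (Df P Y) (Nf P Y) f (fun v => (P v).ell) hell0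
    (TT := TT) (Z := Z) (δ := δ) hTT0 hδ0 (by linarith)
    hvan hf T (fun v => (hone v).1) (fun v => (hone v).2.1) (fun v => (hone v).2.2.1)
  -- the four factors
  set y : ℝ := Y / (c * Real.log 2) with hy
  have hyell : ∀ v, Y / (P v).ell ≤ y := fun v =>
    div_le_div_of_nonneg_left hY0.le (by positivity) (hell v).2
  have hy1 : 1 ≤ y := by
    have v0 : Fin m := ⟨0, by omega⟩
    rw [hy, le_div_iff₀ (by positivity), one_mul]
    exact (hell v0).2.trans (hY v0)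
  have hy2 : y ≤ 2 * (Y / c) := by
    have h1 := Real.log_two_gt_d9
    rw [hy, div_le_iff₀ (by positivity)]
    have h2 : 2 * (Y / c) * (c * Real.log 2) = 2 * Real.log 2 * Y := by field_simp
    rw [h2]
    nlinarith
  have hD : ∀ v, ((Df P Y v : ℕ) : ℝ) ≤ Y / (P v).ell := fun v =>
    Nat.floor_le (div_nonneg hY0.le (hell0 v).le)
  have hB1 : ‖∏ v, ξ v ^ Df P Y v‖ ≤ Real.exp (m * Y + m * y) := by
    rw [norm_prod]
    calc ∏ v, ‖ξ v ^ Df P Y v‖ ≤ ∏ _v : Fin m, Real.exp (Y + y) := by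
          refine prod_le_prod (fun v _ => norm_nonneg _) fun v _ => ?_
          rw [norm_pow]
          refine (pow_le_pow_left₀ (norm_nonneg _) (hone v).2.2.2.2 _).trans ?_
          rw [← Real.exp_nat_mul]
          apply Real.exp_le_exp.mpr
          have h1 : ((Df P Y v : ℕ) : ℝ) * (P v).ell ≤ Y := by
            have := mul_le_mul_of_nonneg_right (hD v) (hell0 v).le
            rwa [div_mul_cancel₀ _ (hell0 v).ne'] at this
          have h2 := (hD v).trans (hyell v)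
          rw [mul_add, mul_one]
          linarith
      _ = Real.exp (m * Y + m * y) := by
          rw [prod_const, card_univ, Fintype.card_fin, ← Real.exp_nat_mul]
          congr 1
          ring
  have hB2 : ((∏ v, (Nf P Y v * (P v).d) : ℕ) : ℝ) ≤ Real.exp (m * y + m * n) := by
    push_cast
    calc ∏ v, ((Nf P Y v : ℕ) : ℝ) * ((P v).d : ℝ) ≤ ∏ _v : Fin m, Real.exp (y + n) := by
          refine prod_le_prod (fun v _ => by positivity) fun v _ => ?_
          rw [Real.exp_add]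
          apply mul_le_mul _ _ (Nat.cast_nonneg _) (Real.exp_pos _).le
          · have h1 : ((Nf P Y v : ℕ) : ℝ) ≤ ((Df P Y v : ℕ) : ℝ) := by
              have h2 := hDN v
              have h3 := (P v).C.d1
              exact_mod_cast (by omega : Nf P Y v ≤ Df P Y v)
            have h2 := (hD v).trans (hyell v)
            have h3 := Real.add_one_le_exp y
            linarith
          · have h1 : ((P v).d : ℝ) ≤ n := by exact_mod_cast (P v).C.dn
            have h3 := Real.add_one_le_exp (n : ℝ)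
            linarith
      _ = Real.exp (m * y + m * n) := by
          rw [prod_const, card_univ, Fintype.card_fin, ← Real.exp_nat_mul]
          congr 1
          ring
  have hB3 : (∏ v, (2 * (P v).C.pd.q * (P v).C.pd.R) ^ n) ≤ Real.exp (3 * n * m * (Y / c)) := by
    calc (∏ v, (2 * ((P v).C.pd.q : ℝ) * (P v).C.pd.R) ^ n) ≤
          ∏ _v : Fin m, Real.exp (3 * n * (Y / c)) := by
          have hRp : ∀ v, 0 ≤ (P v).C.pd.R := fun v => by linarith [(P v).C.pd.R_ge]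
          refine prod_le_prod (fun v _ => pow_nonneg (mul_nonneg (by positivity) (hRp v)) _)
            fun v _ => ?_
          have hb2 : (2 : ℝ) ≤ (P v).b := by exact_mod_cast (P v).C.b2
          have hqb : ((P v).C.pd.q : ℝ) ≤ (P v).b := by exact_mod_cast (P v).C.q_le
          have hRb : (P v).C.pd.R ≤ (P v).b := (P v).C.R_le
          have h1 : 2 * ((P v).C.pd.q : ℝ) * (P v).C.pd.R ≤ Real.exp (3 * Real.log (P v).b) := by
            have h2 : Real.exp (3 * Real.log (P v).b) = (P v).b * (P v).b * (P v).b := by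
              have h3 : (3 : ℝ) * Real.log (P v).b =
                  Real.log (P v).b + Real.log (P v).b + Real.log (P v).b := by ring
              rw [h3, Real.exp_add, Real.exp_add, Real.exp_log (by linarith)]
            rw [h2]
            exact mul_le_mul (mul_le_mul hb2 hqb (Nat.cast_nonneg _) (by linarith)) hRb (hRp v)
              (by positivity)
          refine (pow_le_pow_left₀ (mul_nonneg (by positivity) (hRp v)) h1 n).trans ?_
          rw [← Real.exp_nat_mul]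
          apply Real.exp_le_exp.mpr
          have h4 : Real.log (P v).b ≤ Y / c := by
            rw [le_div_iff₀ hc0, mul_comm]
            exact (hell v).1.trans (hY v)
          nlinarith
      _ = Real.exp (3 * n * m * (Y / c)) := by
          rw [prod_const, card_univ, Fintype.card_fin, ← Real.exp_nat_mul]
          congr 1
          ring
  have hB4 : (4 : ℝ) ^ m ≤ Real.exp (2 * m) := by
    have h1 : (4 : ℝ) ≤ Real.exp 2 := by
      have h2 := Real.add_one_le_exp (1 : ℝ)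
      have h3 : Real.exp 2 = Real.exp 1 * Real.exp 1 := by rw [← Real.exp_add]; norm_num
      rw [h3]
      nlinarith
    calc (4 : ℝ) ^ m ≤ Real.exp 2 ^ m := pow_le_pow_left₀ (by norm_num) h1 m
      _ = Real.exp (2 * m) := by rw [← Real.exp_nat_mul]; congr 1; ring
  have hQ0 : 0 ≤ ∏ v, (2 * ((P v).C.pd.q : ℝ) * (P v).C.pd.R) ^ n :=
    prod_nonneg fun v _ => pow_nonneg (mul_nonneg (by positivity) (by linarith [(P v).C.pd.R_ge])) _
  have hB5 : ((∏ v, (Nf P Y v * (P v).d) : ℕ) : ℝ) * Z *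
      (∏ v, (2 * ((P v).C.pd.q : ℝ) * (P v).C.pd.R) ^ n) * 4 ^ m *
        Real.exp (-(1 - 2 * δ) * TT) ≤
      Real.exp (m * y + m * n) * Z * Real.exp (3 * n * m * (Y / c)) *
      Real.exp (2 * m) * Real.exp (-(1 - 2 * δ) * TT) := by
    gcongr
  refine (mul_le_mul hB1 (htail.trans hB5) (norm_nonneg _) (Real.exp_pos _).le).trans ?_
  have e00 : ∀ a b c' d e : ℝ, Real.exp a * (Real.exp b * Z * Real.exp c' * Real.exp d * Real.exp e) =
      Z * Real.exp (a + b + c' + d + e) := by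
    intro a b c' d e
    rw [Real.exp_add, Real.exp_add, Real.exp_add, Real.exp_add]
    ring
  have e0 := e00 (m * Y + m * y) (m * y + m * n) (3 * n * m * (Y / c)) (2 * m) (-(1 - 2 * δ) * TT)
  rw [e0]
  refine mul_le_mul_of_nonneg_left (Real.exp_le_exp.mpr ?_) hZ0
  have hw : (8 * (m : ℝ) + 5 * m * n) * (Y / c) ≤ ε / 4 * Y := by
    have h1 : (8 * (m : ℝ) + 5 * m * n) ≤ ε / 4 * c := by linarith
    have h2 := mul_le_mul_of_nonneg_right h1 (div_nonneg hY0.le hc0.le)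
    have h3 : ε / 4 * c * (Y / c) = ε / 4 * Y := by field_simp
    rwa [h3] at h2
  have e1 : 2 * δ * TT ≤ ε / 4 * Y := by
    have h1 : δ * TT ≤ δ * (W * Y) := mul_le_mul_of_nonneg_left hTTW hδ0.le
    have h2 : δ * W * Y ≤ ε / 8 * Y := mul_le_mul_of_nonneg_right hδW hY0.le
    nlinarith
  have h5 : (m : ℝ) * y + m * y + m * n + 2 * m ≤ (4 * m + m * n) * y := by
    have : (0 : ℝ) ≤ (2 * m + m * n) * (y - 1) := mul_nonneg (by positivity) (by linarith)
    nlinarith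
  have h6 : (4 * (m : ℝ) + m * n) * y ≤ (4 * m + m * n) * (2 * (Y / c)) :=
    mul_le_mul_of_nonneg_left hy2 (by positivity)
  have h7 : 0 < ε * Y := mul_pos hε hY0
  nlinarith

end Pool.Agent.H8.RZ
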