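import Pool.Agent.H8.RZ.Defs

/-! # [H8 RZ TAY] From `ζ = ρ` to `ζ = 1` (Mathlib only)

`taylor_z`: compare the coefficients of `c u`, `e = ex u = r s + i`, `w = 1/ρ - 1`: `∑_(l < M) (l.choose k) w^(l-k) (e.choose l) = (e.choose k) (1 + w)^(e-k)` (`e < M = r (J+1)`: the terms
with `l < k` or `l > e` vanish; `Nat.choose_mul`: `e.choose l * l.choose k = e.choose k * (e-k).choose (l-k)`, binomial theorem `add_pow`; if `e < k` both sides are `0`), and
`p^J (ρ^k)⁻¹ (1/ρ)^(e-k) ρ^i = p^J (1/ρ)^(r s) = q^s p^(J-s)` for `k ≤ e` as `ρ^r q = p`, `s ≤ J`.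
`tay_bound`: `M = r (J+1)`. Only `k ≤ l < M` contribute: `‖w‖^(l-k) ≤ 2^M exp(-L (l-k))`, `l.choose k ≤ 2^l ≤ 2^M`,
`L (l-k) + max (TT - l L) 0 ≥ TT - k L`, `(ρ^k)⁻¹ ≤ 2^k ≤ 2^M` if `k < M` (if `k ≥ M` the sum is empty / all binomials vanish), number of terms `M ≤ 2^M`: together `(2^M)^4 = 16^M`. -/

namespace Pool.Agent.H8.RZ

open Finset

theorem tay_choose (e k M : ℕ) (hM : e < M) (w : ℂ) :
    ∑ l ∈ range M, (l.choose k : ℂ) * w ^ (l - k) * (e.choose l : ℂ) =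
      (e.choose k : ℂ) * (1 + w) ^ (e - k) := by
  rcases lt_or_ge e k with hek | hek
  · rw [Nat.choose_eq_zero_of_lt hek, Nat.cast_zero, zero_mul]
    refine Finset.sum_eq_zero fun l _ => ?_
    rcases lt_or_ge l k with hl | hl
    · rw [Nat.choose_eq_zero_of_lt hl, Nat.cast_zero, zero_mul, zero_mul]
    · rw [Nat.choose_eq_zero_of_lt (lt_of_lt_of_le hek hl), Nat.cast_zero, mul_zero]
  · -- restrict to k ≤ l ≤ e
    have h1 : ∑ l ∈ range M, (l.choose k : ℂ) * w ^ (l - k) * (e.choose l : ℂ) =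
        ∑ l ∈ Finset.Ico k (e + 1), (l.choose k : ℂ) * w ^ (l - k) * (e.choose l : ℂ) := by
      symm
      refine Finset.sum_subset ?_ ?_
      · intro l hl
        rw [Finset.mem_Ico] at hl
        rw [Finset.mem_range]
        omega
      · intro l _ hl
        rw [Finset.mem_Ico] at hl
        rcases lt_or_ge l k with h | h
        · rw [Nat.choose_eq_zero_of_lt h, Nat.cast_zero, zero_mul, zero_mul]
        · rw [Nat.choose_eq_zero_of_lt (by omega : e < l), Nat.cast_zero, mul_zero]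
    rw [h1, Finset.sum_Ico_eq_sum_range]
    have h2 : e + 1 - k = (e - k) + 1 := by omega
    rw [h2, add_comm (1 : ℂ) w, add_pow, Finset.mul_sum]
    refine Finset.sum_congr rfl fun t ht => ?_
    rw [Finset.mem_range] at ht
    have h3 := Nat.choose_mul (n := e) (k := k + t) (s := k) (by omega)
    have h4 : k + t - k = t := by omega
    rw [h4] at h3
    rw [h4, one_pow, mul_one]
    have h5 : ((e.choose (k + t) : ℕ) : ℂ) * ((k + t).choose k : ℕ) =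
        (e.choose k : ℕ) * ((e - k).choose t : ℕ) := by exact_mod_cast h3
    linear_combination (w ^ t) * h5

theorem taylor_z {J r : ℕ} {p q : ℕ} (hp : 1 ≤ p) (hq : 1 ≤ q) {ρ : ℝ} (hρ : 0 < ρ)
    (hroot : ρ ^ r * (q : ℝ) = p) (c : Ix2 J r → ℂ) (k : ℕ) :
    ∑ u : Ix2 J r, ((ex u).choose k : ℂ) * ((q : ℂ) ^ (u.1 : ℕ) * (p : ℂ) ^ (J - (u.1 : ℕ))) * c u =
      (p : ℂ) ^ J * ((ρ : ℂ) ^ k)⁻¹ * ∑ l ∈ range (r * (J + 1)), (l.choose k : ℂ) *
        (1 / (ρ : ℂ) - 1) ^ (l - k) *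
          ∑ u : Ix2 J r, ((ex u).choose l : ℂ) * (ρ : ℂ) ^ (u.2 : ℕ) * c u := by
  have hρ0 : (ρ : ℂ) ≠ 0 := by exact_mod_cast hρ.ne'
  have hrootC : (ρ : ℂ) ^ r * (q : ℂ) = (p : ℂ) := by exact_mod_cast congrArg (fun x : ℝ => (x : ℂ)) hroot
  have e1 : ∑ l ∈ range (r * (J + 1)), (l.choose k : ℂ) * (1 / (ρ : ℂ) - 1) ^ (l - k) *
      ∑ u : Ix2 J r, ((ex u).choose l : ℂ) * (ρ : ℂ) ^ (u.2 : ℕ) * c u =
      ∑ u : Ix2 J r, (∑ l ∈ range (r * (J + 1)), (l.choose k : ℂ) * (1 / (ρ : ℂ) - 1) ^ (l - k) *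
        ((ex u).choose l : ℂ)) * ((ρ : ℂ) ^ (u.2 : ℕ) * c u) := by
    rw [Finset.sum_congr rfl fun l _ => Finset.mul_sum _ _ _, Finset.sum_comm]
    refine Finset.sum_congr rfl fun u _ => ?_
    rw [Finset.sum_mul]
    refine Finset.sum_congr rfl fun l _ => ?_
    ring
  rw [e1, Finset.mul_sum]
  refine Finset.sum_congr rfl fun u _ => ?_
  have hu1 : (u.1 : ℕ) < J + 1 := u.1.2
  have hu2 : (u.2 : ℕ) < r := u.2.2
  have hex : ex u < r * (J + 1) := by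
    unfold ex
    have h1 : r * (u.1 : ℕ) + r ≤ r * (J + 1) := by
      have h2 : r * ((u.1 : ℕ) + 1) ≤ r * (J + 1) := Nat.mul_le_mul_left r hu1
      linarith [Nat.mul_succ r (u.1 : ℕ)]
    omega
  rw [tay_choose (ex u) k _ hex]
  rcases lt_or_ge (ex u) k with hek | hek
  · rw [Nat.choose_eq_zero_of_lt hek, Nat.cast_zero]
    ring
  · have e2 : (1 + (1 / (ρ : ℂ) - 1)) = (ρ : ℂ)⁻¹ := by
      rw [one_div]
      ring
    rw [e2]
    have e3 : (p : ℂ) ^ J = (p : ℂ) ^ (J - (u.1 : ℕ)) * ((ρ : ℂ) ^ (r * (u.1 : ℕ)) * (q : ℂ) ^ (u.1 : ℕ)) := by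
      have h3 : (p : ℂ) ^ J = (p : ℂ) ^ (J - (u.1 : ℕ)) * (p : ℂ) ^ (u.1 : ℕ) := by
        rw [← pow_add]
        congr 1
        omega
      rw [h3]
      congr 1
      rw [pow_mul, ← mul_pow, hrootC]
    have e4 : ((ρ : ℂ) ^ k)⁻¹ * ((ρ : ℂ)⁻¹) ^ (ex u - k) * ((ρ : ℂ) ^ (r * (u.1 : ℕ)) *
        (ρ : ℂ) ^ (u.2 : ℕ)) = 1 := by
      rw [inv_pow, ← mul_inv, ← pow_add, ← pow_add]
      have h5 : k + (ex u - k) = r * (u.1 : ℕ) + (u.2 : ℕ) := by
        unfold ex at hek ⊢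
        omega
      rw [h5]
      exact inv_mul_cancel₀ (pow_ne_zero _ hρ0)
    rw [e3]
    linear_combination (-(((ex u).choose k : ℂ) * (p : ℂ) ^ (J - (u.1 : ℕ)) * (q : ℂ) ^ (u.1 : ℕ) * c u)) * e4

theorem tay_bound {J r : ℕ} {p q : ℕ} (hp : 1 ≤ p) (hq : 1 ≤ q) {ρ : ℝ} (hρ : 0 < ρ)
    (hroot : ρ ^ r * (q : ℝ) = p) {L TT U : ℝ} (hL : 0 ≤ L) (hU : 0 ≤ U)
    (h1 : 1 / 2 ≤ ρ) (h2 : |1 / ρ - 1| ≤ 2 * Real.exp (-L)) (c : Ix2 J r → ℂ)
    (hS : ∀ l : ℕ, ‖∑ u : Ix2 J r, ((ex u).choose l : ℂ) * (ρ : ℂ) ^ (u.2 : ℕ) * c u‖ ≤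
      U * Real.exp (-max (TT - l * L) 0)) (k : ℕ) :
    ‖∑ u : Ix2 J r, ((ex u).choose k : ℂ) *
        ((q : ℂ) ^ (u.1 : ℕ) * (p : ℂ) ^ (J - (u.1 : ℕ))) * c u‖ ≤
      (p : ℝ) ^ J * 16 ^ (r * (J + 1)) * U * Real.exp (k * L - TT) := by
  rw [taylor_z hp hq hρ hroot c k]
  obtain ⟨M, hM⟩ : ∃ M, M = r * (J + 1) := ⟨_, rfl⟩
  rw [← hM]
  have hp0 : (0 : ℝ) ≤ (p : ℝ) := Nat.cast_nonneg p
  rcases le_or_gt M k with hMk | hMk
  · have h3 : ∑ l ∈ range M, (l.choose k : ℂ) * (1 / (ρ : ℂ) - 1) ^ (l - k) *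
          ∑ u : Ix2 J r, ((ex u).choose l : ℂ) * (ρ : ℂ) ^ (u.2 : ℕ) * c u = 0 := by
      refine Finset.sum_eq_zero fun l hl => ?_
      rw [Finset.mem_range] at hl
      rw [Nat.choose_eq_zero_of_lt (by omega : l < k), Nat.cast_zero, zero_mul, zero_mul]
    rw [h3, mul_zero, norm_zero]
    positivity
  · rw [norm_mul, norm_mul, norm_pow, norm_inv, norm_pow, Complex.norm_natCast, Complex.norm_real,
      Real.norm_of_nonneg hρ.le]
    have hinv : (ρ ^ k)⁻¹ ≤ 2 ^ M := by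
      have h4 : (1 / 2 : ℝ) ^ k ≤ ρ ^ k := pow_le_pow_left₀ (by norm_num) h1 k
      have h5 : (ρ ^ k)⁻¹ ≤ ((1 / 2 : ℝ) ^ k)⁻¹ := inv_anti₀ (by positivity) h4
      have h6 : ((1 / 2 : ℝ) ^ k)⁻¹ = 2 ^ k := by
        rw [one_div, inv_pow, inv_inv]
      rw [h6] at h5
      exact h5.trans (pow_le_pow_right₀ (by norm_num) hMk.le)
    have hterm : ∀ l ∈ range M, ‖(l.choose k : ℂ) * (1 / (ρ : ℂ) - 1) ^ (l - k) *
          ∑ u : Ix2 J r, ((ex u).choose l : ℂ) * (ρ : ℂ) ^ (u.2 : ℕ) * c u‖ ≤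
        2 ^ M * 2 ^ M * (U * Real.exp (k * L - TT)) := by
      intro l hl
      rw [Finset.mem_range] at hl
      rcases lt_or_ge l k with hlk | hlk
      · rw [Nat.choose_eq_zero_of_lt hlk, Nat.cast_zero, zero_mul, zero_mul, norm_zero]
        positivity
      · rw [norm_mul, norm_mul, norm_pow, Complex.norm_natCast]
        have h4 : (l.choose k : ℝ) ≤ 2 ^ M := by
          have h5 : l.choose k ≤ 2 ^ l := Nat.choose_le_two_pow l k
          have h6 : (2 : ℕ) ^ l ≤ 2 ^ M := Nat.pow_le_pow_right (by norm_num) hl.le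
          exact_mod_cast h5.trans h6
        have h5 : ‖(1 / (ρ : ℂ) - 1)‖ = |1 / ρ - 1| := by
          have h6 : (1 / (ρ : ℂ) - 1) = ((1 / ρ - 1 : ℝ) : ℂ) := by push_cast; rfl
          rw [h6, Complex.norm_real, Real.norm_eq_abs]
        have h6 : ‖(1 / (ρ : ℂ) - 1)‖ ^ (l - k) ≤ 2 ^ M * Real.exp (-(((l - k : ℕ) : ℝ) * L)) := by
          rw [h5]
          calc |1 / ρ - 1| ^ (l - k) ≤ (2 * Real.exp (-L)) ^ (l - k) :=
                pow_le_pow_left₀ (abs_nonneg _) h2 _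
            _ = 2 ^ (l - k) * Real.exp (-(((l - k : ℕ) : ℝ) * L)) := by
                rw [mul_pow, ← Real.exp_nat_mul]
                congr 2
                ring
            _ ≤ 2 ^ M * Real.exp (-(((l - k : ℕ) : ℝ) * L)) :=
                mul_le_mul_of_nonneg_right (pow_le_pow_right₀ (by norm_num) (by omega))
                  (Real.exp_pos _).le
        have h7 := hS l
        have h8 : Real.exp (-(((l - k : ℕ) : ℝ) * L)) * Real.exp (-max (TT - l * L) 0) ≤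
            Real.exp (k * L - TT) := by
          rw [← Real.exp_add]
          apply Real.exp_le_exp.2
          have h9 : TT - l * L ≤ max (TT - l * L) 0 := le_max_left _ _
          rw [Nat.cast_sub hlk]
          linarith
        calc (l.choose k : ℝ) * ‖(1 / (ρ : ℂ) - 1)‖ ^ (l - k) *
              ‖∑ u : Ix2 J r, ((ex u).choose l : ℂ) * (ρ : ℂ) ^ (u.2 : ℕ) * c u‖
            ≤ 2 ^ M * (2 ^ M * Real.exp (-(((l - k : ℕ) : ℝ) * L))) *
              (U * Real.exp (-max (TT - l * L) 0)) := by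
              refine mul_le_mul (mul_le_mul h4 h6 (by positivity) (by positivity)) h7
                (norm_nonneg _) (by positivity)
          _ = 2 ^ M * 2 ^ M * (U * (Real.exp (-(((l - k : ℕ) : ℝ) * L)) *
              Real.exp (-max (TT - l * L) 0))) := by ring
          _ ≤ _ := by
              refine mul_le_mul_of_nonneg_left ?_ (by positivity)
              exact mul_le_mul_of_nonneg_left h8 hU
    have hsum : ‖∑ l ∈ range M, (l.choose k : ℂ) * (1 / (ρ : ℂ) - 1) ^ (l - k) *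
          ∑ u : Ix2 J r, ((ex u).choose l : ℂ) * (ρ : ℂ) ^ (u.2 : ℕ) * c u‖ ≤
        M * (2 ^ M * 2 ^ M * (U * Real.exp (k * L - TT))) := by
      refine (norm_sum_le _ _).trans ((Finset.sum_le_sum hterm).trans ?_)
      rw [Finset.sum_const, Finset.card_range, nsmul_eq_mul]
    have hM2 : (M : ℝ) ≤ 2 ^ M := by
      exact_mod_cast (Nat.lt_two_pow_self (n := M)).le
    have h16 : (16 : ℝ) ^ M = 2 ^ M * 2 ^ M * 2 ^ M * 2 ^ M := by
      rw [← mul_pow, ← mul_pow, ← mul_pow]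
      norm_num
    rw [h16]
    calc (p : ℝ) ^ J * (ρ ^ k)⁻¹ * ‖∑ l ∈ range M, (l.choose k : ℂ) *
          (1 / (ρ : ℂ) - 1) ^ (l - k) *
          ∑ u : Ix2 J r, ((ex u).choose l : ℂ) * (ρ : ℂ) ^ (u.2 : ℕ) * c u‖
        ≤ (p : ℝ) ^ J * 2 ^ M * (2 ^ M * (2 ^ M * 2 ^ M * (U * Real.exp (k * L - TT)))) := by
          refine mul_le_mul (mul_le_mul_of_nonneg_left hinv (by positivity)) ?_ (norm_nonneg _)
            (by positivity)
          exact hsum.trans (mul_le_mul_of_nonneg_right hM2 (by positivity))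
      _ = _ := by ring

end Pool.Agent.H8.RZ
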