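import Pool.Agent.H8.RZ.RHO
import Pool.Agent.H8.RZ.TAY
import Pool.Agent.H8.RZ.LCC
import Pool.Agent.H8.RZ.SMC

/-! # [H8 RZ ZRZ] The local coefficients at `ζ = 1` of small weight vanish

Write `L = log q`, `w = lam L ≤ L`, `J = Jz q r Y`, `M = r (J+1)`, `TT = (m+1+η) Y`, `e = ex u`. `J + 1 = ⌊Y/L⌋₊ + 1 - r ≤ Y/L` (`1 ≤ r ≤ ⌊Y/L⌋₊`), so `M ≤ r Y/L ≤ r Y/c`. `c` at least the `c` of
`small_c m n (η/16) (m+2)`, `cA n`, and large (`C(m,n,r)/η`).
(1) For `l : ℕ` let `f_l μ = ∑_u (e.choose l) ρ^(u.2) A u μ`. `BmC .. f_l near k = Bz .. A ρ near l k` (`Finset.sum_comm`, `Finset.mul_sum`), which vanishes if `l w + ∑ .. < TT`; `‖f_l μ‖ ≤ M 2^M 2^r exp(η Y/16)`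
(`ρ ≤ 2`). `small_c` with `TT_l = max (TT - l w) 0 ≤ TT ≤ (m+2) Y` (if `∑ .. < TT_l` then `TT_l > 0`, `l w + ∑ .. < TT`; `TT_l = 0` is vacuous): for `Nearby P T ξ`,
`‖VmC f_l T ξ‖ ≤ M 2^M 2^r exp(η Y/16) exp(m Y - TT_l + η Y/16)`, and `VmC f_l T ξ = ∑_u (e.choose l) ρ^(u.2) c_u`, `c_u = VmC (A u) T ξ` (`Finset.sum_comm`).
(2) `tay_bound` with its `L := w` and `U = M 2^M 2^r exp(ηY/16) exp(mY + ηY/16)` (`rho_close`): `‖VmC F_k T ξ‖ = ‖∑_u (e.choose k) q^s p^(J-s) c_u‖ ≤ p^J 16^M U exp(k w - TT)` where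
`F_k μ = ∑_u (e.choose k) q^s p^(J-s) A u μ`. `p^J ≤ (2q)^J ≤ exp(J (L+1)) ≤ exp(Y + Y/c)`, `M, 2^M, 2^r, 16^M ≤ exp(C Y/c)` (`M ≤ r Y / c`; `1 ≤ Y/c`): so
`‖VmC F_k T ξ‖ ≤ exp(Y + mY - (m+1+η)Y + ηY/8 + C Y/c + k w) ≤ exp(-(η/2) Y + k w)`.
(3) `loc_mc` with `ρ_v = |x_v|/(2 |kap_v|)`: `‖LmC F_k K‖ ≤ exp(-(η/2)Y + k w) ∏ (2|kap|/|x|)^(K_v) ≤ exp(-(η/2)Y + k w + 2 n ∑ ell K)` as in `zero_m` (`kap_facts`), and `LmC F_k K = (Lz p q P N A k K : ℂ)` (unfold, `Finset.sum_comm`,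
`push_cast`). With `k w + ∑ ell K < η Y/(8n)` the integer is `< 1` in absolute value, so `0` (`Int.abs_lt_one_iff`). -/

namespace Pool.Agent.H8.RZ

open Finset Polynomial Pool.Agent.H72.ES Pool.Agent.H87.SA2 Pool.Agent.H8.AW Pool.Agent.H52.AC
  Pool.Agent.H97.NW

private theorem zz_exlt {J r : ℕ} (u : Ix2 J r) : ex u < r * (J + 1) := by
  unfold ex
  have h1 := u.1.2
  have h2 := u.2.2
  have h3 : r * (u.1 : ℕ) + r ≤ r * (J + 1) := by
    rw [← Nat.mul_succ]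
    exact Nat.mul_le_mul_left _ h1
  omega

private theorem zz_bmc {m n : ℕ} (P : Fin m → Ptd n) (D N : Fin m → ℕ) {J r : ℕ}
    (A : Ix2 J r → Mo P N → ℤ) (z : ℂ) (j : ∀ v, Fin (P v).d) (l : ℕ) (k : Fin m → ℕ) :
    BmC P D N (fun μ => ∑ u : Ix2 J r, ((ex u).choose l : ℂ) * z ^ (u.2 : ℕ) * (A u μ : ℂ)) j k =
      Bz P D N A z j l k := by
  unfold BmC Bz Bm
  simp_rw [sum_mul, mul_sum]
  rw [sum_comm]
  refine sum_congr rfl fun u _ => sum_congr rfl fun μ _ => ?_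
  ring

private theorem zz_vmc {m n : ℕ} (P : Fin m → Ptd n) (N : Fin m → ℕ) {J r : ℕ}
    (A : Ix2 J r → Mo P N → ℤ) (g : Ix2 J r → ℂ) (T ξ : Fin m → ℂ) :
    VmC P N (fun μ => ∑ u : Ix2 J r, g u * (A u μ : ℂ)) T ξ =
      ∑ u : Ix2 J r, g u * VmC P N (fun μ => (A u μ : ℂ)) T ξ := by
  unfold VmC
  simp_rw [sum_mul, mul_sum]
  rw [sum_comm]
  refine sum_congr rfl fun u _ => sum_congr rfl fun μ _ => ?_
  ring

private theorem zz_lmc {m n : ℕ} (p q : ℕ) (P : Fin m → Ptd n) (N : Fin m → ℕ) {J r : ℕ}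
    (A : Ix2 J r → Mo P N → ℤ) (l : ℕ) (K : Fin m → ℕ) :
    LmC P N (fun μ => ∑ u : Ix2 J r, (((ex u).choose l : ℂ) *
      ((q : ℂ) ^ (u.1 : ℕ) * (p : ℂ) ^ (J - (u.1 : ℕ)))) * (A u μ : ℂ)) K =
      ((Lz p q P N A l K : ℤ) : ℂ) := by
  unfold LmC Lz Lm
  push_cast
  simp_rw [sum_mul, mul_sum]
  rw [sum_comm]
  refine sum_congr rfl fun u _ => sum_congr rfl fun μ _ => ?_
  ring

private theorem zz_norm {m n : ℕ} (P : Fin m → Ptd n) (N : Fin m → ℕ) {J r : ℕ}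
    (A : Ix2 J r → Mo P N → ℤ) {ρ E : ℝ} (hρ : 0 < ρ) (hρ2 : ρ ≤ 2) (hE : 0 ≤ E)
    (hA : ∀ u μ, |(A u μ : ℝ)| ≤ E) (l : ℕ) (μ : Mo P N) :
    ‖∑ u : Ix2 J r, ((ex u).choose l : ℂ) * (ρ : ℂ) ^ (u.2 : ℕ) * (A u μ : ℂ)‖ ≤
      ((r * (J + 1) : ℕ) : ℝ) * (2 ^ (r * (J + 1)) * 2 ^ r * E) := by
  refine (norm_sum_le _ _).trans ?_
  have h1 : ∀ u ∈ (univ : Finset (Ix2 J r)),
      ‖((ex u).choose l : ℂ) * (ρ : ℂ) ^ (u.2 : ℕ) * (A u μ : ℂ)‖ ≤
        2 ^ (r * (J + 1)) * 2 ^ r * E := by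
    intro u _
    rw [norm_mul, norm_mul, norm_pow, Complex.norm_natCast, Complex.norm_real, Real.norm_eq_abs,
      abs_of_pos hρ, Complex.norm_intCast]
    have e1 : ((ex u).choose l : ℝ) ≤ 2 ^ (r * (J + 1)) := by
      have h2 : (ex u).choose l ≤ 2 ^ (r * (J + 1)) :=
        (Nat.choose_le_two_pow _ _).trans (Nat.pow_le_pow_right (by norm_num) (zz_exlt u).le)
      exact_mod_cast h2
    have e2 : ρ ^ (u.2 : ℕ) ≤ 2 ^ r :=
      (pow_le_pow_left₀ hρ.le hρ2 _).trans (pow_le_pow_right₀ (by norm_num) u.2.2.le)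
    exact mul_le_mul (mul_le_mul e1 e2 (by positivity) (by positivity)) (hA u μ) (abs_nonneg _)
      (by positivity)
  refine (sum_le_sum h1).trans (le_of_eq ?_)
  rw [sum_const, card_univ, Fintype.card_prod, Fintype.card_fin, Fintype.card_fin, nsmul_eq_mul,
    mul_comm (J + 1) r]

theorem zero_z (m n r : ℕ) (hm : 1 ≤ m) (hn : 4 ≤ n) (hr : 1 ≤ r) (lam : ℝ) (hlam : 0 < lam)
    (hlam1 : lam ≤ 1) (η : ℝ) (hη : 0 < η) (hη1 : η ≤ 1) : ∃ c : ℕ, cA n ≤ c ∧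
      ∀ (P : Fin m → Ptd n), (∀ v, (P v).Thr c) → ∀ (p q : ℕ), NP lam p q →
      (c : ℝ) ≤ Real.log q → (∀ v, c * Real.log q ≤ (P v).ell) →
      ∀ ρ : ℝ, 0 < ρ → ρ ^ r * (q : ℝ) = p → ∀ Y : ℝ,
      (∀ v, (P v).ell ≤ Y) → (∀ v, 1 ≤ Nf P Y v) → r ≤ ⌊Y / Real.log q⌋₊ →
      ∀ A : Ix2 (Jz q r Y) r → Mo P (Nf P Y) → ℤ,
      (∀ u μ, |(A u μ : ℝ)| ≤ Real.exp (η / 16 * Y)) →
      (∀ (l : ℕ) (k : Fin m → ℕ),
        (l : ℝ) * (lam * Real.log q) + ∑ v, (P v).ell * ((k v / (P v).C.pd.e : ℕ) : ℝ) <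
          (m + 1 + η) * Y → Bz P (Df P Y) (Nf P Y) A (ρ : ℂ) (fun v => (P v).i) l k = 0) →
      ∀ (l : ℕ) (K : Fin m → ℕ),
        (l : ℝ) * (lam * Real.log q) + ∑ v, (P v).ell * (K v : ℝ) < η / (8 * n) * Y →
        Lz p q P (Nf P Y) A l K = 0 := by
  have hm1 : (1 : ℝ) ≤ m := by exact_mod_cast hm
  have hn1 : (4 : ℝ) ≤ n := by exact_mod_cast hn
  have hr1 : (1 : ℝ) ≤ r := by exact_mod_cast hr
  obtain ⟨c1, hcA1, hsm⟩ := small_c m n hm hn (η / 16) (m + 2) (by positivity) (by linarith)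
  refine ⟨max c1 ⌈4 * (1 + 6 * (r : ℝ)) / η⌉₊, hcA1.trans (le_max_left _ _), ?_⟩
  set c : ℕ := max c1 ⌈4 * (1 + 6 * (r : ℝ)) / η⌉₊ with hcdef
  have hcc1 : c1 ≤ c := le_max_left _ _
  have hcA : cA n ≤ c := hcA1.trans hcc1
  have hc2 : 4 * (1 + 6 * (r : ℝ)) ≤ η * c := by
    have h1 : ⌈4 * (1 + 6 * (r : ℝ)) / η⌉₊ ≤ c := le_max_right _ _
    have h2 : 4 * (1 + 6 * (r : ℝ)) / η ≤ c := (Nat.le_ceil _).trans (by exact_mod_cast h1)
    rw [div_le_iff₀ hη] at h2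
    linarith
  have hc0 : (0 : ℝ) < c := by
    by_contra hcon
    push Not at hcon
    nlinarith
  intro P hP p q hpq hcq hell ρ hρ hroot Y hY hN hrY A hA hvan l K hK
  obtain ⟨L, hL⟩ : ∃ L : ℝ, L = Real.log q := ⟨_, rfl⟩
  rw [← hL] at hcq hell hvan hK hrY
  have hL0 : 0 < L := lt_of_lt_of_le hc0 hcq
  obtain ⟨w, hw⟩ : ∃ w : ℝ, w = lam * L := ⟨_, rfl⟩
  rw [← hw] at hvan hK
  have hw0 : 0 ≤ w := by rw [hw]; positivity
  obtain ⟨hρ1, hρ2, hρ3⟩ := rho_close hr hpq hρ hroot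
  rw [← hL, ← hw] at hρ3
  -- the points
  have hPA : ∀ v, (P v).Thr (cA n) := fun v => (P v).thr_mono hcA (hP v)
  have hP1 : ∀ v, (P v).Thr c1 := fun v => (P v).thr_mono hcc1 (hP v)
  have hl2 : 0 < Real.log 2 := Real.log_pos (by norm_num)
  have hcA2 : (2 : ℝ) ≤ cA n := by
    have h1 : 2 ≤ cA n := by
      unfold cA
      have h2 : 1 ≤ n.factorial := Nat.factorial_pos n
      have h3 : 1 ≤ n ^ 2 := Nat.one_le_pow _ _ (by omega)
      have h4 : 1 ≤ n ^ 5 := Nat.one_le_pow _ _ (by omega)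
      calc 2 ≤ 20 * 1 * (10 ^ 6 * 1 * 1) := by norm_num
        _ ≤ 20 * n ^ 2 * (10 ^ 6 * n ^ 5 * n.factorial) := by gcongr
    exact_mod_cast h1
  have hell1 : ∀ v, Real.log 2 ≤ (P v).ell := by
    intro v
    have h1 := ((P v).ell_ge (hPA v)).2
    nlinarith
  have hell0 : ∀ v, 0 < (P v).ell := fun v => hl2.trans_le (hell1 v)
  have hY0 : 0 < Y := by
    have v0 : Fin m := ⟨0, by omega⟩
    exact (hell0 v0).trans_le (hY v0)
  -- the number of exponents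
  obtain ⟨J, hJ⟩ : ∃ J : ℕ, J = Jz q r Y := ⟨_, rfl⟩
  have hJ1 : ((J + 1 : ℕ) : ℝ) ≤ Y / L := by
    have h1 : J + 1 ≤ ⌊Y / L⌋₊ := by
      rw [hJ, hL]
      unfold Jz
      rw [← hL]
      omega
    exact (Nat.cast_le.2 h1).trans (Nat.floor_le (by positivity))
  have hYLc : Y / L ≤ Y / c := div_le_div_of_nonneg_left hY0.le hc0 hcq
  obtain ⟨y, hy⟩ : ∃ y : ℝ, y = Y / c := ⟨_, rfl⟩
  rw [← hy] at hYLc
  have hy0 : 0 < y := by rw [hy]; positivity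
  have hy1 : 1 ≤ y := by
    have h1 : (r : ℝ) ≤ Y / L := (Nat.cast_le.2 hrY).trans (Nat.floor_le (by positivity))
    linarith
  obtain ⟨M, hM⟩ : ∃ M : ℕ, M = r * (J + 1) := ⟨_, rfl⟩
  have hMy : (M : ℝ) ≤ r * y := by
    rw [hM, Nat.cast_mul]
    exact mul_le_mul_of_nonneg_left (hJ1.trans hYLc) (Nat.cast_nonneg _)
  have hcy : (1 + 6 * (r : ℝ)) * y ≤ η / 4 * Y := by
    have h1 : (1 + 6 * (r : ℝ)) ≤ η / 4 * c := by linarith
    have h2 := mul_le_mul_of_nonneg_right h1 hy0.le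
    have h3 : η / 4 * c * y = η / 4 * Y := by
      rw [hy]
      field_simp
    rwa [h3] at h2
  subst hJ
  -- the bound near the integer points
  obtain ⟨Z, hZ⟩ : ∃ Z : ℝ, Z = (M : ℝ) * (2 ^ M * 2 ^ r * Real.exp (η / 16 * Y)) := ⟨_, rfl⟩
  have hZ0 : 0 ≤ Z := by rw [hZ]; positivity
  obtain ⟨TT, hTT⟩ : ∃ TT : ℝ, TT = (m + 1 + η) * Y := ⟨_, rfl⟩
  rw [← hTT] at hvan
  have hTT0 : 0 ≤ TT := by rw [hTT]; positivity
  have hS : ∀ T ξ : Fin m → ℂ, Nearby P T ξ → ∀ l : ℕ,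
      ‖∑ u : Ix2 (Jz q r Y) r, ((ex u).choose l : ℂ) * (ρ : ℂ) ^ (u.2 : ℕ) *
        VmC P (Nf P Y) (fun μ => (A u μ : ℂ)) T ξ‖ ≤
      Z * Real.exp (m * Y + η / 16 * Y) * Real.exp (-max (TT - l * w) 0) := by
    intro T ξ hTξ l
    have h1 := hsm P hP1 Y hY hN
      (fun μ => ∑ u : Ix2 (Jz q r Y) r, ((ex u).choose l : ℂ) * (ρ : ℂ) ^ (u.2 : ℕ) * (A u μ : ℂ))
      Z (max (TT - l * w) 0) (le_max_right _ _) (by
        refine max_le ?_ (by positivity)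
        have h2 : 0 ≤ (l : ℝ) * w := by positivity
        have h3 : TT ≤ (m + 2) * Y := by
          rw [hTT]
          exact mul_le_mul_of_nonneg_right (by linarith) hY0.le
        linarith) (fun μ => by
        rw [hZ, hM]
        exact zz_norm P (Nf P Y) A hρ hρ2 (Real.exp_pos _).le hA l μ) (fun k hk => by
        rw [zz_bmc]
        refine hvan l k ?_
        have h2 : 0 ≤ ∑ v, (P v).ell * ((k v / (P v).C.pd.e : ℕ) : ℝ) :=
          sum_nonneg fun v _ => mul_nonneg (hell0 v).le (Nat.cast_nonneg _)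
        rcases lt_max_iff.1 hk with h3 | h3
        · linarith
        · linarith) T ξ hTξ
    have h2 := zz_vmc P (Nf P Y) A
      (fun u : Ix2 (Jz q r Y) r => ((ex u).choose l : ℂ) * (ρ : ℂ) ^ (u.2 : ℕ)) T ξ
    rw [h2] at h1
    refine h1.trans (le_of_eq ?_)
    rw [mul_assoc, ← Real.exp_add]
    congr 2
    ring
  have hV : ∀ T ξ : Fin m → ℂ, Nearby P T ξ →
      ‖VmC P (Nf P Y) (fun μ => ∑ u : Ix2 (Jz q r Y) r, (((ex u).choose l : ℂ) *
        ((q : ℂ) ^ (u.1 : ℕ) * (p : ℂ) ^ (Jz q r Y - (u.1 : ℕ)))) * (A u μ : ℂ)) T ξ‖ ≤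
      Real.exp (l * w - η / 2 * Y) := by
    intro T ξ hTξ
    have h2 := zz_vmc P (Nf P Y) A
      (fun u : Ix2 (Jz q r Y) r => ((ex u).choose l : ℂ) *
        ((q : ℂ) ^ (u.1 : ℕ) * (p : ℂ) ^ (Jz q r Y - (u.1 : ℕ)))) T ξ
    rw [h2]
    have h3 := tay_bound hpq.p1 hpq.q1 hρ hroot hw0
      (U := Z * Real.exp (m * Y + η / 16 * Y)) (TT := TT) (by positivity) hρ1 hρ3
      (fun u => VmC P (Nf P Y) (fun μ => (A u μ : ℂ)) T ξ) (hS T ξ hTξ) l
    refine h3.trans ?_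
    rw [← hM]
    -- numbers
    have e1 : (p : ℝ) ^ Jz q r Y ≤ Real.exp (Y + y) := by
      have hq0 : (0 : ℝ) < q := by exact_mod_cast hpq.q1
      have h4 : (p : ℝ) ≤ Real.exp (1 + L) := by
        have h5 : (p : ℝ) ≤ 2 * q := by exact_mod_cast hpq.pq
        have h6 : (2 : ℝ) ≤ Real.exp 1 := by
          have := Real.add_one_le_exp (1 : ℝ)
          linarith
        rw [Real.exp_add, hL, Real.exp_log hq0]
        nlinarith
      refine (pow_le_pow_left₀ (Nat.cast_nonneg _) h4 _).trans ?_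
      rw [← Real.exp_nat_mul]
      apply Real.exp_le_exp.mpr
      have h7 : ((Jz q r Y : ℕ) : ℝ) ≤ Y / L := by
        refine le_trans ?_ hJ1
        push_cast
        linarith
      have h8 : ((Jz q r Y : ℕ) : ℝ) * L ≤ Y := by
        rwa [le_div_iff₀ hL0] at h7
      have h9 : ((Jz q r Y : ℕ) : ℝ) ≤ y := h7.trans hYLc
      rw [mul_add, mul_one]
      linarith
    have e16 : (16 : ℝ) ≤ Real.exp 3 := by
      have h4 := Real.exp_one_gt_d9
      have h5 : Real.exp 3 = Real.exp 1 * Real.exp 1 * Real.exp 1 := by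
        rw [← Real.exp_add, ← Real.exp_add]
        norm_num
      rw [h5]
      have h6 : (2.7182818283 : ℝ) * 2.7182818283 ≤ Real.exp 1 * Real.exp 1 :=
        mul_le_mul h4.le h4.le (by norm_num) (Real.exp_pos _).le
      have h7 := mul_le_mul h6 h4.le (by norm_num) (by positivity)
      refine le_trans ?_ h7
      norm_num
    have e2 : (16 : ℝ) ^ M ≤ Real.exp (3 * M) := by
      refine (pow_le_pow_left₀ (by norm_num) e16 _).trans (le_of_eq ?_)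
      rw [← Real.exp_nat_mul]
      congr 1
      ring
    have h2e : (2 : ℝ) ≤ Real.exp 1 := by
      have := Real.add_one_le_exp (1 : ℝ)
      linarith
    have e3 : (2 : ℝ) ^ M ≤ Real.exp M := by
      refine (pow_le_pow_left₀ (by norm_num) h2e _).trans (le_of_eq ?_)
      rw [← Real.exp_nat_mul, mul_one]
    have e4 : (2 : ℝ) ^ r ≤ Real.exp (r * y) := by
      refine (pow_le_pow_left₀ (by norm_num) h2e _).trans ?_
      rw [← Real.exp_nat_mul, mul_one]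
      apply Real.exp_le_exp.mpr
      nlinarith
    have e5 : (M : ℝ) ≤ Real.exp M := by
      have := Real.add_one_le_exp (M : ℝ)
      linarith
    have e6 : Z ≤ Real.exp (2 * M + r * y + η / 16 * Y) := by
      have h4 : Real.exp (2 * M + r * y + η / 16 * Y) =
          Real.exp M * (Real.exp M * Real.exp (r * y) * Real.exp (η / 16 * Y)) := by
        rw [← Real.exp_add, ← Real.exp_add, ← Real.exp_add]
        congr 1
        ring
      rw [h4, hZ]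
      gcongr
    calc (p : ℝ) ^ Jz q r Y * 16 ^ M * (Z * Real.exp (m * Y + η / 16 * Y)) *
          Real.exp (l * w - TT)
        ≤ Real.exp (Y + y) * Real.exp (3 * M) *
          (Real.exp (2 * M + r * y + η / 16 * Y) * Real.exp (m * Y + η / 16 * Y)) *
          Real.exp (l * w - TT) := by gcongr
      _ = Real.exp (Y + y + 3 * M + (2 * M + r * y + η / 16 * Y + (m * Y + η / 16 * Y)) +
          (l * w - TT)) := by
          rw [← Real.exp_add, ← Real.exp_add, ← Real.exp_add, ← Real.exp_add]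
      _ ≤ Real.exp (l * w - η / 2 * Y) := by
          apply Real.exp_le_exp.mpr
          rw [hTT]
          nlinarith
  -- the geometry
  have hx0 : ∀ v, (P v).x ≠ 0 := fun v => ((P v).facts hn (hPA v)).2.2.2.2.1
  have hX0 : ∀ v, (0 : ℝ) < |((P v).x : ℝ)| := fun v => by
    rw [abs_pos]
    exact_mod_cast hx0 v
  have hexp : ∀ v, Real.exp (P v).ell = |((P v).x : ℝ)| := fun v => Real.exp_log (hX0 v)
  have hX2 : ∀ v, (2 : ℝ) ≤ |((P v).x : ℝ)| := by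
    intro v
    rw [← hexp v]
    calc (2 : ℝ) = Real.exp (Real.log 2) := (Real.exp_log (by norm_num)).symm
      _ ≤ Real.exp (P v).ell := Real.exp_le_exp.mpr (hell1 v)
  have hkap := fun v => (P v).kap_facts hn (hPA v)
  have hk0 : ∀ v, (0 : ℝ) < |((P v).kap : ℝ)| := fun v => by
    rw [abs_pos]
    exact_mod_cast (hkap v).1
  have hloc := loc_mc hn P hPA (Nf P Y)
    (fun μ => ∑ u : Ix2 (Jz q r Y) r, (((ex u).choose l : ℂ) *
        ((q : ℂ) ^ (u.1 : ℕ) * (p : ℂ) ^ (Jz q r Y - (u.1 : ℕ)))) * (A u μ : ℂ))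
    (M := Real.exp (l * w - η / 2 * Y))
    (fun v => |((P v).x : ℝ)| / (2 * |((P v).kap : ℝ)|))
    (fun v => div_pos (hX0 v) (by have := hk0 v; positivity))
    (fun v => by
      have := (hk0 v).ne'
      apply le_of_eq
      field_simp) hV K
  rw [zz_lmc, Complex.norm_intCast] at hloc
  obtain ⟨S, hSd⟩ : ∃ S : ℝ, S = ∑ v, (P v).ell * (K v : ℝ) := ⟨_, rfl⟩
  rw [← hSd] at hK
  have hS0 : 0 ≤ S := by
    rw [hSd]
    exact sum_nonneg fun v _ => mul_nonneg (hell0 v).le (Nat.cast_nonneg _)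
  have hρ' : Real.exp (-(2 * n * S)) ≤
      ∏ v, (|((P v).x : ℝ)| / (2 * |((P v).kap : ℝ)|)) ^ K v := by
    calc Real.exp (-(2 * n * S)) = Real.exp (∑ v, -(2 * n * ((P v).ell * (K v : ℝ)))) := by
          congr 1
          rw [sum_neg_distrib, ← mul_sum, hSd]
      _ = ∏ v, Real.exp (-(2 * n * ((P v).ell * (K v : ℝ)))) := Real.exp_sum _ _
      _ ≤ _ := by
          refine prod_le_prod (fun v _ => (Real.exp_pos _).le) fun v _ => ?_
          have h1 : Real.exp (-(2 * n * ((P v).ell * (K v : ℝ)))) =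
              (Real.exp (-((2 * n : ℕ) * (P v).ell))) ^ K v := by
            rw [← Real.exp_nat_mul]
            congr 1
            push_cast
            ring
          rw [h1]
          apply pow_le_pow_left₀ (Real.exp_pos _).le
          rw [Real.exp_neg, Real.exp_nat_mul, hexp v, le_div_iff₀ (by have := hk0 v; positivity)]
          have h2 : 0 < |((P v).x : ℝ)| ^ (2 * n) := pow_pos (hX0 v) _
          rw [inv_mul_le_iff₀ h2]
          have h3 := (hkap v).2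
          have h4 := hX2 v
          nlinarith
  have hlt : |((Lz p q P (Nf P Y) A l K : ℤ) : ℝ)| < 1 := by
    have h1 : |((Lz p q P (Nf P Y) A l K : ℤ) : ℝ)| * Real.exp (-(2 * n * S)) ≤
        Real.exp (l * w - η / 2 * Y) :=
      (mul_le_mul_of_nonneg_left hρ' (abs_nonneg _)).trans hloc
    by_contra hcon
    push Not at hcon
    have h2 : Real.exp (-(2 * n * S)) ≤ Real.exp (l * w - η / 2 * Y) := by
      refine le_trans ?_ h1
      exact le_mul_of_one_le_left (Real.exp_pos _).le hcon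
    have h3 := Real.exp_le_exp.mp h2
    have h4 : 2 * (n : ℝ) * (l * w + S) < 2 * (n : ℝ) * (η / (8 * n) * Y) :=
      mul_lt_mul_of_pos_left hK (by positivity)
    have h5 : 2 * (n : ℝ) * (η / (8 * n) * Y) = η / 4 * Y := by
      field_simp
      ring
    rw [h5] at h4
    have h6 : (l : ℝ) * w ≤ 2 * n * (l * w) := by
      have h7 : 0 ≤ (l : ℝ) * w := by positivity
      nlinarith
    have h8 : 0 < η * Y := by positivity
    nlinarith
  have hlt2 : |Lz p q P (Nf P Y) A l K| < 1 := by exact_mod_cast hlt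
  exact Int.abs_lt_one_iff.mp hlt2

end Pool.Agent.H8.RZ
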