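import Pool.Agent.H8.RZ.AXB
import Pool.Agent.H8.RZ.ZRZ

/-! # [H8 RZ AXZ] The auxiliary function with vanishing local coefficients (assembly)

`η, K0` from `auxBZ`; `c1` from `zero_z` for this `η`; `τ = η/(8n)`; for `δ > 0` take `c` at least the `c` of `auxBZ` for `min δ (η/16)`, and `c1`. -/

namespace Pool.Agent.H8.RZ

open Finset Polynomial Pool.Agent.H72.ES Pool.Agent.H87.SA2 Pool.Agent.H8.AW Pool.Agent.H52.AC
  Pool.Agent.H97.NW

theorem aux_z (m n r : ℕ) (hm : 1 ≤ m) (hn : 4 ≤ n) (hr : 1 ≤ r) (lam : ℝ) (hlam : 0 < lam)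
    (hlam1 : lam ≤ 1) (γ : ℝ) (hγ : 0 < γ) :
    ∃ τ K0 : ℝ, 0 < τ ∧ 1 ≤ K0 ∧ ∀ δ : ℝ, 0 < δ → ∃ c : ℕ, cA n ≤ c ∧
      ∀ (P : Fin m → Ptd n) (PP : Finset (∀ v, Fin (P v).d)), Stb P PP →
      (fun v => (P v).i) ∈ PP →
      (1 + γ) * (((m : ℝ) + 1) ^ (m + 1) * PP.card) ≤
        ((m + 1).factorial : ℝ) * (r * lam * ∏ v, ((P v).d : ℝ)) →
      ∀ (p q : ℕ), NP lam p q → ∀ _ : ZD P PP r p q,
      (∀ v, (P v).Thr c) → (c : ℝ) ≤ Real.log q → (∀ v, c * Real.log q ≤ (P v).ell) →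
      ∀ Y : ℝ, (∀ v, K0 * (P v).ell ≤ Y) →
      (∀ v, 1 ≤ Nf P Y v) ∧ r ≤ ⌊Y / Real.log q⌋₊ ∧
      ∃ A : Ix2 (Jz q r Y) r → Mo P (Nf P Y) → ℤ, A ≠ 0 ∧
        (∀ u μ, |(A u μ : ℝ)| ≤ Real.exp (δ * Y)) ∧
        ∀ (l : ℕ) (K : Fin m → ℕ),
          (l : ℝ) * (lam * Real.log q) + ∑ v, (P v).ell * (K v : ℝ) < τ * Y →
          Lz p q P (Nf P Y) A l K = 0 := by
  obtain ⟨η, K0, hη, hη1, hK0, haux⟩ := auxBZ m n r hm (by omega) hr lam hlam hlam1 γ hγ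
  obtain ⟨c1, hc1, hz⟩ := zero_z m n r hm hn hr lam hlam hlam1 η hη hη1
  refine ⟨η / (8 * n), K0, by positivity, hK0, ?_⟩
  intro δ hδ
  obtain ⟨c2, hc2⟩ := haux (min δ (η / 16)) (lt_min hδ (by positivity))
  refine ⟨max c1 c2, hc1.trans (le_max_left _ _), ?_⟩
  intro P PP hst hnear hcard p q hNP Z hThr hcq hcl Y hY
  have hc1' : (c1 : ℝ) ≤ ((max c1 c2 : ℕ) : ℝ) := by exact_mod_cast le_max_left _ _
  have hc2' : (c2 : ℝ) ≤ ((max c1 c2 : ℕ) : ℝ) := by exact_mod_cast le_max_right _ _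
  have hlq : 0 ≤ Real.log q := (Nat.cast_nonneg _).trans hcq
  have hc0 : (0 : ℝ) < ((max c1 c2 : ℕ) : ℝ) := by
    have h0 : 0 < n := by omega
    have h2 := Nat.factorial_pos n
    have h1 : 0 < cA n := by
      unfold cA
      positivity
    exact_mod_cast (by omega : 0 < max c1 c2)
  have hlq0 : 0 < Real.log q := lt_of_lt_of_le hc0 hcq
  have hell0 : ∀ v, 0 < (P v).ell := fun v => lt_of_lt_of_le (by positivity) (hcl v)
  have hT1 : ∀ v, (P v).Thr c1 := fun v => (P v).thr_mono (le_max_left _ _) (hThr v)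
  have hT2 : ∀ v, (P v).Thr c2 := fun v => (P v).thr_mono (le_max_right _ _) (hThr v)
  obtain ⟨hN, hrY, A, hA0, hAb, hAv⟩ := hc2 P PP hst hcard p q hNP.p1 hNP.q1 hNP.pq Z hT2
    (hc2'.trans hcq) (fun v => (mul_le_mul_of_nonneg_right hc2' hlq).trans (hcl v)) Y hY
  have hellY : ∀ v, (P v).ell ≤ Y := fun v =>
    (le_mul_of_one_le_left (hell0 v).le hK0).trans (hY v)
  have hY0 : 0 ≤ Y := (hell0 ⟨0, by omega⟩).le.trans (hellY ⟨0, by omega⟩)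
  refine ⟨hN, hrY, A, hA0, ?_, ?_⟩
  · intro u μ
    refine (hAb u μ).trans (Real.exp_le_exp.2 ?_)
    exact mul_le_mul_of_nonneg_right (min_le_left _ _) hY0
  · obtain ⟨ρ, hρ, hρz⟩ := Z.near
    have hroot : ρ ^ r * (q : ℝ) = p := by
      have h1 := Z.root _ hnear
      rw [hρz] at h1
      exact_mod_cast h1
    refine hz P hT1 p q hNP (hc1'.trans hcq)
      (fun v => (mul_le_mul_of_nonneg_right hc1' hlq).trans (hcl v)) ρ hρ hroot Y hellY hN hrY A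
      ?_ ?_
    · intro u μ
      refine (hAb u μ).trans (Real.exp_le_exp.2 ?_)
      exact mul_le_mul_of_nonneg_right (min_le_right _ _) hY0
    · intro l k hk
      have h1 := hAv _ hnear l k hk
      rw [hρz] at h1
      exact h1

end Pool.Agent.H8.RZ
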