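import Pool.Agent.H8.RZ.AXZ
import Pool.Agent.H87.RZ.HZP
import Pool.Agent.H87.RZ.BLN
import Pool.Agent.H87.RZ.BLA

/-! # [H8 RZ BLZ] Comparable scales: the pair is special (helper87)

Proof: proofs 315, section 4. The polynomial `h(ζ)` and its zero estimate are in `Pool/Agent/H87/RZ/HZP.lean`, the case that all values vanish in
`Pool/Agent/H87/RZ/BLA.lean`, the numbers in `Pool/Agent/H87/RZ/BLN.lean`. -/

namespace Pool.Agent.H8.RZ

open Finset Polynomial Pool.Agent.H72.ES Pool.Agent.H87.SA2 Pool.Agent.H8.AW Pool.Agent.H52.AC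
  Pool.Agent.H97.NW H4AR

theorem block_z (n r : ℕ) (hn : 4 ≤ n) (hr : 1 ≤ r) (lam γ R : ℝ) (hlam : 0 < lam)
    (hlam1 : lam ≤ 1) (hγ : 0 < γ) (hR : 1 ≤ R) : ∃ As : ℕ, ∀ c0 : ℕ, ∃ c : ℕ, cA n ≤ c ∧
      ∀ (P : Fin 2 → Ptd n) (PP : Finset (∀ v, Fin (P v).d)), Stb P PP →
      (fun v => (P v).i) ∈ PP →
      (1 + γ) * (27 * (PP.card : ℝ)) ≤ 6 * (r * lam * ∏ v, ((P v).d : ℝ)) →
      ∀ (p q : ℕ), NP lam p q → ∀ _ : ZD P PP r p q,
      (∀ v, (P v).Thr c) → (c : ℝ) ≤ Real.log q → (∀ v, c * Real.log q ≤ (P v).ell) →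
      (P 0).ell ≤ R * (P 1).ell → (P 1).ell ≤ R * (P 0).ell →
      Spc As c0 (P 0).x (P 1).x := by
  obtain ⟨τ, K0, hτ, hK0, haux⟩ := aux_z 2 n r (by norm_num) hn hr lam hlam hlam1 γ hγ
  have hK00 : 0 < K0 := by linarith
  have hR0 : 0 < R := by linarith
  obtain ⟨As, hAs⟩ := bla n hn K0 R hK0 hR
  refine ⟨As, fun c0 => ?_⟩
  obtain ⟨δ1, c1, hδ1, hc1, hbla⟩ := hAs c0
  obtain ⟨NR, hNR⟩ : ∃ NR : ℕ, K0 * R ≤ NR := exists_nat_ge _
  obtain ⟨R0, hR0d⟩ : ∃ R0 : ℕ, R0 = (NR * n) * (NR * n) := ⟨_, rfl⟩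
  have hrR : (1 : ℝ) ≤ r := by exact_mod_cast hr
  have hR0R : (0 : ℝ) ≤ R0 := Nat.cast_nonneg _
  obtain ⟨δ, hδ⟩ : ∃ δ, δ = min δ1 (τ / (4 * r * (R0 + 1))) := ⟨_, rfl⟩
  have hδ0 : 0 < δ := by rw [hδ]; exact lt_min hδ1 (by positivity)
  have hδa : δ ≤ δ1 := by rw [hδ]; exact min_le_left _ _
  have hδb : R0 * δ ≤ τ / (4 * r) := by
    have h1 : δ ≤ τ / (4 * r * (R0 + 1)) := by rw [hδ]; exact min_le_right _ _
    rw [le_div_iff₀ (by positivity)] at h1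
    rw [le_div_iff₀ (by positivity)]
    have h2 : 0 ≤ δ * (4 * r) := by positivity
    nlinarith
  obtain ⟨c2, hc2, hA2⟩ := haux δ hδ0
  obtain ⟨c3, hc3⟩ := exists_nat_ge
    (4 * r * ((r : ℝ) + R0 + 2 + R0 * 2 + R0 * R0 + R0 * (R0 * r)) / τ)
  refine ⟨c1 + c2 + c3 + 1, by omega, ?_⟩
  intro P PP hst hnear hcard p q hNP Z hThr hcq hcl h01 h10
  obtain ⟨c, hc⟩ : ∃ c : ℝ, c = ((c1 + c2 + c3 + 1 : ℕ) : ℝ) := ⟨_, rfl⟩
  have hcc1 : (c1 : ℝ) ≤ c := by
    rw [hc]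
    exact_mod_cast (by omega : c1 ≤ c1 + c2 + c3 + 1)
  have hcc2 : (c2 : ℝ) ≤ c := by
    rw [hc]
    exact_mod_cast (by omega : c2 ≤ c1 + c2 + c3 + 1)
  have hcc3 : (c3 : ℝ) ≤ c := by
    rw [hc]
    exact_mod_cast (by omega : c3 ≤ c1 + c2 + c3 + 1)
  have hcc4 : (1 : ℝ) ≤ c := by
    rw [hc]
    exact_mod_cast (by omega : 1 ≤ c1 + c2 + c3 + 1)
  rw [← hc] at hcq hcl
  obtain ⟨L, hL⟩ : ∃ L, L = Real.log q := ⟨_, rfl⟩
  rw [← hL] at hcq hcl
  have hL0 : 0 < L := by linarith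
  have hell0 : ∀ v, 0 < (P v).ell := fun v => lt_of_lt_of_le (by positivity) (hcl v)
  have hT1 : ∀ v, (P v).Thr c1 := fun v => Ptd.thr_mono _ (by omega) (hThr v)
  have hT2 : ∀ v, (P v).Thr c2 := fun v => Ptd.thr_mono _ (by omega) (hThr v)
  obtain ⟨Y, hY⟩ : ∃ Y, Y = K0 * max (P 0).ell (P 1).ell := ⟨_, rfl⟩
  have hYv : ∀ v, K0 * (P v).ell ≤ Y := by
    intro v
    rw [hY]
    apply mul_le_mul_of_nonneg_left _ hK00.le
    fin_cases v
    · exact le_max_left _ _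
    · exact le_max_right _ _
  have hellY : ∀ v, (P v).ell ≤ Y := fun v =>
    (le_mul_of_one_le_left (hell0 v).le hK0).trans (hYv v)
  have hY0 : 0 < Y := lt_of_lt_of_le (hell0 0) (hellY 0)
  have hcard' : (1 + γ) * ((((2 : ℕ) : ℝ) + 1) ^ (2 + 1) * PP.card) ≤
      ((2 + 1).factorial : ℝ) * (r * lam * ∏ v, ((P v).d : ℝ)) := by
    have e1 : (((2 : ℕ) : ℝ) + 1) ^ (2 + 1) = 27 := by norm_num
    have e2 : ((2 + 1).factorial : ℝ) = 6 := by norm_num [Nat.factorial]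
    rw [e1, e2]
    exact hcard
  obtain ⟨hNf, hrY, A, hA0, hA, hLz⟩ := hA2 P PP hst hnear hcard' p q hNP Z hT2
    (by rw [← hL]; exact hcc2.trans hcq)
    (fun v => by
      rw [← hL]
      exact (mul_le_mul_of_nonneg_right hcc2 hL0.le).trans (hcl v)) Y hYv
  rw [← hL] at hrY hLz
  by_cases hh : hz p q P (Nf P Y) A = 0
  · -- all values vanish
    have h1 : ∃ u, A u ≠ 0 := by
      by_contra hcon
      push Not at hcon
      exact hA0 (funext hcon)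
    obtain ⟨u, hu⟩ := h1
    exact hbla P hT1 h01 h10 Y hY hNf δ hδ0.le hδa (A u) hu (hA u)
      (hz_zero hNP.p1 hNP.q1 P (Nf P Y) A hh u)
  · exfalso
    have hest := hz_est hNP.p1 hNP.q1 hNP.cop P (Nf P Y) hr A (Z := Real.exp (δ * Y))
      (Real.one_le_exp (by positivity)) hA hh ⌊τ * Y / (lam * L)⌋₊ ?_
    · have hNY : ∀ v, (Nf P Y v : ℝ) * (P v).ell ≤ Y := by
        intro v
        have h5 : Nf P Y v ≤ Df P Y v := by
          unfold Nf
          have := (P v).C.d1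
          omega
        have h6 : (Df P Y v : ℝ) ≤ Y / (P v).ell := Nat.floor_le (by have := hell0 v; positivity)
        have h7 : (Nf P Y v : ℝ) ≤ Y / (P v).ell := le_trans (by exact_mod_cast h5) h6
        rwa [le_div_iff₀ (hell0 v)] at h7
      have hYR : ∀ v, Y ≤ K0 * R * (P v).ell := by
        intro v
        have e0 : max (P 0).ell (P 1).ell ≤ R * (P v).ell := by
          fin_cases v
          · exact max_le (le_mul_of_one_le_left (hell0 0).le hR) h10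
          · exact max_le h01 (le_mul_of_one_le_left (hell0 1).le hR)
        rw [hY, mul_assoc]
        exact mul_le_mul_of_nonneg_left e0 hK00.le
      have hNle : ∀ v, Nf P Y v * (P v).d ≤ NR * n := by
        intro v
        have e1 : (Nf P Y v : ℝ) ≤ NR :=
          (le_of_mul_le_mul_right ((hNY v).trans (hYR v)) (hell0 v)).trans hNR
        have e2 : Nf P Y v ≤ NR := by exact_mod_cast e1
        exact Nat.mul_le_mul e2 (P v).C.dn
      have hr0 : ∏ v, (Nf P Y v * (P v).d) ≤ R0 := by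
        rw [Fin.prod_univ_two, hR0d]
        exact Nat.mul_le_mul (hNle 0) (hNle 1)
      have hr01 : 1 ≤ ∏ v, (Nf P Y v * (P v).d) := by
        rw [Nat.one_le_iff_ne_zero, Finset.prod_ne_zero_iff]
        intro v _
        have e1 := hNf v
        have e2 := (P v).C.d1
        have e3 : 0 < Nf P Y v * (P v).d := Nat.mul_pos (by omega) (by omega)
        omega
      have hJ : ((Jz q r Y : ℝ) + 1) * L ≤ Y := by
        have e1 : Jz q r Y + 1 ≤ ⌊Y / L⌋₊ := by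
          unfold Jz
          rw [← hL]
          omega
        have e2 : ((Jz q r Y : ℝ) + 1) ≤ ⌊Y / L⌋₊ := by exact_mod_cast e1
        have e3 : (⌊Y / L⌋₊ : ℝ) ≤ Y / L := Nat.floor_le (by positivity)
        have e4 := e2.trans e3
        rwa [le_div_iff₀ hL0] at e4
      have hcb : 4 * r * ((r : ℝ) + R0 + 2 + R0 * 2 + R0 * R0 + R0 * (R0 * r)) ≤ τ * c := by
        rw [div_le_iff₀ hτ] at hc3
        have e1 : (c3 : ℝ) * τ ≤ c * τ := mul_le_mul_of_nonneg_right hcc3 hτ.le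
        linarith
      exact bln r R0 hr τ δ c L Y lam hτ hlam hlam1 hδb hδ0 hcc4 hcb hcq
        ((hcl 0).trans (hellY 0)) p q hL.symm hNP.pq (Jz q r Y) hJ _ hr01 hr0 hest
    · intro l hl
      refine hLz l 0 ?_
      have e1 : (l : ℝ) < τ * Y / (lam * L) := Nat.lt_of_lt_floor hl
      rw [lt_div_iff₀ (by positivity)] at e1
      simpa using e1

end Pool.Agent.H8.RZ
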