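import Pool.Agent.H97.NW.Defs

/-!
# MP_821da1_nt, RepellingRadicals (helper8): basic definitions

Complete proof: table `proofs`, id 315, with the weight `lam * log q` of the derivatives in `ζ` (improvement
of helper37 and helper87). Everything is built on `Pool/Agent/H97/NW` (`Ptd n` = pointed
curve in normal form, `P.ell = log |x|`, `Stb`, `Bm`, `Lm`, `Df`, `Nf`).
`Ix2 J r`: the indices `u = (s, i)` of the powers `ζ^(r s + i)`, `s ≤ J`, `i < r`; `ex u = r s + i`.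
The unknown function is `G = ∑_u ζ^i (q ζ^r)^s p^(J-s) ∑_μ A u μ μ(x_v,y_v)`, `A : Ix2 J r → Mo P N → ℤ`.
`ZD P PP r p q`: to every tuple of branches in `PP` a root `z` of `q z^r = p` is attached, Galois
equivariant, invariant under separate rotations, positive at the tuple of the near branches.
`Bz`: the coefficient of `∏ T_v^(k_v)` of the `l`-th Hasse derivative (in `ζ`, times `ζ^l`, divided by
`p^J`) of `∏ t_v^(D_v) G` at the tuple `j` of branches and at `ζ = z`.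
`Lz`: the coefficient of `∏ t_v^(K_v)` of the `l`-th Hasse derivative of `G` at `ζ = 1` at the integer
points. `BmC, LmC`: `Bm, Lm` for complex arrays.
`NP lam p q`: `p, q` are coprime and `|p - q| ≤ q^(1-lam)`, `|p - q| ≤ p^(1-lam)`.
`Jz q r Y + 1 = ⌊Y / log q⌋₊ + 1 - r` is the number of values of `s`.
-/

namespace Pool.Agent.H8.RZ

open Finset Polynomial Pool.Agent.H72.ES Pool.Agent.H87.SA2 Pool.Agent.H8.AW Pool.Agent.H52.AC
  Pool.Agent.H97.NW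

variable {m n : ℕ}

/-- the indices `(s, i)` of the powers `ζ^(r s + i)` -/
abbrev Ix2 (J r : ℕ) : Type := Fin (J + 1) × Fin r

/-- the exponent `r s + i` -/
def ex {J r : ℕ} (u : Ix2 J r) : ℕ := r * (u.1 : ℕ) + (u.2 : ℕ)

/-- a root `z` of `q z^r = p` attached to the tuples of branches in `PP` -/
structure ZD (P : Fin m → Ptd n) (PP : Finset (∀ v, Fin (P v).d)) (r p q : ℕ) where
  z : (∀ v, Fin (P v).d) → ℂ
  root : ∀ j ∈ PP, z j ^ r * (q : ℂ) = (p : ℂ)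
  gal : ∀ σ : AA →+* ℂ, ∀ j ∈ PP, ∀ j' : ∀ v, Fin (P v).d,
    (∀ (v : Fin m) (k : ℕ) (a : AA), (a : ℂ) = PowerSeries.coeff k ((P v).C.pd.x (j v)) →
      σ a = PowerSeries.coeff k ((P v).C.pd.x (j' v))) → ∀ a : AA, (a : ℂ) = z j → σ a = z j'
  rot : ∀ ζ : Fin m → ℂ, (∀ v, ζ v ^ (P v).C.pd.e = 1) → ∀ j ∈ PP, ∀ j' : ∀ v, Fin (P v).d,
    (∀ v, PowerSeries.rescale (ζ v) ((P v).C.pd.x (j v)) = (P v).C.pd.x (j' v)) → z j' = z j
  near : ∃ ρ : ℝ, 0 < ρ ∧ z (fun v => (P v).i) = (ρ : ℂ)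

/-- the coefficient of `∏ T_v^(k_v)` of the `l`-th derivative at `ζ = z` -/
noncomputable def Bz (P : Fin m → Ptd n) (D N : Fin m → ℕ) {J r : ℕ} (A : Ix2 J r → Mo P N → ℤ)
    (z : ℂ) (j : ∀ v, Fin (P v).d) (l : ℕ) (k : Fin m → ℕ) : ℂ :=
  ∑ u : Ix2 J r, ((ex u).choose l : ℂ) * z ^ (u.2 : ℕ) * Bm P D N (A u) j k

/-- `Bm` for complex arrays -/
noncomputable def BmC (P : Fin m → Ptd n) (D N : Fin m → ℕ) (f : Mo P N → ℂ)
    (j : ∀ v, Fin (P v).d) (k : Fin m → ℕ) : ℂ :=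
  ∑ μ : Mo P N, f μ * ∏ v, PowerSeries.coeff (k v)
    (uu (P v).C.pd.q (P v).C.pd.e ((P v).C.pd.x (j v)) (D v) (μ v).1 (μ v).2)

/-- `Lm` for complex arrays -/
noncomputable def LmC (P : Fin m → Ptd n) (N : Fin m → ℕ) (f : Mo P N → ℂ) (K : Fin m → ℕ) : ℂ :=
  ∑ μ : Mo P N, f μ * ((∏ v, PowerSeries.coeff (K v) ((P v).psi ((μ v).1, (μ v).2)) : ℤ) : ℂ)

/-- the value of the complex array at the points `ξ v`, `T v` of the near branches -/
noncomputable def VmC (P : Fin m → Ptd n) (N : Fin m → ℕ) (f : Mo P N → ℂ) (T ξ : Fin m → ℂ) : ℂ :=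
  ∑ μ : Mo P N, f μ * ∏ v, (ξ v ^ ((μ v).1 : ℕ) *
    (ξ v * evz (T v) ((P v).C.pd.x (P v).i)) ^ ((μ v).2 : ℕ))

/-- the integral local coefficients at `ζ = 1` and the integer points -/
noncomputable def Lz (p q : ℕ) (P : Fin m → Ptd n) (N : Fin m → ℕ) {J r : ℕ}
    (A : Ix2 J r → Mo P N → ℤ) (l : ℕ) (K : Fin m → ℕ) : ℤ :=
  ∑ u : Ix2 J r, ((ex u).choose l : ℤ) * ((q : ℤ) ^ (u.1 : ℕ) * (p : ℤ) ^ (J - (u.1 : ℕ))) *
    Lm P N (A u) K

/-- the points `T v, ξ v` are on the near branches, near the integer points -/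
def Nearby (P : Fin m → Ptd n) (T ξ : Fin m → ℂ) : Prop :=
  (∀ v, ((((P v).C.pd.q : ℕ) : ℂ) * T v) ^ (P v).C.pd.e * ξ v = 1) ∧
    ∀ v, ‖ξ v - (P v).x‖ ≤ |((P v).x : ℝ)| / 2

/-- `p, q` are coprime and close to each other -/
structure NP (lam : ℝ) (p q : ℕ) : Prop where
  p1 : 1 ≤ p
  q1 : 1 ≤ q
  cop : Nat.Coprime p q
  ne : p ≠ q
  pq : p ≤ 2 * q
  qp : q ≤ 2 * p
  cl : |(p : ℝ) - q| ≤ (q : ℝ) ^ (1 - lam)
  cl' : |(p : ℝ) - q| ≤ (p : ℝ) ^ (1 - lam)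

theorem NP.swap {lam : ℝ} {p q : ℕ} (h : NP lam p q) : NP lam q p where
  p1 := h.q1
  q1 := h.p1
  cop := h.cop.symm
  ne := h.ne.symm
  pq := h.qp
  qp := h.pq
  cl := by rw [abs_sub_comm]; exact h.cl'
  cl' := by rw [abs_sub_comm]; exact h.cl

/-- the number of powers of `q ζ^r`, minus one -/
noncomputable def Jz (q r : ℕ) (Y : ℝ) : ℕ := ⌊Y / Real.log q⌋₊ - r

end Pool.Agent.H8.RZ
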