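import Pool.Agent.H8.RZ.Defs
import Pool.Agent.H97.NW.CEL

/-! # [H8 RZ EQZ] Small cell sums vanish, with the root `z`

Adapt `cell_zero_m` (`Pool/Agent/H97/NW/CEL.lean`, 50 lines). Write `V(j) = q^(r-1) * ∑_u (ex u).choose l * z(j)^(u.2) * Vm P D N (A u) j K`
(`Vm` = the cell sum of `NW/Defs`; `∑_ρ Bz .. l (e K + ρ) = ∑_u choose * z^(u.2) * Vm (A u) j K` by `Finset.sum_comm`, so the hypothesis says
`‖V(j)‖ < 1` on `PP`). (1) `liou_zero` for the family `V`, `j ∈ PP` (subtype). Integrality: `V(j) = ∑_u choose * (q^(r-1) z^(u.2)) * Vm`, `Vm_int`, and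
`q^(r-1) z^i = q^(r-1-i) (q z)^i`, `(q z)^r = p q^(r-1)` (`root`), so `q z` is integral (`IsIntegral.of_pow`, `1 ≤ r`). Equivariance: for `σ` take the
permutations of `perm_gal` as in `cell_zero_m`, `j' = π j ∈ PP`; for `a : AA` with `(a : ℂ) = V(j)`: every `Vm P D N (A u) j K` and `z j` are
algebraic (`Vm_int`, the root): `= (b : ℂ)` with `b : AA` (`AA` is the algebraic closure of `ℚ` in `ℂ`, see how `coeff_mem` of
`Pool/Agent/H52/AC/PRM.lean` proves membership), `a` = the same expression in `AA` (`Subtype.ext`), apply `σ`, `Vm_gal` and `Z.gal`.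
(2) Rotations: for `ζ` with `ζ_v^(e_v) = 1` take `perm_rot`, `j' = ρ j ∈ PP` (`hst.2`), `Z.rot : z j' = z j`, `Vm_rot` for each `A u`; so
`0 = ∑_ρ (∏ ζ_v^(ρ_v)) * (∑_u choose * z(j)^(u.2) * Bm P D N (A u) j (e K + ρ))` (divide by `q^(r-1) ≠ 0`) and `fourier_m`. -/

namespace Pool.Agent.H8.RZ

open Finset Polynomial Pool.Agent.H72.ES Pool.Agent.H87.SA2 Pool.Agent.H8.AW Pool.Agent.H52.AC
  Pool.Agent.H97.NW

variable {m n : ℕ}

private theorem eqz_sum (P : Fin m → Ptd n) (D N : Fin m → ℕ) {J r : ℕ}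
    (A : Ix2 J r → Mo P N → ℤ) (z : ℂ) (j : ∀ v, Fin (P v).d) (l : ℕ) (K : Fin m → ℕ) :
    ∑ ρ : (∀ v, Fin (P v).C.pd.e), Bz P D N A z j l (fun v => (P v).C.pd.e * K v + (ρ v : ℕ)) =
      ∑ u : Ix2 J r, ((ex u).choose l : ℂ) * z ^ (u.2 : ℕ) * Vm P D N (A u) j K := by
  unfold Bz Vm
  rw [sum_comm]
  refine sum_congr rfl fun u _ => ?_
  rw [mul_sum]

theorem eqz_qz {z : ℂ} {r p q : ℕ} (hr : 1 ≤ r) (h : z ^ r * (q : ℂ) = (p : ℂ)) :
    IsIntegral ℤ ((q : ℂ) * z) := by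
  refine IsIntegral.of_pow (show 0 < r by omega) ?_
  have e : ((q : ℂ) * z) ^ r = ((q ^ (r - 1) * p : ℕ) : ℂ) := by
    obtain ⟨s, rfl⟩ : ∃ s, r = s + 1 := ⟨r - 1, by omega⟩
    rw [Nat.cast_mul, Nat.cast_pow, ← h, mul_pow, Nat.add_sub_cancel]
    ring
  rw [e]
  exact isIntegral_natCast _

theorem eqz_pow {z : ℂ} {r p q : ℕ} (hr : 1 ≤ r) (h : z ^ r * (q : ℂ) = (p : ℂ)) (i : Fin r) :
    IsIntegral ℤ ((q : ℂ) ^ (r - 1) * z ^ (i : ℕ)) := by
  have e : (q : ℂ) ^ (r - 1) * z ^ (i : ℕ) = (q : ℂ) ^ (r - 1 - i) * ((q : ℂ) * z) ^ (i : ℕ) := by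
    have h1 : r - 1 = (r - 1 - (i : ℕ)) + (i : ℕ) := by
      have := i.isLt
      omega
    rw [mul_pow, ← mul_assoc, ← pow_add, ← h1]
  rw [e]
  exact ((isIntegral_natCast q).pow _).mul ((eqz_qz hr h).pow _)

theorem eqz_alg {x : ℂ} (h : IsIntegral ℤ x) : x ∈ AA := by
  rw [mem_algebraicClosure_iff]
  exact h.isAlgebraic.extendScalars Int.cast_injective

theorem eqz_mem {z : ℂ} {r p q : ℕ} (hr : 1 ≤ r) (hq : 1 ≤ q)
    (h : z ^ r * (q : ℂ) = (p : ℂ)) : z ∈ AA := by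
  have h1 : (q : ℂ) * z ∈ AA := eqz_alg (eqz_qz hr h)
  have h2 : (q : ℂ) ∈ AA := eqz_alg (isIntegral_natCast q)
  have h3 : (q : ℂ) ≠ 0 := by
    have : q ≠ 0 := by omega
    exact_mod_cast this
  have h4 : z = ((q : ℂ) * z) / (q : ℂ) := by
    field_simp
  rw [h4]
  exact div_mem h1 h2

theorem cell_zero_z (P : Fin m → Ptd n) (PP : Finset (∀ v, Fin (P v).d)) (hst : Stb P PP)
    {r p q : ℕ} (hr : 1 ≤ r) (hq : 1 ≤ q) (Z : ZD P PP r p q) (D N : Fin m → ℕ) {J : ℕ}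
    (A : Ix2 J r → Mo P N → ℤ) (l : ℕ) (K : Fin m → ℕ)
    (h : ∀ j ∈ PP, ‖(q : ℂ) ^ (r - 1) * ∑ ρ : (∀ v, Fin (P v).C.pd.e),
      Bz P D N A (Z.z j) j l (fun v => (P v).C.pd.e * K v + (ρ v : ℕ))‖ < 1) :
    ∀ j ∈ PP, ∀ ρ : (∀ v, Fin (P v).C.pd.e),
      Bz P D N A (Z.z j) j l (fun v => (P v).C.pd.e * K v + (ρ v : ℕ)) = 0 := by
  classical
  set c : Ix2 J r → ℂ := fun u => ((ex u).choose l : ℂ) with hc
  set V : (∀ v, Fin (P v).d) → ℂ := fun j => (q : ℂ) ^ (r - 1) *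
    ∑ u : Ix2 J r, c u * Z.z j ^ (u.2 : ℕ) * Vm P D N (A u) j K with hV
  have hq0 : (q : ℂ) ≠ 0 := by
    have : q ≠ 0 := by omega
    exact_mod_cast this
  have hz : ∀ j : {j // j ∈ PP}, V j.1 = 0 := by
    refine liou_zero (fun j : {j // j ∈ PP} => V j.1) ?_ ?_ ?_
    · intro j
      have e : V j.1 = ∑ u : Ix2 J r, c u * ((q : ℂ) ^ (r - 1) * Z.z j.1 ^ (u.2 : ℕ)) *
          Vm P D N (A u) j.1 K := by
        simp only [hV]
        rw [mul_sum]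
        refine sum_congr rfl fun u _ => ?_
        ring
      show IsIntegral ℤ (V j.1)
      rw [e]
      refine IsIntegral.sum _ fun u _ => ?_
      exact ((isIntegral_natCast _).mul (eqz_pow hr (Z.root j.1 j.2) u.2)).mul (Vm_int P D N (A u) j.1 K)
    · intro σ j
      choose π hπ using fun v : Fin m => perm_gal (P v).C.pd σ
      have hmem : (fun v => π v (j.1 v)) ∈ PP :=
        hst.1 σ j.1 j.2 (fun v => π v (j.1 v)) fun v k a ha => hπ v (j.1 v) k a ha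
      refine ⟨⟨fun v => π v (j.1 v), hmem⟩, fun a ha => ?_⟩
      set j' : ∀ v, Fin (P v).d := fun v => π v (j.1 v) with hj'
      have hg : ∀ (v : Fin m) (k : ℕ) (b : AA), (b : ℂ) = PowerSeries.coeff k ((P v).C.pd.x (j.1 v)) →
          σ b = PowerSeries.coeff k ((P v).C.pd.x (j' v)) := fun v k b hb => hπ v (j.1 v) k b hb
      obtain ⟨zj, hzj⟩ : ∃ zj : AA, (zj : ℂ) = Z.z j.1 :=
        ⟨⟨Z.z j.1, eqz_mem hr hq (Z.root j.1 j.2)⟩, rfl⟩
      obtain ⟨b, hb⟩ : ∃ b : Ix2 J r → AA, ∀ u, (b u : ℂ) = Vm P D N (A u) j.1 K :=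
        ⟨fun u => ⟨Vm P D N (A u) j.1 K, eqz_alg (Vm_int P D N (A u) j.1 K)⟩, fun u => rfl⟩
      have hσz : σ zj = Z.z j' := Z.gal σ j.1 j.2 j' hg zj hzj
      have hσb : ∀ u, σ (b u) = Vm P D N (A u) j' K := fun u =>
        Vm_gal P D N (A u) σ j.1 j' hg K (b u) (hb u)
      have ea : a = ((q : ℕ) : AA) ^ (r - 1) *
          ∑ u : Ix2 J r, (((ex u).choose l : ℕ) : AA) * zj ^ (u.2 : ℕ) * b u := by
        apply Subtype.ext
        rw [ha]
        simp only [hV, hc]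
        push_cast
        rw [hzj]
        congr 1
        refine sum_congr rfl fun u _ => ?_
        rw [hb u]
      show σ a = V j'
      rw [ea]
      simp only [map_mul, map_pow, map_sum, map_natCast, hσz, hσb, hV, hc]
    · intro j
      have h1 := h j.1 j.2
      rw [eqz_sum] at h1
      exact h1
  intro j hj
  refine fourier_m m (fun v => (P v).C.pd.e) (fun v => (P v).C.pd.e_pos)
    (fun ρ => Bz P D N A (Z.z j) j l (fun v => (P v).C.pd.e * K v + (ρ v : ℕ))) ?_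
  intro ζ hζ
  choose ρ hρ using fun v : Fin m => perm_rot (P v).C.pd (hζ v)
  have hmem : (fun v => ρ v (j v)) ∈ PP :=
    hst.2 ζ hζ j hj (fun v => ρ v (j v)) fun v => hρ v (j v)
  have h0 := hz ⟨fun v => ρ v (j v), hmem⟩
  have h1 : ∑ u : Ix2 J r, c u * Z.z (fun v => ρ v (j v)) ^ (u.2 : ℕ) *
      Vm P D N (A u) (fun v => ρ v (j v)) K = 0 := by
    rcases mul_eq_zero.1 h0 with h2 | h2
    · exact absurd h2 (pow_ne_zero _ hq0)
    · exact h2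
  rw [Z.rot ζ hζ j hj (fun v => ρ v (j v)) (fun v => hρ v (j v))] at h1
  rw [← h1]
  have e1 : ∀ u : Ix2 J r, c u * Z.z j ^ (u.2 : ℕ) * Vm P D N (A u) (fun v => ρ v (j v)) K =
      ∑ τ : (∀ v, Fin (P v).C.pd.e), (∏ v, ζ v ^ (τ v : ℕ)) *
        (c u * Z.z j ^ (u.2 : ℕ) * Bm P D N (A u) j fun v => (P v).C.pd.e * K v + (τ v : ℕ)) := by
    intro u
    rw [Vm_rot P D N (A u) hζ j (fun v => ρ v (j v)) (fun v => hρ v (j v)) K, mul_sum]
    refine sum_congr rfl fun τ _ => ?_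
    ring
  rw [sum_congr rfl fun u _ => e1 u, sum_comm]
  refine sum_congr rfl fun τ _ => ?_
  unfold Bz
  rw [mul_sum]

end Pool.Agent.H8.RZ
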