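import Pool.Agent.H97.NW.RPD

/-! # [H8 RZ EXD] Exceptional radicals: definition

`Big r n C T β`: some curve `F` of the class of `β` (irreducible over `ℚ`, total degree at most `n`, every
real point at infinity carries an `r`-th root of `β`), with coefficients at most `H`, has an integer point
of size larger than `(T H)^C`. -/

namespace Pool.Agent.H8.RZ

open Pool.Agent.H34.AC Pool.Agent.H97.NW

/-- the class of `β` contains a curve with an integer point larger than `(T H)^C` -/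
def Big (r n C T : ℕ) (β : ℚ) : Prop :=
  ∃ F : MvPolynomial (Fin 2) ℤ, Irreducible (MvPolynomial.map (Int.castRingHom ℚ) F) ∧
    F.totalDegree ≤ n ∧ INFN r β F ∧ ∃ H : ℕ, 2 ≤ H ∧ (∀ m, |F.coeff m| ≤ (H : ℤ)) ∧
      ∃ x y : ℤ, vl F x y = 0 ∧ (T * H) ^ C < max x.natAbs y.natAbs

theorem Big.mono {r n C C' T T' : ℕ} {β : ℚ}
    (h : ∀ H : ℕ, 2 ≤ H → (T * H) ^ C ≤ (T' * H) ^ C') (hb : Big r n C' T' β) :
    Big r n C T β := by
  obtain ⟨F, h1, h2, h3, H, h4, h5, x, y, h6, h7⟩ := hb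
  exact ⟨F, h1, h2, h3, H, h4, h5, x, y, h6, lt_of_le_of_lt (h H h4) h7⟩

end Pool.Agent.H8.RZ
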