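import Pool.Agent.H37.RR.SpZ

/-! # [H8 RZ SPZ] Special pairs do not exist (helper37)

The proof is in `Pool/Agent/H37/RR/SpZ.lean`. -/

namespace Pool.Agent.H8.RZ

open Finset Polynomial Pool.Agent.H72.ES Pool.Agent.H87.SA2 Pool.Agent.H8.AW Pool.Agent.H52.AC
  Pool.Agent.H97.NW H4AR

theorem spec_z (r n A : ℕ) (lam : ℝ) (hlam : 0 < lam) (hlam1 : lam ≤ 1) (hrl : 2 < r * lam) :
    ∃ c0 c1 : ℕ, ∀ (p q : ℕ), NP lam p q → ∀ (b0 b1 : ℚ), 0 < b0 → 0 < b1 →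
      b1 * (q : ℚ) = (p : ℚ) * b0 → ∀ (Q0 : RPt r n b0) (Q1 : RPt r n b1),
      Q0.P.Thr c1 → Q1.P.Thr c1 → (c1 : ℝ) ≤ Real.log q → c1 * Real.log q ≤ Q0.P.ell →
      c1 * Real.log q ≤ Q1.P.ell → ¬ Spc A c0 Q0.P.x Q1.P.x :=
  Pool.Agent.H37.RR.spec_z r n A lam hlam hlam1 hrl

end Pool.Agent.H8.RZ
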