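import Pool.Agent.H8.RZ.BLZ
import Pool.Agent.H8.RZ.SPZ

/-! # [H8 RZ PAR] Two radical pointed curves over neighbouring radicals repel each other (assembly) -/

namespace Pool.Agent.H8.RZ

open Finset Polynomial Pool.Agent.H72.ES Pool.Agent.H87.SA2 Pool.Agent.H8.AW Pool.Agent.H52.AC
  Pool.Agent.H97.NW H4AR

private theorem par_all2 {n : ℕ} (P : Fin 2 → Ptd n) (Q0 Q1 : Ptd n) (e0 : P 0 = Q0)
    (e1 : P 1 = Q1) (φ : Ptd n → Prop) (h0 : φ Q0) (h1 : φ Q1) (v : Fin 2) : φ (P v) := by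
  match v with
  | 0 => rw [e0]; exact h0
  | 1 => rw [e1]; exact h1

private theorem par_far {r n : ℕ} {lam γ R : ℝ} {c : ℕ} {p q : ℕ}
    (hfar : ∀ (P : Fin 2 → Ptd n) (PP : Finset (∀ v, Fin (P v).d)), Stb P PP →
      (fun v => (P v).i) ∈ PP →
      (1 + γ) * ((((2 : ℕ) : ℝ) + 1) ^ (2 + 1) * PP.card) ≤
        ((2 + 1).factorial : ℝ) * (r * lam * ∏ v, ((P v).d : ℝ)) →
      ∀ (p q : ℕ), NP lam p q → ∀ _ : ZD P PP r p q,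
      (∀ v, (P v).Thr c) → (c : ℝ) ≤ Real.log q → (∀ v, c * Real.log q ≤ (P v).ell) →
      ¬ ∀ i j : Fin 2, i < j → R * (P j).ell ≤ (P i).ell)
    (hr : 1 ≤ r) (hγr : (1 + γ) * 27 = 6 * (r * lam)) (hγ : 0 < γ)
    (hNP : NP lam p q) {b0 b1 : ℚ} (hb0 : 0 < b0) (hb1 : 0 < b1)
    (hb : b1 * (q : ℚ) = (p : ℚ) * b0) (Q0 : RPt r n b0) (Q1 : RPt r n b1)
    (hT0 : Q0.P.Thr c) (hT1 : Q1.P.Thr c) (hcq : (c : ℝ) ≤ Real.log q)
    (h0 : c * Real.log q ≤ Q0.P.ell) (h1 : c * Real.log q ≤ Q1.P.ell)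
    (hsep : R * Q1.P.ell ≤ Q0.P.ell) : False := by
  obtain ⟨P, e0, e1, PP, hst, hnear, ⟨Z⟩, hcard⟩ := prod_z hr hb0 hb1 hb Q0 Q1
  have hcardR : (PP.card : ℝ) ≤ ∏ v, ((P v).d : ℝ) := by exact_mod_cast hcard
  refine hfar P PP hst hnear ?_ p q hNP Z ?_ hcq ?_ ?_
  · have h2 : (1 + γ) * ((((2 : ℕ) : ℝ) + 1) ^ (2 + 1) * (PP.card : ℝ)) =
        ((1 + γ) * 27) * PP.card := by
      push_cast
      ring
    have h3 : ((2 + 1).factorial : ℝ) * (r * lam * ∏ v, ((P v).d : ℝ)) =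
        ((1 + γ) * 27) * ∏ v, ((P v).d : ℝ) := by
      rw [hγr]
      have : ((2 + 1).factorial : ℝ) = 6 := by norm_num [Nat.factorial]
      rw [this]
      ring
    rw [h2, h3]
    exact mul_le_mul_of_nonneg_left hcardR (by positivity)
  · exact par_all2 P _ _ e0 e1 (fun Q => Q.Thr c) hT0 hT1
  · exact par_all2 P _ _ e0 e1 (fun Q => c * Real.log q ≤ Q.ell) h0 h1
  · intro i j hij
    match i, j with
    | 0, 0 => exact absurd hij (lt_irrefl _)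
    | 0, 1 => rw [e0, e1]; exact hsep
    | 1, 0 => exact absurd hij (by decide)
    | 1, 1 => exact absurd hij (lt_irrefl _)

theorem pair_rpt (r n : ℕ) (hr : 1 ≤ r) (hn : 4 ≤ n) (lam : ℝ) (hlam : 0 < lam)
    (hlam1 : lam ≤ 1) (hrl : 9 / 2 < r * lam) :
    ∃ c : ℕ, cA n ≤ c ∧ ∀ (p q : ℕ), NP lam p q → ∀ (b0 b1 : ℚ), 0 < b0 → 0 < b1 →
      b1 * (q : ℚ) = (p : ℚ) * b0 → ∀ (Q0 : RPt r n b0) (Q1 : RPt r n b1),
      Q0.P.Thr c → Q1.P.Thr c → (c : ℝ) ≤ Real.log q → (c : ℝ) ≤ Real.log p →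
      c * Real.log q ≤ Q0.P.ell → c * Real.log q ≤ Q1.P.ell →
      c * Real.log p ≤ Q0.P.ell → c * Real.log p ≤ Q1.P.ell → False := by
  obtain ⟨γ, hγdef⟩ : ∃ γ : ℝ, γ = 2 * (r * lam) / 9 - 1 := ⟨_, rfl⟩
  have hγ : 0 < γ := by rw [hγdef]; linarith
  have hγr : (1 + γ) * 27 = 6 * (r * lam) := by rw [hγdef]; ring
  obtain ⟨R, cF, hR, hcF, hfar⟩ := far_z 2 n r (by norm_num) hn hr lam hlam hlam1 γ hγ
  obtain ⟨As, hblk⟩ := block_z n r hn hr lam γ R hlam hlam1 hγ hR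
  obtain ⟨c0, c1, hspec⟩ := spec_z r n As lam hlam hlam1 (by linarith)
  obtain ⟨cB, hcB, hblk'⟩ := hblk c0
  obtain ⟨c, hc⟩ : ∃ c, c = max cF (max c1 cB) := ⟨_, rfl⟩
  have hcF' : cF ≤ c := hc ▸ le_max_left _ _
  have hc1' : c1 ≤ c := hc ▸ (le_max_left _ _).trans (le_max_right _ _)
  have hcB' : cB ≤ c := hc ▸ (le_max_right _ _).trans (le_max_right _ _)
  refine ⟨c, hcF.trans hcF', ?_⟩
  intro p q hNP b0 b1 hb0 hb1 hb Q0 Q1 hT0 hT1 hcq hcp hq0 hq1 hp0 hp1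
  have hmono : ∀ {c' : ℕ}, c' ≤ c → (c' : ℝ) ≤ Real.log q := fun h =>
    le_trans (by exact_mod_cast h) hcq
  have hmonop : ∀ {c' : ℕ}, c' ≤ c → (c' : ℝ) ≤ Real.log p := fun h =>
    le_trans (by exact_mod_cast h) hcp
  have hlq : 0 ≤ Real.log q := (Nat.cast_nonneg _).trans hcq
  have hlp : 0 ≤ Real.log p := (Nat.cast_nonneg _).trans hcp
  have hmul : ∀ {c' : ℕ} {L e : ℝ}, c' ≤ c → 0 ≤ L → c * L ≤ e → c' * L ≤ e := by
    intro c' L e h hL he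
    refine le_trans (mul_le_mul_of_nonneg_right ?_ hL) he
    exact_mod_cast h
  rcases le_total (R * Q1.P.ell) Q0.P.ell with hsep | hsep
  · exact par_far hfar hr hγr hγ hNP hb0 hb1 hb Q0 Q1 (Q0.P.thr_mono hcF' hT0)
      (Q1.P.thr_mono hcF' hT1) (hmono hcF') (hmul hcF' hlq hq0) (hmul hcF' hlq hq1) hsep
  rcases le_total (R * Q0.P.ell) Q1.P.ell with hsep' | hsep'
  · refine par_far hfar hr hγr hγ hNP.swap hb1 hb0 ?_ Q1 Q0 (Q1.P.thr_mono hcF' hT1)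
      (Q0.P.thr_mono hcF' hT0) (hmonop hcF') (hmul hcF' hlp hp1) (hmul hcF' hlp hp0) hsep'
    rw [mul_comm (b0 : ℚ), mul_comm ((q : ℕ) : ℚ)]
    exact hb.symm
  obtain ⟨P, e0, e1, PP, hst, hnear, ⟨Z⟩, hcard⟩ := prod_z hr hb0 hb1 hb Q0 Q1
  have hcardR : (PP.card : ℝ) ≤ ∏ v, ((P v).d : ℝ) := by exact_mod_cast hcard
  have hS := hblk' P PP hst hnear ?_ p q hNP Z ?_ (hmono hcB') ?_ ?_ ?_
  · rw [e0, e1] at hS
    exact hspec p q hNP b0 b1 hb0 hb1 hb Q0 Q1 (Q0.P.thr_mono hc1' hT0)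
      (Q1.P.thr_mono hc1' hT1) (hmono hc1') (hmul hc1' hlq hq0) (hmul hc1' hlq hq1) hS
  · calc (1 + γ) * (27 * (PP.card : ℝ)) = ((1 + γ) * 27) * PP.card := by ring
      _ ≤ ((1 + γ) * 27) * ∏ v, ((P v).d : ℝ) :=
          mul_le_mul_of_nonneg_left hcardR (by positivity)
      _ = 6 * (r * lam * ∏ v, ((P v).d : ℝ)) := by rw [hγr]; ring
  · exact par_all2 P _ _ e0 e1 (fun Q => Q.Thr cB) (Q0.P.thr_mono hcB' hT0)
      (Q1.P.thr_mono hcB' hT1)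
  · exact par_all2 P _ _ e0 e1 (fun Q => cB * Real.log q ≤ Q.ell) (hmul hcB' hlq hq0)
      (hmul hcB' hlq hq1)
  · rw [e0, e1]; exact hsep
  · rw [e0, e1]; exact hsep'

end Pool.Agent.H8.RZ
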