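import Pool.Agent.H37.RR.Red

/-! # [H8 RZ RDP] From an arbitrary curve to a radical pointed curve, every `β > 0` (helper37)

The proof is in `Pool/Agent/H37/RR/Red.lean`: `redX` (`Pool/Agent/H97/NW/RDX.lean`) without the irreducibility of `X^r - β` and with `1 ≤ r`. -/

namespace Pool.Agent.H8.RZ

open Finset Polynomial Pool.Agent.H72.ES Pool.Agent.H87.SA2 Pool.Agent.H8.AW Pool.Agent.H52.AC
  Pool.Agent.H34.AC Pool.Agent.H97.NW

theorem redP (r n : ℕ) (hr : 1 ≤ r) (hn : 3 ≤ n) (c : ℕ) (hc : cA (n * (n + 1)) ≤ c) (β : ℚ)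
    (hβ : 0 < β) (F : MvPolynomial (Fin 2) ℤ)
    (hirr : Irreducible (MvPolynomial.map (Int.castRingHom ℚ) F)) (hdeg : F.totalDegree ≤ n)
    (hinf : INFN r β F) (H : ℕ) (hH2 : 2 ≤ H) (hH : ∀ m, |F.coeff m| ≤ (H : ℤ)) (x y : ℤ)
    (h0 : vl F x y = 0) (hbig : H ^ (cR n * c * (2 * n + 3)) < max x.natAbs y.natAbs) :
    ∃ Q : RPt r (n * (n + 1)) β, Q.P.Thr c ∧
      ((max x.natAbs y.natAbs : ℕ) : ℝ) ≤ |(Q.P.x : ℝ)| ^ (2 * n + 3) :=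
  Pool.Agent.H37.RR.redP r n hr hn c hc β hβ F hirr hdeg hinf H hH2 hH x y h0 hbig

end Pool.Agent.H8.RZ
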