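import Pool.Agent.H8.RZ.EXD
import Pool.Agent.H8.RZ.RDP
import Pool.Agent.H8.RZ.PAR

/-! # [H8 RZ FNZ] Two neighbouring radicals are not both exceptional

`N = n (n+1) ≥ 12`, `c` from `pair_rpt r N` (so `cA N ≤ c`). `C = max (cR n * c * (2n+3) + 2 c (2n+3)) (2 * ⌈Real.exp (c + 1)⌉₊)` (any larger number also works). Let `C ≤ q`, `F_v, H_v, (x_v, y_v)` be given by `Big` for `b0` and `b1`.
`redP` for each (`H^(cR n c (2n+3)) ≤ (q H)^C < max`): `Q_v : RPt r N b_v`, `Thr c`, `max ≤ |x|^(2n+3)`. `(q^(2c))^(2n+3) ≤ (q H)^C < |x|^(2n+3)`, so `q^(2c) ≤ |x|` (`pow_lt_pow_left` contrapositive), `2 c log q ≤ ell`. `log q ≥ c + 1` and `p ≥ q/2` give `log p ≥ c`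
(`log 2 < 1`), `p ≤ 2q ≤ q²` gives `log p ≤ 2 log q`, so all hypotheses of `pair_rpt` hold. -/

namespace Pool.Agent.H8.RZ

open Polynomial Pool.Agent.H72.ES Pool.Agent.H87.SA2 Pool.Agent.H8.AW Pool.Agent.H52.AC
  Pool.Agent.H34.AC Pool.Agent.H97.NW

private theorem fnz_one (r n : ℕ) (hr : 1 ≤ r) (hn : 3 ≤ n) (c : ℕ) (hc : cA (n * (n + 1)) ≤ c)
    (C : ℕ) (hC1 : cR n * c * (2 * n + 3) ≤ C) (hC2 : 2 * c * (2 * n + 3) ≤ C) (q : ℕ)
    (hq : 1 ≤ q) (β : ℚ) (hβ : 0 < β) (hB : Big r n C q β) :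
    ∃ Q : RPt r (n * (n + 1)) β, Q.P.Thr c ∧ 2 * c * Real.log q ≤ Q.P.ell := by
  obtain ⟨F, h1, h2, h3, H, h4, h5, x, y, h6, h7⟩ := hB
  have hqH : 1 ≤ q * H := Nat.one_le_iff_ne_zero.mpr (by positivity)
  have hHq : H ≤ q * H := Nat.le_mul_of_pos_left H hq
  have hbig : H ^ (cR n * c * (2 * n + 3)) < max x.natAbs y.natAbs := by
    refine lt_of_le_of_lt ?_ h7
    exact (Nat.pow_le_pow_left hHq _).trans (Nat.pow_le_pow_right hqH hC1)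
  obtain ⟨Q, hQ1, hQ2⟩ := redP r n hr hn c hc β hβ F h1 h2 h3 H h4 h5 x y h6 hbig
  refine ⟨Q, hQ1, ?_⟩
  have hq' : q ≤ q * H := Nat.le_mul_of_pos_right q (by omega)
  have hlt : (q ^ (2 * c)) ^ (2 * n + 3) < max x.natAbs y.natAbs := by
    refine lt_of_le_of_lt ?_ h7
    rw [← pow_mul]
    exact (Nat.pow_le_pow_left hq' _).trans (Nat.pow_le_pow_right hqH hC2)
  have hlt' : ((q : ℝ) ^ (2 * c)) ^ (2 * n + 3) < |(Q.P.x : ℝ)| ^ (2 * n + 3) := by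
    refine lt_of_lt_of_le ?_ hQ2
    exact_mod_cast hlt
  have hle : (q : ℝ) ^ (2 * c) < |(Q.P.x : ℝ)| := lt_of_pow_lt_pow_left₀ _ (abs_nonneg _) hlt'
  have hqpos : (0 : ℝ) < q := by exact_mod_cast hq
  unfold Ptd.ell
  have h8 : Real.log ((q : ℝ) ^ (2 * c)) ≤ Real.log |(Q.P.x : ℝ)| :=
    Real.log_le_log (by positivity) hle.le
  rw [Real.log_pow] at h8
  push_cast at h8
  exact h8

theorem pair_big (r n : ℕ) (hr : 1 ≤ r) (hn : 3 ≤ n) (lam : ℝ) (hlam : 0 < lam)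
    (hlam1 : lam ≤ 1) (hrl : 9 / 2 < r * lam) :
    ∃ C : ℕ, ∀ (p q : ℕ), NP lam p q → C ≤ q → ∀ (b0 b1 : ℚ), 0 < b0 → 0 < b1 →
      b1 * (q : ℚ) = (p : ℚ) * b0 → Big r n C q b0 → Big r n C q b1 → False := by
  have hN : 4 ≤ n * (n + 1) := by nlinarith
  obtain ⟨c, hc, hpair⟩ := pair_rpt r (n * (n + 1)) hr hN lam hlam hlam1 hrl
  refine ⟨cR n * c * (2 * n + 3) + 2 * c * (2 * n + 3) + 2 * ⌈Real.exp (c + 1)⌉₊, ?_⟩
  intro p q hNP hCq b0 b1 hb0 hb1 hb hB0 hB1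
  have hq1 : 1 ≤ q := hNP.q1
  have hp1 : 1 ≤ p := hNP.p1
  have hC1 : cR n * c * (2 * n + 3) ≤
      cR n * c * (2 * n + 3) + 2 * c * (2 * n + 3) + 2 * ⌈Real.exp (c + 1)⌉₊ := by
    generalize cR n * c * (2 * n + 3) = a1
    generalize 2 * c * (2 * n + 3) = a2
    omega
  have hC2 : 2 * c * (2 * n + 3) ≤
      cR n * c * (2 * n + 3) + 2 * c * (2 * n + 3) + 2 * ⌈Real.exp (c + 1)⌉₊ := by
    generalize cR n * c * (2 * n + 3) = a1
    generalize 2 * c * (2 * n + 3) = a2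
    omega
  have hC3 : 2 * ⌈Real.exp (c + 1)⌉₊ ≤ q := by
    refine le_trans ?_ hCq
    generalize cR n * c * (2 * n + 3) = a1
    generalize 2 * c * (2 * n + 3) = a2
    omega
  obtain ⟨Q0, hT0, hl0⟩ := fnz_one r n hr hn c hc _ hC1 hC2 q hq1 b0 hb0 hB0
  obtain ⟨Q1, hT1, hl1⟩ := fnz_one r n hr hn c hc _ hC1 hC2 q hq1 b1 hb1 hB1
  have hqpos : (0 : ℝ) < q := by exact_mod_cast hq1
  have hppos : (0 : ℝ) < p := by exact_mod_cast hp1
  have hexp : 2 * Real.exp (c + 1) ≤ q := by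
    have h1 : Real.exp (c + 1) ≤ (⌈Real.exp (c + 1)⌉₊ : ℝ) := Nat.le_ceil _
    have h2 : ((2 * ⌈Real.exp (c + 1)⌉₊ : ℕ) : ℝ) ≤ q := by exact_mod_cast hC3
    push_cast at h2
    linarith
  have hqp : (q : ℝ) ≤ 2 * p := by exact_mod_cast hNP.qp
  have hpq : (p : ℝ) ≤ 2 * q := by exact_mod_cast hNP.pq
  have hexpp : Real.exp (c + 1) ≤ p := by linarith
  have hexp1 : Real.exp (c + 1) ≤ q := by
    have := Real.exp_pos ((c : ℝ) + 1)
    linarith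
  have hlq : (c : ℝ) + 1 ≤ Real.log q := by
    rw [Real.le_log_iff_exp_le hqpos]
    exact hexp1
  have hlp : (c : ℝ) + 1 ≤ Real.log p := by
    rw [Real.le_log_iff_exp_le hppos]
    exact hexpp
  have hcnn : (0 : ℝ) ≤ c := Nat.cast_nonneg _
  have hlog2 : Real.log 2 < 1 := by
    have := Real.log_two_lt_d9
    linarith
  have hlpq : Real.log p ≤ 2 * Real.log q := by
    have h1 : Real.log p ≤ Real.log (2 * q) := Real.log_le_log hppos hpq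
    rw [Real.log_mul (by norm_num) hqpos.ne'] at h1
    linarith
  refine hpair p q hNP b0 b1 hb0 hb1 hb Q0 Q1 hT0 hT1 (by linarith) (by linarith) ?_ ?_ ?_ ?_
  · nlinarith
  · nlinarith
  · nlinarith
  · nlinarith

end Pool.Agent.H8.RZ
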