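import Pool.Agent.H8.RZ.PDL

/-! # [H8 RZ INT] At most one exceptional `a` in every short interval

`C1` from `pair_delta` for `δ`; `C` large: `C ≥ 2 C1`, `X ≥ C` implies `X^(1-δ) ≥ C1`, `X^δ ≤ X`, `X ≥ 2`. Let `a0 ≠ a1` be in `[X, X + X^δ]`, `g = gcd a0 a1`, `q = a0/g`, `p = a1/g` coprime, `p ≠ q`. `g ∣ a1 - a0 ≠ 0`, so `g ≤ |a1 - a0| ≤ X^δ` and
`q ≥ X/g ≥ X^(1-δ) ≥ C1`. `|p - q| = |a1 - a0|/g ≤ X^δ/g ≤ (X/g)^δ ≤ q^δ` (`g^δ ≤ g`). `b0 = a0/b`, `b1 = a1/b`: `b1 q = p b0`. `Big r n C X` implies `Big r n C1 q` (`Big.mono`): `q ≤ a0 ≤ 2X ≤ X²`, `(q H)^C1 ≤ (X² H)^C1 ≤ (X H)^(2 C1) ≤ (X H)^C`.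

`int_gap`: the same for two exceptional `a0 < a1` up to `T` (no interval given): if `C ≤ a0`, `a1 ≤ T` and `Big r n C T (a0/b)`, `Big r n C T (a1/b)` then `a1 - a0 > a0^δ`: apply `int_one` with `X = a0` (`Big.mono`, `a0 ≤ T`). -/

namespace Pool.Agent.H8.RZ

open Pool.Agent.H34.AC Pool.Agent.H97.NW

theorem int_one (r n : ℕ) (hr : 5 ≤ r) (hn : 3 ≤ n) (δ : ℝ) (hδ : 0 < δ)
    (hδ1 : δ < 1 - 9 / (2 * r)) :
    ∃ C : ℕ, 1 ≤ C ∧ ∀ X b : ℕ, C ≤ X → 1 ≤ b → ∀ a0 a1 : ℕ, X ≤ a0 → X ≤ a1 →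
      (a0 : ℝ) ≤ X + (X : ℝ) ^ δ → (a1 : ℝ) ≤ X + (X : ℝ) ^ δ →
      Big r n C X ((a0 : ℚ) / b) → Big r n C X ((a1 : ℚ) / b) → a0 = a1 := by
  obtain ⟨C1, hC1, hpd⟩ := pair_delta r n hr hn δ hδ hδ1
  have hr0 : (0:ℝ) < r := by
    have : 0 < r := by omega
    exact_mod_cast this
  have hδlt : δ < 1 := by
    have : (0:ℝ) < 9 / (2 * r) := by positivity
    linarith
  have h1δ : 0 < 1 - δ := by linarith
  set C2 : ℕ := ⌈(C1 : ℝ) ^ (1 / (1 - δ))⌉₊ with hC2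
  refine ⟨2 * C1 + 2 + C2, by omega, ?_⟩
  intro X b hX hb a0 a1 hXa0 hXa1 ha0 ha1 hB0 hB1
  by_contra hne
  have hX2 : 2 ≤ X := by omega
  have hXpos : (0:ℝ) < X := by
    have : 0 < X := by omega
    exact_mod_cast this
  have hX1 : (1:ℝ) ≤ X := by
    have : 1 ≤ X := by omega
    exact_mod_cast this
  -- X^(1-δ) ≥ C1
  have hXC : (C1 : ℝ) ≤ (X : ℝ) ^ (1 - δ) := by
    have h1 : (C1 : ℝ) ^ (1 / (1 - δ)) ≤ X := by
      calc (C1 : ℝ) ^ (1 / (1 - δ)) ≤ (C2 : ℝ) := Nat.le_ceil _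
        _ ≤ X := by exact_mod_cast (by omega : C2 ≤ X)
    have h2 : ((C1 : ℝ) ^ (1 / (1 - δ))) ^ (1 - δ) ≤ (X : ℝ) ^ (1 - δ) :=
      Real.rpow_le_rpow (by positivity) h1 h1δ.le
    rw [← Real.rpow_mul (by positivity), one_div, inv_mul_cancel₀ h1δ.ne', Real.rpow_one] at h2
    exact h2
  have hXδ : (X : ℝ) ^ δ ≤ X := by
    calc (X : ℝ) ^ δ ≤ (X : ℝ) ^ (1:ℝ) := Real.rpow_le_rpow_of_exponent_le hX1 hδlt.le
      _ = X := Real.rpow_one _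
  -- gcd
  obtain ⟨g, q, p, hgpos, hcop, hq, hp⟩ :
      ∃ g q p : ℕ, 0 < g ∧ Nat.Coprime p q ∧ a0 = g * q ∧ a1 = g * p := by
    have hg : 0 < Nat.gcd a0 a1 := Nat.gcd_pos_of_pos_left _ (by omega)
    refine ⟨Nat.gcd a0 a1, a0 / Nat.gcd a0 a1, a1 / Nat.gcd a0 a1, hg, ?_, ?_, ?_⟩
    · exact (Nat.coprime_div_gcd_div_gcd hg).symm
    · exact (Nat.mul_div_cancel' (Nat.gcd_dvd_left a0 a1)).symm
    · exact (Nat.mul_div_cancel' (Nat.gcd_dvd_right a0 a1)).symm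
  have hpq : p ≠ q := by
    rintro rfl
    exact hne (by rw [hq, hp])
  have hgR : (0:ℝ) < g := by exact_mod_cast hgpos
  have hg1 : (1:ℝ) ≤ g := by exact_mod_cast hgpos
  have ha0R : (a0 : ℝ) = g * q := by rw [hq]; push_cast; ring
  have ha1R : (a1 : ℝ) = g * p := by rw [hp]; push_cast; ring
  have hXa0R : (X : ℝ) ≤ a0 := by exact_mod_cast hXa0
  have hXa1R : (X : ℝ) ≤ a1 := by exact_mod_cast hXa1
  have hdiff : |(a1 : ℝ) - a0| ≤ (X : ℝ) ^ δ := by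
    rw [abs_le]; constructor <;> linarith
  have hdiff' : |(a1 : ℝ) - a0| = g * |(p : ℝ) - q| := by
    rw [ha0R, ha1R, ← mul_sub, abs_mul, abs_of_pos hgR]
  have hpq1 : (1:ℝ) ≤ |(p : ℝ) - q| := by
    have h1 : ((p : ℤ) - q) ≠ 0 := by
      intro h
      apply hpq
      have : (p : ℤ) = q := by linarith
      exact_mod_cast this
    have h2 : (1 : ℤ) ≤ |(p : ℤ) - q| := Int.one_le_abs h1
    exact_mod_cast h2
  have hgX : (g : ℝ) ≤ (X : ℝ) ^ δ := by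
    calc (g : ℝ) = g * 1 := (mul_one _).symm
      _ ≤ g * |(p : ℝ) - q| := by gcongr
      _ = |(a1 : ℝ) - a0| := hdiff'.symm
      _ ≤ (X : ℝ) ^ δ := hdiff
  have hqX : (X : ℝ) / g ≤ q := by
    rw [div_le_iff₀ hgR]
    calc (X : ℝ) ≤ a0 := hXa0R
      _ = q * g := by rw [ha0R]; ring
  have hXg : (C1 : ℝ) ≤ (X : ℝ) / g := by
    rw [le_div_iff₀ hgR]
    calc (C1 : ℝ) * g ≤ (X : ℝ) ^ (1 - δ) * (X : ℝ) ^ δ := by gcongr
      _ = X := by rw [← Real.rpow_add hXpos]; simp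
  have hC1q : C1 ≤ q := by exact_mod_cast le_trans hXg hqX
  have hcl : |(p : ℝ) - q| ≤ (q : ℝ) ^ δ := by
    have h1 : |(p : ℝ) - q| ≤ (X : ℝ) ^ δ / g := by
      rw [le_div_iff₀ hgR, mul_comm, ← hdiff']
      exact hdiff
    have h2 : (X : ℝ) ^ δ / g ≤ ((X : ℝ) / g) ^ δ := by
      rw [Real.div_rpow hXpos.le hgR.le]
      have h3 : (g : ℝ) ^ δ ≤ g := by
        calc (g : ℝ) ^ δ ≤ (g : ℝ) ^ (1:ℝ) := Real.rpow_le_rpow_of_exponent_le hg1 hδlt.le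
          _ = g := Real.rpow_one _
      gcongr
    have h4 : ((X : ℝ) / g) ^ δ ≤ (q : ℝ) ^ δ :=
      Real.rpow_le_rpow (by positivity) hqX hδ.le
    exact h1.trans (h2.trans h4)
  have hbQ : (0 : ℚ) < b := by exact_mod_cast hb
  have hqpos : 0 < q := by
    rcases Nat.eq_zero_or_pos q with h | h
    · rw [h, mul_zero] at hq; omega
    · exact h
  have hppos : 0 < p := by
    rcases Nat.eq_zero_or_pos p with h | h
    · rw [h, mul_zero] at hp; omega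
    · exact h
  have ha0X2 : a0 ≤ 2 * X := by
    have : (a0 : ℝ) ≤ 2 * X := by linarith
    exact_mod_cast this
  have hqX2 : q ≤ X * X := by
    calc q ≤ g * q := Nat.le_mul_of_pos_left q hgpos
      _ = a0 := hq.symm
      _ ≤ 2 * X := ha0X2
      _ ≤ X * X := Nat.mul_le_mul_right X hX2
  have hmono : ∀ H : ℕ, 2 ≤ H → (q * H) ^ C1 ≤ (X * H) ^ (2 * C1 + 2 + C2) := by
    intro H hH
    have hXH : 1 ≤ X * H := Nat.one_le_iff_ne_zero.mpr (by positivity)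
    calc (q * H) ^ C1 ≤ ((X * H) * (X * H)) ^ C1 := by
          apply Nat.pow_le_pow_left
          calc q * H ≤ (X * X) * H := Nat.mul_le_mul_right H hqX2
            _ ≤ (X * X) * (H * H) := Nat.mul_le_mul_left _ (Nat.le_mul_self H)
            _ = (X * H) * (X * H) := by ring
      _ = (X * H) ^ (2 * C1) := by rw [← pow_two, ← pow_mul]
      _ ≤ (X * H) ^ (2 * C1 + 2 + C2) := Nat.pow_le_pow_right hXH (by omega)
  refine hpd p q hcop hpq hC1q hcl ((a0 : ℚ) / b) ((a1 : ℚ) / b) ?_ ?_ ?_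
    (hB0.mono hmono) (hB1.mono hmono)
  · apply div_pos _ hbQ
    have : 0 < a0 := by omega
    exact_mod_cast this
  · apply div_pos _ hbQ
    have : 0 < a1 := by omega
    exact_mod_cast this
  · rw [hq, hp]
    push_cast
    ring

theorem int_gap (r n : ℕ) (hr : 5 ≤ r) (hn : 3 ≤ n) (δ : ℝ) (hδ : 0 < δ)
    (hδ1 : δ < 1 - 9 / (2 * r)) :
    ∃ C : ℕ, 1 ≤ C ∧ ∀ T b : ℕ, 1 ≤ b → ∀ a0 a1 : ℕ, C ≤ a0 → a0 < a1 → a1 ≤ T →
      Big r n C T ((a0 : ℚ) / b) → Big r n C T ((a1 : ℚ) / b) →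
      (a0 : ℝ) ^ δ < (a1 : ℝ) - a0 := by
  obtain ⟨C, hC, h⟩ := int_one r n hr hn δ hδ hδ1
  refine ⟨C, hC, ?_⟩
  intro T b hb a0 a1 hCa hlt hT hB0 hB1
  by_contra hcon
  push Not at hcon
  have hmono : ∀ H : ℕ, 2 ≤ H → (a0 * H) ^ C ≤ (T * H) ^ C := by
    intro H _
    exact Nat.pow_le_pow_left (Nat.mul_le_mul_right H (by omega)) _
  have hpos : (0:ℝ) ≤ (a0 : ℝ) ^ δ := Real.rpow_nonneg (by positivity) _
  have := h a0 b hCa hb a0 a1 le_rfl hlt.le (by linarith) (by linarith)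
    (hB0.mono hmono) (hB1.mono hmono)
  omega

end Pool.Agent.H8.RZ
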