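import Pool.Agent.H8.RZ.MTD

/-! # [H8 RZ MEI] The eigenvector relation

`phiZ_rename`: `(phiZ ..).comp (rename castSucc) = (toS m).comp (phi P)` (`MvPolynomial.ringHom_ext`: constants `map_intCast`; `X v`: `rename_X`, `eval₂_X`, `Fin.snoc_castSucc`; `phi` on `X v` is
`eps v (xs ..)`). `phiZ_last`: `phiZ (X (Fin.last m)) = qp * zt^r` (`Fin.snoc_last`).
`MZ_eig`: `phiZ (MZ a b) = ∑_u (qp zt^r)^(u.1) * phiZ (cfz ..) * toS (phi P (MG (A u) a.1 b.1))`. For fixed `u` and `b.1`: `∑_(b.2 : Fin r) phiZ (cfz u.2 a.2 b.2) * zt^(b.2) = q zt^(u.2) zt^(a.2)`: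
exactly one `b.2` contributes, `b.2 = u.2 + a.2` if `u.2 + a.2 < r`, else `b.2 = u.2 + a.2 - r` (`phiZ (p X_last) = p qp zt^r = q zt^r` as `p * qp = q`, `p ≠ 0`; the two cases exclude each other since `b.2 < r ≤ u.2 + a.2` in the second
and `u.2 + a.2 = b.2 + r ≥ r` is impossible in the first). `∑_(b.1) toS (phi (MG ..)) toS (bet b.1) = toS (gl (A u)) toS (bet a.1)` by `MG_eig`. Sum over `u` (`Fintype.sum_prod_type`, `Finset.sum_comm`).
`coeff_gZ`: `coeff K (coeff l gZ) = q ∑_u (q/p)^(u.1) (ex u).choose l * Lm P N (A u) K` (`zt^(u.2) (qp zt^r)^(u.1) = qp^(u.1) zt^(ex u)`, `zt^e` has `coeff l = e.choose l` (`PowerSeries.coeff_one_add_X_pow`-like, or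
`(1 + X)^e` from `Polynomial.coeff_one_add_X_pow`), `qp` and `toS` are constants `C`, `coeff_gl`, `MvPowerSeries.coeff_map`), multiply by `p^J`: `(q/p)^s p^J = q^s p^(J-s)`, `s ≤ J`. -/

namespace Pool.Agent.H8.RZ

open Finset Polynomial Pool.Agent.H72.ES Pool.Agent.H87.SA2 Pool.Agent.H8.AW Pool.Agent.H52.AC
  Pool.Agent.H97.NW H4AR

variable {m n : ℕ}

private theorem mei_C (r p q : ℕ) (P : Fin m → Ptd n) (a : ℤ) :
    phiZ r p q P (MvPolynomial.C a) = (a : SS m) := by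
  unfold phiZ
  rw [MvPolynomial.coe_eval₂Hom, MvPolynomial.eval₂_C, eq_intCast]

private theorem mei_X (r p q : ℕ) (P : Fin m → Ptd n) (v : Fin m) :
    phiZ r p q P (MvPolynomial.X (Fin.castSucc v)) = toS m (eps v (xs (P v).x (P v).kap)) := by
  unfold phiZ
  rw [MvPolynomial.coe_eval₂Hom, MvPolynomial.eval₂_X, Fin.snoc_castSucc]

private theorem mei_phi_C (P : Fin m → Ptd n) (a : ℤ) :
    phi P (MvPolynomial.C a) = (a : MvPowerSeries (Fin m) ℤ) := by
  unfold phi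
  rw [MvPolynomial.coe_eval₂Hom, MvPolynomial.eval₂_C, eq_intCast]

private theorem mei_phi_X (P : Fin m → Ptd n) (v : Fin m) :
    phi P (MvPolynomial.X v) = eps v (xs (P v).x (P v).kap) := by
  unfold phi
  rw [MvPolynomial.coe_eval₂Hom, MvPolynomial.eval₂_X]

theorem phiZ_rename (r p q : ℕ) (P : Fin m → Ptd n) (f : MvPolynomial (Fin m) ℤ) :
    phiZ r p q P (MvPolynomial.rename Fin.castSucc f) = toS m (phi P f) := by
  have h : (phiZ r p q P).comp
      (MvPolynomial.rename (R := ℤ) (Fin.castSucc : Fin m → Fin (m + 1))).toRingHom =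
      (toS m).comp (phi P) := by
    apply MvPolynomial.ringHom_ext
    · intro a
      simp only [RingHom.comp_apply, AlgHom.toRingHom_eq_coe, RingHom.coe_coe,
        MvPolynomial.rename_C]
      rw [mei_C, mei_phi_C, map_intCast]
    · intro v
      simp only [RingHom.comp_apply, AlgHom.toRingHom_eq_coe, RingHom.coe_coe,
        MvPolynomial.rename_X]
      rw [mei_X, mei_phi_X]
  exact RingHom.congr_fun h f

theorem phiZ_last (r p q : ℕ) (P : Fin m → Ptd n) :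
    phiZ r p q P (MvPolynomial.X (Fin.last m)) = qp m p q * zt m ^ r := by
  unfold phiZ
  rw [MvPolynomial.coe_eval₂Hom, MvPolynomial.eval₂_X, Fin.snoc_last]

private theorem mei_pq (m : ℕ) {p q : ℕ} (hp : 1 ≤ p) : (p : SS m) * qp m p q = (q : SS m) := by
  unfold qp
  have h1 : (p : SS m) = PowerSeries.C (R := RR m) (algebraMap ℚ (RR m) (p : ℚ)) := by
    rw [map_natCast, map_natCast]
  have h2 : (q : SS m) = PowerSeries.C (R := RR m) (algebraMap ℚ (RR m) (q : ℚ)) := by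
    rw [map_natCast, map_natCast]
  have hp0 : (p : ℚ) ≠ 0 := by
    have : 0 < p := hp
    positivity
  rw [h1, h2, ← map_mul, ← map_mul]
  congr 2
  field_simp

private theorem mei_sum {p q : ℕ} (hp : 1 ≤ p) (P : Fin m → Ptd n) {r : ℕ} (i a : Fin r) :
    ∑ b : Fin r, phiZ r p q P (cfz m r p q (i : ℕ) (a : ℕ) (b : ℕ)) * zt m ^ (b : ℕ) =
      (q : SS m) * (zt m ^ (i : ℕ) * zt m ^ (a : ℕ)) := by
  by_cases h : (i : ℕ) + (a : ℕ) < r
  · rw [Finset.sum_eq_single (⟨(i : ℕ) + (a : ℕ), h⟩ : Fin r)]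
    · unfold cfz
      rw [if_pos rfl, mei_C, pow_add]
      push_cast
      ring
    · intro b _ hb
      have h1 : (i : ℕ) + (a : ℕ) ≠ (b : ℕ) := by
        intro h2
        apply hb
        apply Fin.ext
        exact h2.symm
      have h3 : (i : ℕ) + (a : ℕ) ≠ (b : ℕ) + r := by
        omega
      unfold cfz
      rw [if_neg h1, if_neg h3, map_zero, zero_mul]
    · intro h2
      exact absurd (Finset.mem_univ _) h2
  · have hlt : (i : ℕ) + (a : ℕ) - r < r := by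
      have := i.isLt
      have := a.isLt
      omega
    rw [Finset.sum_eq_single (⟨(i : ℕ) + (a : ℕ) - r, hlt⟩ : Fin r)]
    · unfold cfz
      have h1 : (i : ℕ) + (a : ℕ) ≠ (i : ℕ) + (a : ℕ) - r := by
        have := i.isLt
        omega
      have h2 : (i : ℕ) + (a : ℕ) = (i : ℕ) + (a : ℕ) - r + r := by
        omega
      rw [if_neg h1, if_pos h2, map_mul, mei_C, phiZ_last]
      have h3 : zt m ^ (i : ℕ) * zt m ^ (a : ℕ) = zt m ^ r * zt m ^ ((i : ℕ) + (a : ℕ) - r) := by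
        rw [← pow_add, ← pow_add]
        congr 1
        omega
      rw [h3, ← mei_pq m hp]
      push_cast
      ring
    · intro b _ hb
      have h1 : (i : ℕ) + (a : ℕ) ≠ (b : ℕ) := by
        have := b.isLt
        omega
      have h3 : (i : ℕ) + (a : ℕ) ≠ (b : ℕ) + r := by
        intro h4
        apply hb
        apply Fin.ext
        show (b : ℕ) = (i : ℕ) + (a : ℕ) - r
        omega
      unfold cfz
      rw [if_neg h1, if_neg h3, map_zero, zero_mul]
    · intro h2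
      exact absurd (Finset.mem_univ _) h2

private theorem mei_choose {R : Type*} [CommRing R] (e l : ℕ) :
    PowerSeries.coeff l ((1 + PowerSeries.X : PowerSeries R) ^ e) = ((e.choose l : ℕ) : R) := by
  have h : ((1 + PowerSeries.X : PowerSeries R) ^ e) =
      (((1 + Polynomial.X : Polynomial R) ^ e : Polynomial R) : PowerSeries R) := by
    rw [Polynomial.coe_pow, Polynomial.coe_add, Polynomial.coe_one, Polynomial.coe_X]
  rw [h, Polynomial.coeff_coe, Polynomial.coeff_one_add_X_pow]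

theorem MZ_eig {p q : ℕ} (hp : 1 ≤ p) (P : Fin m → Ptd n) (N : Fin m → ℕ) {J r : ℕ}
    (A : Ix2 J r → Mo P N → ℤ) (a : Bs P r) :
    ∑ b, phiZ r p q P (MZ p q P N A a b) * betZ P b = gZ p q P N A * betZ P a := by
  classical
  have hterm : ∀ u : Ix2 J r, ∑ b : Bs P r, (qp m p q * zt m ^ r) ^ (u.1 : ℕ) *
      (phiZ r p q P (cfz m r p q (u.2 : ℕ) (a.2 : ℕ) (b.2 : ℕ)) *
        toS m (phi P (MG P N (A u) a.1 b.1))) * (zt m ^ (b.2 : ℕ) * toS m (bet P b.1)) =
      (q : SS m) * (zt m ^ (u.2 : ℕ) * (qp m p q * zt m ^ r) ^ (u.1 : ℕ) *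
        toS m (gl P N (A u))) * (zt m ^ (a.2 : ℕ) * toS m (bet P a.1)) := by
    intro u
    have h1 : ∑ b : Bs P r, (qp m p q * zt m ^ r) ^ (u.1 : ℕ) *
      (phiZ r p q P (cfz m r p q (u.2 : ℕ) (a.2 : ℕ) (b.2 : ℕ)) *
        toS m (phi P (MG P N (A u) a.1 b.1))) * (zt m ^ (b.2 : ℕ) * toS m (bet P b.1)) =
        (qp m p q * zt m ^ r) ^ (u.1 : ℕ) *
        ((∑ b1 : (∀ v, Fin (P v).d), toS m (phi P (MG P N (A u) a.1 b1)) * toS m (bet P b1)) *
        (∑ b2 : Fin r, phiZ r p q P (cfz m r p q (u.2 : ℕ) (a.2 : ℕ) (b2 : ℕ)) *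
          zt m ^ (b2 : ℕ))) := by
      rw [Finset.sum_mul_sum, Finset.mul_sum, Fintype.sum_prod_type]
      refine Finset.sum_congr rfl fun b1 _ => ?_
      rw [Finset.mul_sum]
      refine Finset.sum_congr rfl fun b2 _ => ?_
      ring
    rw [h1, mei_sum hp]
    have h2 : ∑ b1 : (∀ v, Fin (P v).d), toS m (phi P (MG P N (A u) a.1 b1)) *
        toS m (bet P b1) = toS m (gl P N (A u)) * toS m (bet P a.1) := by
      rw [← map_mul, ← MG_eig, map_sum]
      refine Finset.sum_congr rfl fun b1 _ => ?_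
      rw [map_mul]
    rw [h2]
    ring
  have h0 : ∀ b : Bs P r, phiZ r p q P (MZ p q P N A a b) * betZ P b =
      ∑ u : Ix2 J r, (qp m p q * zt m ^ r) ^ (u.1 : ℕ) *
      (phiZ r p q P (cfz m r p q (u.2 : ℕ) (a.2 : ℕ) (b.2 : ℕ)) *
        toS m (phi P (MG P N (A u) a.1 b.1))) * (zt m ^ (b.2 : ℕ) * toS m (bet P b.1)) := by
    intro b
    unfold MZ betZ
    rw [map_sum, Finset.sum_mul]
    refine Finset.sum_congr rfl fun u _ => ?_
    rw [map_mul, map_mul, map_pow, phiZ_last, phiZ_rename]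
  rw [Finset.sum_congr rfl fun b _ => h0 b, Finset.sum_comm,
    Finset.sum_congr rfl fun u _ => hterm u]
  unfold gZ betZ
  rw [← Finset.sum_mul, ← Finset.mul_sum]

theorem coeff_gZ {p q : ℕ} (hp : 1 ≤ p) (P : Fin m → Ptd n) (N : Fin m → ℕ) {J r : ℕ}
    (A : Ix2 J r → Mo P N → ℤ) (l : ℕ) (K : Fin m →₀ ℕ) :
    (p : ℚ) ^ J * MvPowerSeries.coeff K (PowerSeries.coeff l (gZ p q P N A)) =
      (q : ℚ) * (Lz p q P N A l K : ℚ) := by
  classical
  have hp0 : (p : ℚ) ≠ 0 := by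
    have : 0 < p := hp
    positivity
  have h1 : ∀ u : Ix2 J r, MvPowerSeries.coeff K (PowerSeries.coeff l
      (zt m ^ (u.2 : ℕ) * (qp m p q * zt m ^ r) ^ (u.1 : ℕ) * toS m (gl P N (A u)))) =
      ((q : ℚ) / p) ^ (u.1 : ℕ) * (((ex u).choose l : ℕ) : ℚ) * ((Lm P N (A u) K : ℤ) : ℚ) := by
    intro u
    have h2 : zt m ^ (u.2 : ℕ) * (qp m p q * zt m ^ r) ^ (u.1 : ℕ) * toS m (gl P N (A u)) =
        PowerSeries.C (R := RR m) (algebraMap ℚ (RR m) (((q : ℚ) / p) ^ (u.1 : ℕ)) *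
          MvPowerSeries.map (Int.castRingHom ℚ) (gl P N (A u))) * zt m ^ (ex u) := by
      unfold qp toS ex
      rw [map_mul, map_pow, map_pow, RingHom.comp_apply, pow_add, pow_mul]
      ring
    rw [h2, PowerSeries.coeff_C_mul]
    unfold zt
    rw [mei_choose]
    have h3 : algebraMap ℚ (RR m) (((q : ℚ) / p) ^ (u.1 : ℕ)) *
          MvPowerSeries.map (Int.castRingHom ℚ) (gl P N (A u)) * (((ex u).choose l : ℕ) : RR m) =
        MvPowerSeries.C (((q : ℚ) / p) ^ (u.1 : ℕ) * (((ex u).choose l : ℕ) : ℚ)) *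
          MvPowerSeries.map (Int.castRingHom ℚ) (gl P N (A u)) := by
      rw [map_mul, map_natCast]
      have h4 : algebraMap ℚ (RR m) (((q : ℚ) / p) ^ (u.1 : ℕ)) =
        MvPowerSeries.C (((q : ℚ) / p) ^ (u.1 : ℕ)) := rfl
      rw [h4]
      ring
    rw [h3, MvPowerSeries.coeff_C_mul, MvPowerSeries.coeff_map, coeff_gl]
    rfl
  unfold gZ
  have h5 : (q : SS m) = PowerSeries.C (R := RR m) (MvPowerSeries.C ((q : ℕ) : ℚ)) := by
    rw [map_natCast, map_natCast]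
  rw [h5, PowerSeries.coeff_C_mul, MvPowerSeries.coeff_C_mul, map_sum, map_sum,
    Finset.sum_congr rfl fun u _ => h1 u]
  unfold Lz
  push_cast
  rw [Finset.mul_sum, Finset.mul_sum, Finset.mul_sum]
  refine Finset.sum_congr rfl fun u _ => ?_
  have h6 : (p : ℚ) ^ J = (p : ℚ) ^ (J - (u.1 : ℕ)) * (p : ℚ) ^ (u.1 : ℕ) := by
    rw [← pow_add]
    congr 1
    have := u.1.isLt
    omega
  rw [h6, div_pow]
  have h7 : (p : ℚ) ^ (u.1 : ℕ) ≠ 0 := pow_ne_zero _ hp0
  field_simp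

end Pool.Agent.H8.RZ
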