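import Pool.Agent.H8.RZ.MTD

/-! # [H8 RZ MSZ] Degrees and length of the matrix

`degreeOf` of a sum, product; `degreeOf v.castSucc (rename castSucc f) = degreeOf v f` (`MvPolynomial.degreeOf_rename_of_injective`, `Fin.castSucc_injective`), `≤ N v + n * n` by `MG_deg`; `degreeOf (Fin.last m) (rename castSucc f) = 0`
(the variable does not occur: `degreeOf_eq_zero` / `vars_rename`, or `MvPolynomial.degreeOf` through `support_rename_of_injective`), `degreeOf v (cfz ..) = 0` for `v ≠ last`, `≤ 1` for `v = last`.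
`l1`: `l1_sum_le`, `l1_mul_le` (`Pool/Agent/H4/AR`, as used in `MG_l1`), `l1 (X^s) ≤ 1`, `l1 (cfz ..) ≤ p + q`, `l1 (rename castSucc f) = l1 f` (`≤`; `l1_eq_sum` over the image support, `coeff_rename_mapDomain`), `MG_l1`; the number of
`u` is `(J+1) * r`. -/

namespace Pool.Agent.H8.RZ

open Finset Polynomial Pool.Agent.H72.ES Pool.Agent.H87.SA2 Pool.Agent.H8.AW Pool.Agent.H52.AC
  Pool.Agent.H97.NW H4AR

variable {m n : ℕ}

private theorem msz_last_ne (v : Fin m) : (v.castSucc : Fin (m + 1)) ≠ Fin.last m :=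
  (Fin.castSucc_lt_last v).ne

private theorem msz_cfz_deg (p q r : ℕ) (i a b : ℕ) (v : Fin m) :
    (cfz m r p q i a b).degreeOf v.castSucc = 0 := by
  unfold cfz
  split_ifs
  · exact MvPolynomial.degreeOf_C _ _
  · refine Nat.le_zero.mp ((MvPolynomial.degreeOf_C_mul_le _ _ _).trans ?_)
    rw [MvPolynomial.degreeOf_X_of_ne (msz_last_ne v)]
  · exact MvPolynomial.degreeOf_zero _

private theorem msz_cfz_last (p q r : ℕ) (i a b : ℕ) :
    (cfz m r p q i a b).degreeOf (Fin.last m) ≤ 1 := by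
  unfold cfz
  split_ifs
  · rw [MvPolynomial.degreeOf_C]
    exact zero_le_one
  · refine (MvPolynomial.degreeOf_C_mul_le _ _ _).trans ?_
    rw [MvPolynomial.degreeOf_X_self]
  · rw [MvPolynomial.degreeOf_zero]
    exact zero_le_one

private theorem msz_ren_last (f : MvPolynomial (Fin m) ℤ) :
    (MvPolynomial.rename Fin.castSucc f : MvPolynomial (Fin (m + 1)) ℤ).degreeOf (Fin.last m) = 0 := by
  classical
  rw [MvPolynomial.degreeOf_eq_sup]
  refine Nat.le_zero.mp (Finset.sup_le fun e he => ?_)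
  rw [MvPolynomial.support_rename_of_injective (Fin.castSucc_injective m), Finset.mem_image] at he
  obtain ⟨d, -, rfl⟩ := he
  rw [Finsupp.mapDomain_notin_range]
  rintro ⟨v, hv⟩
  exact msz_last_ne v hv

theorem MZ_deg (p q : ℕ) (P : Fin m → Ptd n) (N : Fin m → ℕ) {J r : ℕ}
    (A : Ix2 J r → Mo P N → ℤ) (a b : Bs P r) (v : Fin m) :
    (MZ p q P N A a b).degreeOf v.castSucc ≤ N v + n * n := by
  classical
  unfold MZ
  refine (MvPolynomial.degreeOf_sum_le _ _ _).trans (Finset.sup_le fun u _ => ?_)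
  refine (MvPolynomial.degreeOf_mul_le _ _ _).trans ?_
  have h1 : ((MvPolynomial.X (Fin.last m) : MvPolynomial (Fin (m + 1)) ℤ) ^ (u.1 : ℕ)).degreeOf
      v.castSucc = 0 := MvPolynomial.degreeOf_X_pow_of_ne _ (msz_last_ne v)
  rw [h1, zero_add]
  refine (MvPolynomial.degreeOf_mul_le _ _ _).trans ?_
  rw [msz_cfz_deg, zero_add, MvPolynomial.degreeOf_rename_of_injective (Fin.castSucc_injective m)]
  exact MG_deg P N (A u) a.1 b.1 v

theorem MZ_deg_last (p q : ℕ) (P : Fin m → Ptd n) (N : Fin m → ℕ) {J r : ℕ}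
    (A : Ix2 J r → Mo P N → ℤ) (a b : Bs P r) :
    (MZ p q P N A a b).degreeOf (Fin.last m) ≤ J + 1 := by
  classical
  unfold MZ
  refine (MvPolynomial.degreeOf_sum_le _ _ _).trans (Finset.sup_le fun u _ => ?_)
  refine (MvPolynomial.degreeOf_mul_le _ _ _).trans ?_
  have h1 : ((MvPolynomial.X (Fin.last m) : MvPolynomial (Fin (m + 1)) ℤ) ^ (u.1 : ℕ)).degreeOf
      (Fin.last m) ≤ J := by
    rw [MvPolynomial.degreeOf_X_self_pow]
    have := u.1.isLt
    omega
  refine add_le_add h1 ?_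
  refine (MvPolynomial.degreeOf_mul_le _ _ _).trans ?_
  rw [msz_ren_last, add_zero]
  exact msz_cfz_last p q r _ _ _

private theorem msz_l1_C {k : ℕ} (a : ℤ) :
    l1 (MvPolynomial.C a : MvPolynomial (Fin k) ℤ) ≤ |(a : ℝ)| := by
  classical
  have h : (MvPolynomial.C a : MvPolynomial (Fin k) ℤ).support ⊆ {0} := by
    intro e he
    rw [MvPolynomial.mem_support_iff, MvPolynomial.coeff_C] at he
    rw [Finset.mem_singleton]
    by_contra h
    exact he (if_neg fun h' => h h'.symm)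
  rw [l1_eq_sum _ {0} h, Finset.sum_singleton, MvPolynomial.coeff_C, if_pos rfl]

private theorem msz_l1_X {k : ℕ} (v : Fin k) : l1 (MvPolynomial.X v : MvPolynomial (Fin k) ℤ) ≤ 1 := by
  classical
  have h : (MvPolynomial.X v : MvPolynomial (Fin k) ℤ).support ⊆ {Finsupp.single v 1} := by
    rw [MvPolynomial.support_X]
  rw [l1_eq_sum _ _ h, Finset.sum_singleton, MvPolynomial.coeff_X, if_pos rfl, Int.cast_one, abs_one]

private theorem msz_l1_Xpow {k : ℕ} (v : Fin k) (a : ℕ) :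
    l1 ((MvPolynomial.X v : MvPolynomial (Fin k) ℤ) ^ a) ≤ 1 := by
  induction a with
  | zero => rw [pow_zero, l1_one]
  | succ a ih =>
    rw [pow_succ]
    refine (l1_mul_le _ _).trans ?_
    exact mul_le_one₀ ih (l1_nonneg _) (msz_l1_X v)

private theorem msz_l1_cfz (p q r : ℕ) (i a b : ℕ) : l1 (cfz m r p q i a b) ≤ (p : ℝ) + q := by
  have hp : (0 : ℝ) ≤ p := Nat.cast_nonneg p
  have hq : (0 : ℝ) ≤ q := Nat.cast_nonneg q
  unfold cfz
  split_ifs
  · refine (msz_l1_C _).trans ?_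
    rw [Int.cast_natCast, abs_of_nonneg hq]
    linarith
  · refine (l1_mul_le _ _).trans ?_
    have h1 : l1 (MvPolynomial.C (p : ℤ) : MvPolynomial (Fin (m + 1)) ℤ) ≤ p := by
      refine (msz_l1_C _).trans ?_
      rw [Int.cast_natCast, abs_of_nonneg hp]
    calc l1 (MvPolynomial.C (p : ℤ) : MvPolynomial (Fin (m + 1)) ℤ) *
          l1 (MvPolynomial.X (Fin.last m) : MvPolynomial (Fin (m + 1)) ℤ)
        ≤ (p : ℝ) * 1 := mul_le_mul h1 (msz_l1_X _) (l1_nonneg _) hp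
      _ ≤ (p : ℝ) + q := by linarith
  · rw [l1_zero]
    positivity

private theorem msz_l1_ren (f : MvPolynomial (Fin m) ℤ) :
    l1 (MvPolynomial.rename Fin.castSucc f : MvPolynomial (Fin (m + 1)) ℤ) = l1 f := by
  classical
  have hinj := Fin.castSucc_injective m
  unfold l1
  rw [MvPolynomial.support_rename_of_injective hinj,
    Finset.sum_image (fun x _ y _ h => Finsupp.mapDomain_injective hinj h)]
  refine Finset.sum_congr rfl fun e _ => ?_
  rw [MvPolynomial.coeff_rename_mapDomain _ hinj]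

theorem MZ_l1 (p q : ℕ) (P : Fin m → Ptd n) (N : Fin m → ℕ) {J r : ℕ}
    (A : Ix2 J r → Mo P N → ℤ) {Z : ℝ} (hA : ∀ u μ, |(A u μ : ℝ)| ≤ Z) (a b : Bs P r) :
    l1 (MZ p q P N A a b) ≤ (((J + 1) * r : ℕ) : ℝ) * (((p : ℝ) + q) *
      (((∏ v, (N v * (P v).d) : ℕ) : ℝ) * (Z * ∏ v, (((n + 1) ^ 2 * (P v).b : ℕ) : ℝ) ^ n))) := by
  classical
  have hpq : (0 : ℝ) ≤ (p : ℝ) + q := by positivity
  unfold MZ
  refine (l1_sum_le _ _).trans ?_
  refine (Finset.sum_le_card_nsmul _ _ (((p : ℝ) + q) *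
      (((∏ v, (N v * (P v).d) : ℕ) : ℝ) * (Z * ∏ v, (((n + 1) ^ 2 * (P v).b : ℕ) : ℝ) ^ n)))
      fun u _ => ?_).trans (le_of_eq ?_)
  · refine (l1_mul_le _ _).trans ?_
    have h1 := MG_l1 P N (A u) (hA u) a.1 b.1
    have h2 : l1 (cfz m r p q (u.2 : ℕ) (a.2 : ℕ) (b.2 : ℕ) *
        MvPolynomial.rename Fin.castSucc (MG P N (A u) a.1 b.1)) ≤ ((p : ℝ) + q) *
        (((∏ v, (N v * (P v).d) : ℕ) : ℝ) * (Z * ∏ v, (((n + 1) ^ 2 * (P v).b : ℕ) : ℝ) ^ n)) := by
      refine (l1_mul_le _ _).trans ?_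
      refine mul_le_mul (msz_l1_cfz p q r _ _ _) ?_ (l1_nonneg _) hpq
      rw [msz_l1_ren]
      exact h1
    calc l1 ((MvPolynomial.X (Fin.last m) : MvPolynomial (Fin (m + 1)) ℤ) ^ (u.1 : ℕ)) *
          l1 (cfz m r p q (u.2 : ℕ) (a.2 : ℕ) (b.2 : ℕ) *
            MvPolynomial.rename Fin.castSucc (MG P N (A u) a.1 b.1))
        ≤ 1 * (((p : ℝ) + q) *
        (((∏ v, (N v * (P v).d) : ℕ) : ℝ) * (Z * ∏ v, (((n + 1) ^ 2 * (P v).b : ℕ) : ℝ) ^ n))) :=
          mul_le_mul (msz_l1_Xpow _ _) h2 (l1_nonneg _) zero_le_one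
      _ = _ := one_mul _
  · rw [nsmul_eq_mul, Finset.card_univ, Fintype.card_prod, Fintype.card_fin, Fintype.card_fin]

end Pool.Agent.H8.RZ
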