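import Pool.Agent.H8.RZ.Defs
import Pool.Agent.H97.NW.MAT
import Pool.Agent.H4.AR.Shift

/-!
# [H8 RZ MTD] The matrix of multiplication by `q G / p^J` and the substitution: definitions

`y = q ζ^r / p` is the last variable. `q G / p^J = q ∑_u ζ^(u.2) y^(u.1) ∑_μ A u μ μ`; the basis is `ζ^(i) ∏ y_v^(j_v)`, `i < r`, and
`ζ^r = (p/q) y`: `q ζ^(i' + i) = q ζ^(i'')` if `i' + i = i''`, `= p y ζ^(i'')` if `i' + i = i'' + r`.
`RR m = MvPowerSeries (Fin m) ℚ`, `SS m = PowerSeries (RR m)` (the variable `t`, `ζ = 1 + t`). `toS`: `MvPowerSeries (Fin m) ℤ → SS m`.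
`phiZ`: `X_v ↦ x_v + κ_v t_v`, `y ↦ (q/p) (1 + t)^r`. `betZ`: the local series of the basis. `gZ`: the local
expansion of `q G / p^J`.
-/

namespace Pool.Agent.H8.RZ

open Finset Polynomial Pool.Agent.H72.ES Pool.Agent.H87.SA2 Pool.Agent.H8.AW Pool.Agent.H52.AC
  Pool.Agent.H97.NW H4AR

variable {m n : ℕ}

/-- the index set of the basis -/
abbrev Bs (P : Fin m → Ptd n) (r : ℕ) : Type := (∀ v, Fin (P v).d) × Fin r

/-- the coefficient of `ζ^b` in `q ζ^a ζ^i`, in terms of `y` -/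
noncomputable def cfz (m r p q : ℕ) (i a b : ℕ) : MvPolynomial (Fin (m + 1)) ℤ :=
  if i + a = b then MvPolynomial.C (q : ℤ)
  else if i + a = b + r then MvPolynomial.C (p : ℤ) * MvPolynomial.X (Fin.last m) else 0

/-- the matrix of multiplication by `q G / p^J` -/
noncomputable def MZ (p q : ℕ) (P : Fin m → Ptd n) (N : Fin m → ℕ) {J r : ℕ}
    (A : Ix2 J r → Mo P N → ℤ) :
    Matrix (Bs P r) (Bs P r) (MvPolynomial (Fin (m + 1)) ℤ) := fun a b =>
  ∑ u : Ix2 J r, MvPolynomial.X (Fin.last m) ^ (u.1 : ℕ) *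
    (cfz m r p q (u.2 : ℕ) (a.2 : ℕ) (b.2 : ℕ) *
      MvPolynomial.rename Fin.castSucc (MG P N (A u) a.1 b.1))

/-- the ring of the local series in `t_v` -/
abbrev RR (m : ℕ) : Type := MvPowerSeries (Fin m) ℚ

/-- the ring of the local series in `t_v` and `t` -/
abbrev SS (m : ℕ) : Type := PowerSeries (RR m)

/-- the embedding of the integral series in `t_v` -/
noncomputable def toS (m : ℕ) : MvPowerSeries (Fin m) ℤ →+* SS m :=
  (PowerSeries.C (R := RR m)).comp (MvPowerSeries.map (Int.castRingHom ℚ))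

/-- `ζ = 1 + t` -/
noncomputable def zt (m : ℕ) : SS m := 1 + PowerSeries.X

/-- the constant `q / p` -/
noncomputable def qp (m p q : ℕ) : SS m :=
  PowerSeries.C (R := RR m) (algebraMap ℚ (RR m) ((q : ℚ) / p))

/-- the substitution `X_v ↦ x_v + κ_v t_v`, `y ↦ (q/p) (1 + t)^r` -/
noncomputable def phiZ (r p q : ℕ) (P : Fin m → Ptd n) : MvPolynomial (Fin (m + 1)) ℤ →+* SS m :=
  MvPolynomial.eval₂Hom (Int.castRingHom _)
    (Fin.snoc (α := fun _ => SS m) (fun v => toS m (eps v (xs (P v).x (P v).kap)))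
      (qp m p q * zt m ^ r))

/-- the local series of the basis -/
noncomputable def betZ (P : Fin m → Ptd n) {r : ℕ} (a : Bs P r) : SS m :=
  zt m ^ (a.2 : ℕ) * toS m (bet P a.1)

/-- the local expansion of `q G / p^J` -/
noncomputable def gZ (p q : ℕ) (P : Fin m → Ptd n) (N : Fin m → ℕ) {J r : ℕ}
    (A : Ix2 J r → Mo P N → ℤ) : SS m :=
  (q : SS m) * ∑ u : Ix2 J r, zt m ^ (u.2 : ℕ) * (qp m p q * zt m ^ r) ^ (u.1 : ℕ) *
    toS m (gl P N (A u))

end Pool.Agent.H8.RZ
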