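import Pool.Agent.H8.RZ.MTD

/-! # [H8 RZ SBT] The substitution is triangular

`sub_tri`. Let `g = sh x' (toQ f)`, `x' = Fin.snoc (x_v) (q/p)`, a polynomial over `ℚ`. (1) `phiZ f = ψ g` where `ψ : MvPolynomial (Fin (m+1)) ℚ →+* SS m` is `X_v ↦ C (κ_v t_v)`, `X_last ↦ (q/p) ((1+t)^r - 1)`
(`eval₂Hom (algebraMap)`; ring homomorphisms on `MvPolynomial (Fin (m+1)) ℤ`, check on `X v`: `sh_X`, `Fin.lastCases`; `xs x κ = C x + C κ * X` as in `nzd_sh` of `Pool/Agent/H97/NW/NZD.lean`; here `kap` is `(P v).kap`).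
(2) `(1+t)^r - 1 = t u(t)`, `u(0) = r` (e.g. `∑_(i<r) (1+t)^i`, `Commute.mul_geom_sum`/`mul_geom_sum`). So the coefficient of `t^l`, `t_v^(K_v)` of `ψ g` is `∏ κ_v^(K_v) * ∑_(j ≤ l) g_((K,j)) (q/p)^j coeff_(l-j) (u^j)`
(only the monomials `e` with `e_v = K_v`, `e_last = j`; `coeff_X_pow_mul`; as in `nzd_sh`). (3) Strong induction on `l`: for `K, l` of weight `< θ` all `(K, j)`, `j < l`, have weight `< θ` (`0 ≤ L`), so by induction `g_((K,j)) = 0` and
`0 = ∏ κ^K * g_((K,l)) (q/p)^l r^l`; `κ_v ≠ 0`, `q, p, r ≠ 0`. Finally `e : Fin (m+1) →₀ ℕ` is `(K, l)` with `K v = e v.castSucc`, `l = e (Fin.last m)`. -/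

namespace Pool.Agent.H8.RZ

open Finset Polynomial Pool.Agent.H72.ES Pool.Agent.H87.SA2 Pool.Agent.H8.AW Pool.Agent.H52.AC
  Pool.Agent.H97.NW H4AR

variable {m n : ℕ}

private noncomputable def sbt_c (m : ℕ) (c : ℚ) : SS m :=
  PowerSeries.C (R := RR m) (algebraMap ℚ (RR m) c)

private noncomputable def sbt_u (r : ℕ) : PowerSeries ℚ := ∑ i ∈ range r, (1 + PowerSeries.X) ^ i

private theorem sbt_zt (m r : ℕ) : zt m ^ r - 1 =
    PowerSeries.X * PowerSeries.map (algebraMap ℚ (RR m)) (sbt_u r) := by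
  unfold sbt_u
  rw [map_sum, ← mul_geom_sum]
  congr 1
  · unfold zt
    ring
  · refine Finset.sum_congr rfl fun i _ => ?_
    rw [map_pow, map_add, map_one, PowerSeries.map_X]
    rfl

private theorem sbt_u0 (r j : ℕ) : PowerSeries.coeff 0 (sbt_u r ^ j) = (r : ℚ) ^ j := by
  rw [PowerSeries.coeff_zero_eq_constantCoeff_apply, map_pow]
  unfold sbt_u
  rw [map_sum]
  simp

/-- the substitution after the shift -/
private noncomputable def sbt_psi (r p q : ℕ) (P : Fin m → Ptd n) :
    MvPolynomial (Fin (m + 1)) ℚ →+* SS m :=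
  MvPolynomial.eval₂Hom ((PowerSeries.C (R := RR m)).comp (algebraMap ℚ (RR m)))
    (Fin.snoc (α := fun _ => SS m)
      (fun v => toS m (eps v (PowerSeries.C (P v).kap * PowerSeries.X)))
      (qp m p q * (zt m ^ r - 1)))

private theorem sbt_phi (r p q : ℕ) (P : Fin m → Ptd n) (f : MvPolynomial (Fin (m + 1)) ℤ) :
    phiZ r p q P f = sbt_psi r p q P
      (sh (Fin.snoc (α := fun _ => ℚ) (fun v => ((P v).x : ℚ)) ((q : ℚ) / p)) (toQ f)) := by
  have h1 : phiZ r p q P = ((sbt_psi r p q P).comp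
      (sh (Fin.snoc (α := fun _ => ℚ) (fun v => ((P v).x : ℚ)) ((q : ℚ) / p))).toRingHom).comp
        (MvPolynomial.map (Int.castRingHom ℚ)) := by
    apply MvPolynomial.ringHom_ext
    · intro a
      unfold phiZ sbt_psi
      simp only [RingHom.comp_apply, AlgHom.toRingHom_eq_coe, RingHom.coe_coe,
        MvPolynomial.map_C, sh_C, MvPolynomial.coe_eval₂Hom, MvPolynomial.eval₂_C]
      simp
    · intro w
      simp only [RingHom.comp_apply, AlgHom.toRingHom_eq_coe, RingHom.coe_coe,
        MvPolynomial.map_X, sh_X, map_add]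
      unfold phiZ sbt_psi
      rw [MvPolynomial.coe_eval₂Hom, MvPolynomial.coe_eval₂Hom, MvPolynomial.eval₂_X,
        MvPolynomial.eval₂_X, MvPolynomial.eval₂_C]
      rcases Fin.eq_castSucc_or_eq_last w with ⟨v, rfl⟩ | rfl
      · rw [Fin.snoc_castSucc, Fin.snoc_castSucc, Fin.snoc_castSucc]
        unfold xs
        rw [map_add, map_add, add_comm]
        congr 1
        have : (PowerSeries.C ((P v).x) : PowerSeries ℤ) = (((P v).x : ℤ) : PowerSeries ℤ) := by
          simp
        rw [this, map_intCast, map_intCast, map_intCast]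
      · rw [Fin.snoc_last, Fin.snoc_last, Fin.snoc_last]
        unfold qp
        rw [RingHom.comp_apply]
        ring
  rw [h1]
  rfl

private theorem sbt_term (r p q : ℕ) (P : Fin m → Ptd n) (c : ℚ) (d : Fin (m + 1) →₀ ℕ)
    (l : ℕ) (K : Fin m →₀ ℕ) :
    MvPowerSeries.coeff K (PowerSeries.coeff l
      (((PowerSeries.C (R := RR m)).comp (algebraMap ℚ (RR m))) c *
        ∏ w, (Fin.snoc (α := fun _ => SS m)
          (fun v => toS m (eps v (PowerSeries.C (P v).kap * PowerSeries.X)))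
          (qp m p q * (zt m ^ r - 1)) w) ^ (d w))) =
      (c * ((q : ℚ) / p) ^ (d (Fin.last m)) * (if d (Fin.last m) ≤ l then
        PowerSeries.coeff (l - d (Fin.last m)) (sbt_u r ^ (d (Fin.last m))) else 0)) *
        ∏ v : Fin m, (if K v = d v.castSucc then ((P v).kap : ℚ) ^ (K v) else 0) := by
  classical
  rw [Fin.prod_univ_castSucc, Fin.snoc_last]
  simp only [Fin.snoc_castSucc]
  set b : MvPowerSeries (Fin m) ℤ :=
    box fun v => (PowerSeries.C (P v).kap * PowerSeries.X) ^ (d v.castSucc) with hb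
  have h1 : ∏ v : Fin m, toS m (eps v (PowerSeries.C (P v).kap * PowerSeries.X)) ^
      (d v.castSucc) = toS m b := by
    rw [hb, ← prod_eps, map_prod]
    refine Finset.prod_congr rfl fun v _ => ?_
    rw [map_pow, map_pow]
  have h2 : MvPowerSeries.coeff K (MvPowerSeries.map (Int.castRingHom ℚ) b) =
      ∏ v : Fin m, (if K v = d v.castSucc then ((P v).kap : ℚ) ^ (K v) else 0) := by
    rw [MvPowerSeries.coeff_map, hb, coeff_box, map_prod]
    refine Finset.prod_congr rfl fun v _ => ?_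
    rw [mul_pow, ← map_pow, PowerSeries.coeff_C_mul, PowerSeries.coeff_X_pow]
    split_ifs with h7
    · rw [h7, mul_one]
      simp
    · rw [mul_zero]
      simp
  rw [h1, sbt_zt]
  have h3 : ((PowerSeries.C (R := RR m)).comp (algebraMap ℚ (RR m))) c *
      (toS m b * (qp m p q * (PowerSeries.X *
        PowerSeries.map (algebraMap ℚ (RR m)) (sbt_u r))) ^ (d (Fin.last m))) =
      PowerSeries.C (R := RR m) (algebraMap ℚ (RR m) (c * ((q : ℚ) / p) ^ (d (Fin.last m))) *
        MvPowerSeries.map (Int.castRingHom ℚ) b) * (PowerSeries.X ^ (d (Fin.last m)) *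
          PowerSeries.map (algebraMap ℚ (RR m)) (sbt_u r ^ (d (Fin.last m)))) := by
    unfold qp toS
    rw [RingHom.comp_apply, RingHom.comp_apply, map_mul, map_mul, map_mul, map_pow, map_pow,
      map_pow, mul_pow, mul_pow]
    ring
  rw [h3, PowerSeries.coeff_C_mul, PowerSeries.coeff_X_pow_mul']
  split_ifs with h4
  · rw [PowerSeries.coeff_map, mul_right_comm, ← map_mul, ← Algebra.smul_def,
      MvPowerSeries.coeff_smul, h2]
  · rw [mul_zero, map_zero, mul_zero, zero_mul]

theorem sub_tri {r p q : ℕ} (hr : 1 ≤ r) (hp : 1 ≤ p) (hq : 1 ≤ q) (P : Fin m → Ptd n)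
    (hkap : ∀ v, (P v).kap ≠ 0) {ℓ : Fin m → ℝ} {L θ : ℝ} (hL : 0 ≤ L)
    (f : MvPolynomial (Fin (m + 1)) ℤ)
    (h : ∀ (l : ℕ) (K : Fin m →₀ ℕ), (l : ℝ) * L + ∑ v, ℓ v * (K v : ℝ) < θ →
      MvPowerSeries.coeff K (PowerSeries.coeff l (phiZ r p q P f)) = 0)
    (e : Fin (m + 1) →₀ ℕ)
    (he : (e (Fin.last m) : ℝ) * L + ∑ v : Fin m, ℓ v * (e v.castSucc : ℝ) < θ) :
    (sh (Fin.snoc (α := fun _ => ℚ) (fun v => ((P v).x : ℚ)) ((q : ℚ) / p)) (toQ f)).coeff e = 0 := by
  classical
  set g := sh (Fin.snoc (α := fun _ => ℚ) (fun v => ((P v).x : ℚ)) ((q : ℚ) / p)) (toQ f) with hg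
  suffices H : ∀ (l : ℕ) (e : Fin (m + 1) →₀ ℕ), e (Fin.last m) = l →
      (e (Fin.last m) : ℝ) * L + ∑ v : Fin m, ℓ v * (e v.castSucc : ℝ) < θ → g.coeff e = 0 from
    H _ e rfl he
  intro l
  induction l using Nat.strong_induction_on with
  | _ l ih =>
    intro e hel he
    set K : Fin m →₀ ℕ := Finsupp.equivFunOnFinite.symm fun v => e v.castSucc with hK
    have hKv : ∀ v, K v = e v.castSucc := fun v => rfl
    have h1 := h l K (by
      rw [← hel]
      exact he)
    rw [sbt_phi, ← hg] at h1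
    unfold sbt_psi at h1
    rw [MvPolynomial.coe_eval₂Hom, MvPolynomial.eval₂_eq', map_sum, map_sum] at h1
    have h2 : ∀ d ∈ g.support, MvPowerSeries.coeff K (PowerSeries.coeff l
        (((PowerSeries.C (R := RR m)).comp (algebraMap ℚ (RR m))) (g.coeff d) *
        ∏ w, (Fin.snoc (α := fun _ => SS m)
          (fun v => toS m (eps v (PowerSeries.C (P v).kap * PowerSeries.X)))
          (qp m p q * (zt m ^ r - 1)) w) ^ (d w))) =
        if e = d then (g.coeff e * ((q : ℚ) / p) ^ l * (r : ℚ) ^ l) *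
          ∏ v : Fin m, ((P v).kap : ℚ) ^ (K v) else 0 := by
      intro d hd
      rw [sbt_term]
      by_cases hed : e = d
      · rw [if_pos hed, ← hed, hel, if_pos le_rfl, Nat.sub_self, sbt_u0]
        congr 1
        refine Finset.prod_congr rfl fun v _ => ?_
        rw [if_pos (hKv v)]
      · rw [if_neg hed]
        by_cases hv : ∃ v, K v ≠ d v.castSucc
        · obtain ⟨v, hv⟩ := hv
          rw [Finset.prod_eq_zero (Finset.mem_univ v) (if_neg hv), mul_zero]
        · push Not at hv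
          have hlast : d (Fin.last m) ≠ l := by
            intro hl
            apply hed
            ext w
            rcases Fin.eq_castSucc_or_eq_last w with ⟨v, rfl⟩ | rfl
            · rw [← hv v, hKv v]
            · rw [hl, hel]
          rcases lt_or_gt_of_ne hlast with hlt | hgt
          · exfalso
            rw [MvPolynomial.mem_support_iff] at hd
            apply hd
            refine ih _ hlt d rfl (lt_of_le_of_lt ?_ he)
            refine add_le_add ?_ ?_
            · apply mul_le_mul_of_nonneg_right _ hL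
              rw [hel]
              exact_mod_cast hlt.le
            · apply le_of_eq
              refine Finset.sum_congr rfl fun v _ => ?_
              rw [← hv v, hKv v]
          · rw [if_neg (by omega), mul_zero, zero_mul]
    rw [Finset.sum_congr rfl h2, Finset.sum_ite_eq] at h1
    by_contra hne
    rw [if_pos (MvPolynomial.mem_support_iff.2 hne)] at h1
    have hp0 : (p : ℚ) ≠ 0 := by
      have : p ≠ 0 := by omega
      exact_mod_cast this
    have hq0 : (q : ℚ) ≠ 0 := by
      have : q ≠ 0 := by omega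
      exact_mod_cast this
    have hr0 : (r : ℚ) ≠ 0 := by
      have : r ≠ 0 := by omega
      exact_mod_cast this
    have hk : ∏ v : Fin m, ((P v).kap : ℚ) ^ (K v) ≠ 0 := by
      rw [Finset.prod_ne_zero_iff]
      intro v _
      exact pow_ne_zero _ (by exact_mod_cast hkap v)
    exact mul_ne_zero (mul_ne_zero (mul_ne_zero hne (pow_ne_zero _ (div_ne_zero hq0 hp0)))
      (pow_ne_zero _ hr0)) hk h1

end Pool.Agent.H8.RZ
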