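import Pool.Agent.H8.RZ.NZB
import Pool.Agent.H8.RZ.SBT

/-! # [H8 RZ NDZ] The norm is not zero; its index

Adapt `det_ne` and `det_idx` (`Pool/Agent/H97/NW/NZD.lean`).
`det_ne_z`: if `det = 0` there is `w ≠ 0` with `w ᵥ* MZ = 0` (`Matrix.exists_vecMul_eq_zero_iff`), so `0 = ∑_b (∑_a phiZ (w a) phiZ (MZ a b)) betZ b = gZ * ∑_a phiZ (w a) betZ a` (`MZ_eig`), `SS m` is a domain (`PowerSeries` over `MvPowerSeries` over `ℚ`),
`gZ_ne`, `betZ_indep`.
`det_idx_z`: as `det_idx`: `phiZ (det MZ) = gZ * (adjugate .. betZ) a0`, `a0 = (fun v => ⟨0, (P v).C.d1⟩, ⟨0, hr⟩)`, `betZ a0 = 1`, so for weight `< θ` the coefficient of `t^l, t^K` vanishes (`coeff_gZ`: `p^J * coeff = q * Lz = 0`, `PowerSeries.coeff_mul`, `MvPowerSeries.coeff_mul`; the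
weight of a summand index is at most that of `(l, K)` as `0 ≤ L`, `0 ≤ ell`); then `sub_tri` with `ℓ v = (P v).ell`, `kap ≠ 0` by `((P v).kap_facts hn (hP v)).1`. -/

namespace Pool.Agent.H8.RZ

open Finset Polynomial Pool.Agent.H72.ES Pool.Agent.H87.SA2 Pool.Agent.H8.AW Pool.Agent.H52.AC
  Pool.Agent.H97.NW H4AR

variable {m n : ℕ}

theorem det_ne_z (hn : 4 ≤ n) (P : Fin m → Ptd n) (hP : ∀ v, (P v).Thr (cA n))
    (N : Fin m → ℕ) {J r p q : ℕ} (hp : 1 ≤ p) (hq : 1 ≤ q)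
    (A : Ix2 J r → Mo P N → ℤ) (hA : A ≠ 0) : (MZ p q P N A).det ≠ 0 := by
  classical
  intro h
  obtain ⟨w, hw, hw0⟩ := Matrix.exists_vecMul_eq_zero_iff.2 h
  apply hw
  apply betZ_indep hn P hP hp hq w
  have h1 : ∀ b, ∑ a, w a * MZ p q P N A a b = 0 := by
    intro b
    have := congrFun hw0 b
    simpa [Matrix.vecMul, dotProduct] using this
  have h2 : gZ p q P N A * ∑ a, phiZ r p q P (w a) * betZ P a = 0 := by
    calc gZ p q P N A * ∑ a, phiZ r p q P (w a) * betZ P a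
        = ∑ a, phiZ r p q P (w a) * (gZ p q P N A * betZ P a) := by
          rw [Finset.mul_sum]
          refine Finset.sum_congr rfl fun a _ => ?_
          ring
      _ = ∑ a, phiZ r p q P (w a) * ∑ b, phiZ r p q P (MZ p q P N A a b) * betZ P b := by
          refine Finset.sum_congr rfl fun a _ => ?_
          rw [MZ_eig hp]
      _ = ∑ b, phiZ r p q P (∑ a, w a * MZ p q P N A a b) * betZ P b := by
          simp only [Finset.mul_sum, map_sum, Finset.sum_mul, map_mul]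
          rw [Finset.sum_comm]
          refine Finset.sum_congr rfl fun a _ => Finset.sum_congr rfl fun b _ => ?_
          ring
      _ = 0 := by
          refine Finset.sum_eq_zero fun b _ => ?_
          rw [h1 b, map_zero, zero_mul]
  rcases mul_eq_zero.1 h2 with h3 | h3
  · exact absurd h3 (gZ_ne hn P hP N hp hq A hA)
  · exact h3

theorem det_idx_z (hn : 4 ≤ n) (P : Fin m → Ptd n) (hP : ∀ v, (P v).Thr (cA n))
    (N : Fin m → ℕ) {J r p q : ℕ} (hr : 1 ≤ r) (hp : 1 ≤ p) (hq : 1 ≤ q)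
    (A : Ix2 J r → Mo P N → ℤ) {L θ : ℝ} (hL : 0 ≤ L) (hell : ∀ v, 0 ≤ (P v).ell)
    (h : ∀ (l : ℕ) (K : Fin m → ℕ), (l : ℝ) * L + ∑ v, (P v).ell * (K v : ℝ) < θ →
      Lz p q P N A l K = 0) (e : Fin (m + 1) →₀ ℕ)
    (he : (e (Fin.last m) : ℝ) * L + ∑ v : Fin m, (P v).ell * (e v.castSucc : ℝ) < θ) :
    (sh (Fin.snoc (α := fun _ => ℚ) (fun v => ((P v).x : ℚ)) ((q : ℚ) / p))
      (toQ (MZ p q P N A).det)).coeff e = 0 := by
  classical
  set M' : Matrix (Bs P r) (Bs P r) (SS m) := (MZ p q P N A).map (phiZ r p q P) with hM'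
  have h1 : M'.mulVec (betZ P) = gZ p q P N A • betZ P := by
    funext a
    have := MZ_eig (q := q) hp P N A a
    simpa [Matrix.mulVec, dotProduct, hM'] using this
  have h2 : M'.adjugate.mulVec (M'.mulVec (betZ P)) = M'.det • betZ P := by
    rw [Matrix.mulVec_mulVec, Matrix.adjugate_mul, Matrix.smul_mulVec, Matrix.one_mulVec]
  rw [h1, Matrix.mulVec_smul] at h2
  obtain ⟨X, h3⟩ : ∃ X : SS m, M'.det = gZ p q P N A * X := by
    refine ⟨(M'.adjugate.mulVec (betZ P)) (fun v => ⟨0, (P v).C.d1⟩, ⟨0, hr⟩), ?_⟩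
    have h4 := congrFun h2 (fun v => ⟨0, (P v).C.d1⟩, ⟨0, hr⟩)
    rw [Pi.smul_apply, Pi.smul_apply, smul_eq_mul, smul_eq_mul] at h4
    have h5 : betZ P ((fun v => ⟨0, (P v).C.d1⟩, ⟨0, hr⟩) : Bs P r) = 1 := by
      unfold betZ bet
      rw [pow_zero, one_mul]
      have h6 : (∏ v : Fin m, eps v ((P v).Y ^ ((⟨0, (P v).C.d1⟩ : Fin (P v).d) : ℕ))) =
          (1 : MvPowerSeries (Fin m) ℤ) := by
        refine Finset.prod_eq_one fun v _ => ?_
        rw [pow_zero, map_one]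
      rw [h6, map_one]
    rw [h5, mul_one] at h4
    exact h4.symm
  have h4 : phiZ r p q P (MZ p q P N A).det = M'.det := by
    rw [hM', RingHom.map_det]
    rfl
  have hp0 : (p : ℚ) ≠ 0 := by
    have : 0 < p := hp
    positivity
  have h5 : ∀ (l : ℕ) (K : Fin m →₀ ℕ), (l : ℝ) * L + ∑ v, (P v).ell * (K v : ℝ) < θ →
      MvPowerSeries.coeff K (PowerSeries.coeff l (gZ p q P N A)) = 0 := by
    intro l K hlK
    have h6 := coeff_gZ (q := q) hp P N A l K
    rw [h l (fun v => K v) hlK, Int.cast_zero, mul_zero] at h6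
    rcases mul_eq_zero.1 h6 with h7 | h7
    · exact absurd h7 (pow_ne_zero _ hp0)
    · exact h7
  have h6 : ∀ (l : ℕ) (K : Fin m →₀ ℕ), (l : ℝ) * L + ∑ v, (P v).ell * (K v : ℝ) < θ →
      MvPowerSeries.coeff K (PowerSeries.coeff l (phiZ r p q P (MZ p q P N A).det)) = 0 := by
    intro l K hlK
    rw [h4, h3, PowerSeries.coeff_mul, map_sum]
    refine Finset.sum_eq_zero fun ab hab => ?_
    rw [Finset.HasAntidiagonal.mem_antidiagonal] at hab
    rw [MvPowerSeries.coeff_mul]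
    refine Finset.sum_eq_zero fun KK hKK => ?_
    rw [Finset.HasAntidiagonal.mem_antidiagonal] at hKK
    rw [h5 ab.1 KK.1, zero_mul]
    refine lt_of_le_of_lt ?_ hlK
    apply add_le_add
    · apply mul_le_mul_of_nonneg_right _ hL
      have : ab.1 ≤ l := by omega
      exact_mod_cast this
    · refine Finset.sum_le_sum fun v _ => ?_
      apply mul_le_mul_of_nonneg_left _ (hell v)
      have : KK.1 v ≤ K v := by
        rw [← hKK, Finsupp.add_apply]
        omega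
      exact_mod_cast this
  exact sub_tri hr hp hq P (fun v => ((P v).kap_facts hn (hP v)).1) hL _ h6 e he

end Pool.Agent.H8.RZ
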