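import Pool.Agent.H8.RZ.AXZ
import Pool.Agent.H8.RZ.NDZ
import Pool.Agent.H8.RZ.MSZ

/-! # [H8 RZ NRZ] The norm in the coordinates `x_1, ..., x_m, y`

Adapt `aux_norm` (`Pool/Agent/H97/NW/AUXN.lean`; copy its private lemmas on determinants). `τ, K1` from `aux_z`, `K0 = max K1 (n² + n + 2)`. `S = r n^m` bounds the size `card (Bs P r) = r ∏ d_v` of the matrix. For `δ > 0` take `δ1 = δ/(4 S)`, `c` at least that of `aux_z` for
`δ1` and large. `N = (MZ ..).det ≠ 0` (`det_ne_z`; `p, q ≥ 1`). `degreeOf v.castSucc N ≤ S (Nf v + n²) ≤ S (Y/ell_v + 1 + n²)`, `(1 + n²) ell_v ≤ Y`. `degreeOf last N ≤ S (J + 2)`, `J + 1 = ⌊Y/L⌋₊ + 1 - r ≤ Y/L`, `L = log q ≤ ell_v / c ≤ Y`: `(degreeOf last N) L ≤ S (Y + L) ≤ 2 S Y`.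
`l1 N ≤ s! (entry)^s`, `s ≤ S`, entries by `MZ_l1`: `(J+1) r (p+q) (∏ Nf v d_v) exp(δ1 Y) ∏ ((n+1)² b_v)^n`; new factors compared with `aux_norm`: `(J+1) ≤ exp(Y/L) ≤ exp(Y/c)`, `r`, `p + q ≤ 3 q ≤ exp(L + 2) ≤ exp(3 Y/c)` (`L ≤ ell_v/c ≤ Y/c`, `1 ≤ L`). Total `log ≤ S δ1 Y + (C/c) Y ≤ δ Y`.
The last statement is `det_idx_z` with its `L := lam * log q`, `θ = τ Y`. -/

namespace Pool.Agent.H8.RZ

open Finset Polynomial Pool.Agent.H72.ES Pool.Agent.H87.SA2 Pool.Agent.H8.AW Pool.Agent.H52.AC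
  Pool.Agent.H97.NW H4AR

private theorem nrz_deg {m : ℕ} {ι : Type} [Fintype ι] [DecidableEq ι]
    (M : Matrix ι ι (MvPolynomial (Fin m) ℤ)) (j : Fin m) (D : ℕ)
    (h : ∀ a b, (M a b).degreeOf j ≤ D) : M.det.degreeOf j ≤ Fintype.card ι * D := by
  have e := Fintype.equivFin ι
  rw [← Matrix.det_reindex_self e M]
  exact degreeOf_det_le _ j D (fun a b => h _ _)

private theorem nrz_l1 {m : ℕ} {ι : Type} [Fintype ι] [DecidableEq ι]
    (M : Matrix ι ι (MvPolynomial (Fin m) ℤ)) (B : ℝ) (hB : 0 ≤ B)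
    (h : ∀ i j, l1 (M i j) ≤ B) : l1 M.det ≤ ((Fintype.card ι).factorial : ℝ) * B ^ (Fintype.card ι) := by
  have e := Fintype.equivFin ι
  rw [← Matrix.det_reindex_self e M]
  exact l1_det_le _ B hB (fun a b => h _ _)

private theorem nrz_card {m n : ℕ} (P : Fin m → Ptd n) (r : ℕ) :
    Fintype.card (Bs P r) = (∏ v, (P v).d) * r := by
  simp [Bs, Fintype.card_pi]

private theorem nrz_sle {m n : ℕ} (P : Fin m → Ptd n) (r : ℕ) :
    (∏ v, (P v).d) * r ≤ r * n ^ m := by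
  rw [mul_comm r]
  refine Nat.mul_le_mul_right r ?_
  calc ∏ v, (P v).d ≤ ∏ _v : Fin m, n := Finset.prod_le_prod' (fun v _ => (P v).C.dn)
    _ = n ^ m := by simp

private theorem nrz_fact (s : ℕ) : Real.log (s.factorial : ℝ) ≤ (s : ℝ) * s := by
  have h1 : (s.factorial : ℝ) ≤ (s : ℝ) ^ s := by exact_mod_cast Nat.factorial_le_pow s
  have h0 : (0 : ℝ) < s.factorial := by exact_mod_cast Nat.factorial_pos s
  calc Real.log (s.factorial : ℝ) ≤ Real.log ((s : ℝ) ^ s) := Real.log_le_log h0 h1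
    _ = s * Real.log s := Real.log_pow _ _
    _ ≤ (s : ℝ) * s := mul_le_mul_of_nonneg_left (Real.log_le_self (Nat.cast_nonneg s)) (Nat.cast_nonneg s)

private theorem nrz_log (m n r c s J p q : ℕ) (hm : 1 ≤ m) (hn : 1 ≤ n) (hr : 1 ≤ r) (hc : 1 ≤ c)
    (hs : s ≤ r * n ^ m) (δ1 Y L : ℝ)
    (hδ : 0 ≤ δ1) (b N d : Fin m → ℕ) (ell : Fin m → ℝ) (hb : ∀ v, 2 ≤ b v) (hN : ∀ v, 1 ≤ N v)
    (hd : ∀ v, 1 ≤ d v) (hdn : ∀ v, d v ≤ n) (h1 : ∀ v, (c : ℝ) * Real.log (b v) ≤ ell v)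
    (h2 : ∀ v, ell v ≤ Y) (h3 : ∀ v, (N v : ℝ) * ell v ≤ Y)
    (hp : 1 ≤ p) (hq : 1 ≤ q) (hpq : p ≤ 2 * q) (hcq : (c : ℝ) ≤ Real.log q)
    (hcl : ∀ v, (c : ℝ) * Real.log q ≤ ell v) (hJ : ((J : ℝ) + 1) * Real.log q ≤ Y)
    (hL0 : 0 ≤ L)
    (hL : L ≤ (s.factorial : ℝ) * ((((J + 1) * r : ℕ) : ℝ) * (((p : ℝ) + q) *
      (((∏ v, (N v * d v) : ℕ) : ℝ) * (Real.exp (δ1 * Y) *
      ∏ v, (((n + 1) ^ 2 * b v : ℕ) : ℝ) ^ n)))) ^ s) :
    Real.log L ≤ ((r : ℝ) * (n : ℝ) ^ m) * (δ1 * Y) + (((r : ℝ) * (n : ℝ) ^ m) *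
      ((r : ℝ) * (n : ℝ) ^ m) + ((r : ℝ) * (n : ℝ) ^ m) *
        (4 + r + m * n + m * (n * (2 * n + 1)))) * (Y / (c * Real.log 2)) := by
  have hl2 : 0 < Real.log 2 := Real.log_pos (by norm_num)
  have hl1 : Real.log 2 ≤ 1 := by
    have := Real.log_two_lt_d9
    linarith
  have hcR : (1 : ℝ) ≤ c := by exact_mod_cast hc
  have hnR : (1 : ℝ) ≤ n := by exact_mod_cast hn
  have hrR : (1 : ℝ) ≤ r := by exact_mod_cast hr
  have hcl0 : 0 < (c : ℝ) * Real.log 2 := by positivity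
  obtain ⟨X, hX⟩ : ∃ X : ℝ, X = Y / (c * Real.log 2) := ⟨_, rfl⟩
  have hXY : X * (c * Real.log 2) = Y := by
    rw [hX]
    field_simp
  have hlb : ∀ v, Real.log 2 ≤ Real.log (b v) := fun v =>
    Real.log_le_log (by norm_num) (by exact_mod_cast hb v)
  have hell : ∀ v, (c : ℝ) * Real.log 2 ≤ ell v := fun v =>
    (mul_le_mul_of_nonneg_left (hlb v) (by positivity)).trans (h1 v)
  have hX1 : 1 ≤ X := by
    have h := (hell ⟨0, hm⟩).trans (h2 ⟨0, hm⟩)
    rw [← hXY] at h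
    by_contra hlt
    push Not at hlt
    nlinarith
  have hX0 : 0 ≤ X := by linarith
  have hY0 : 0 < Y := by
    rw [← hXY]
    positivity
  have hcX : Y ≤ c * X := by
    rw [← hXY]
    have : X * (c * Real.log 2) = (c * X) * Real.log 2 := by ring
    rw [this]
    have h0 : 0 ≤ (c : ℝ) * X := by positivity
    nlinarith
  have hNX : ∀ v, (N v : ℝ) ≤ X := by
    intro v
    have h := (mul_le_mul_of_nonneg_left (hell v) (Nat.cast_nonneg (N v))).trans (h3 v)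
    rw [← hXY] at h
    exact le_of_mul_le_mul_right h hcl0
  have hbX : ∀ v, Real.log (b v) ≤ X := by
    intro v
    have h : (c : ℝ) * Real.log (b v) ≤ c * X := ((h1 v).trans (h2 v)).trans hcX
    exact le_of_mul_le_mul_left h (by positivity)
  have hqX : Real.log q ≤ X := by
    have h : (c : ℝ) * Real.log q ≤ c * X := ((hcl ⟨0, hm⟩).trans (h2 ⟨0, hm⟩)).trans hcX
    exact le_of_mul_le_mul_left h (by positivity)
  have hJX : (J : ℝ) + 1 ≤ X := by
    have h0 : ((J : ℝ) + 1) * c ≤ X * c := by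
      have h4 : ((J : ℝ) + 1) * c ≤ ((J : ℝ) + 1) * Real.log q :=
        mul_le_mul_of_nonneg_left hcq (by positivity)
      linarith
    exact le_of_mul_le_mul_right h0 (by positivity)
  have hδY : 0 ≤ δ1 * Y := by positivity
  rw [← hX]
  rcases hL0.eq_or_lt with h0 | h0
  · rw [← h0, Real.log_zero]
    positivity
  · have hP1 : ∀ v, (0 : ℝ) < ((N v * d v : ℕ) : ℝ) := fun v => by
      exact_mod_cast Nat.mul_pos (hN v) (hd v)
    have hQ1 : ∀ v, (0 : ℝ) < (((n + 1) ^ 2 * b v : ℕ) : ℝ) ^ n := fun v => by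
      have : 0 < (n + 1) ^ 2 * b v := Nat.mul_pos (by positivity) (by have := hb v; omega)
      have h' : (0 : ℝ) < (((n + 1) ^ 2 * b v : ℕ) : ℝ) := by exact_mod_cast this
      positivity
    have hP : (0 : ℝ) < ((∏ v, (N v * d v) : ℕ) : ℝ) := by
      rw [Nat.cast_prod]
      exact Finset.prod_pos fun v _ => hP1 v
    have hQ : (0 : ℝ) < ∏ v, (((n + 1) ^ 2 * b v : ℕ) : ℝ) ^ n := Finset.prod_pos fun v _ => hQ1 v
    have hE : (0 : ℝ) < Real.exp (δ1 * Y) := Real.exp_pos _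
    have hfac : (0 : ℝ) < s.factorial := by exact_mod_cast Nat.factorial_pos s
    have hpR : (1 : ℝ) ≤ p := by exact_mod_cast hp
    have hqR : (1 : ℝ) ≤ q := by exact_mod_cast hq
    have hpqR : (p : ℝ) ≤ 2 * q := by exact_mod_cast hpq
    have hJr : (0 : ℝ) < (((J + 1) * r : ℕ) : ℝ) := by
      exact_mod_cast Nat.mul_pos (Nat.succ_pos J) hr
    have hpq0 : (0 : ℝ) < (p : ℝ) + q := by linarith
    have e1 : Real.log ((∏ v, (N v * d v) : ℕ) : ℝ) ≤ m * n * X := by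
      rw [Nat.cast_prod, Real.log_prod (fun v _ => (hP1 v).ne')]
      calc ∑ v, Real.log ((N v * d v : ℕ) : ℝ) ≤ ∑ _v : Fin m, (n : ℝ) * X := by
            refine Finset.sum_le_sum fun v _ => ?_
            refine (Real.log_le_self (hP1 v).le).trans ?_
            rw [Nat.cast_mul, mul_comm]
            have hdv : (d v : ℝ) ≤ n := by exact_mod_cast hdn v
            exact mul_le_mul hdv (hNX v) (Nat.cast_nonneg _) (by positivity)
        _ = m * n * X := by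
            rw [Finset.sum_const, Finset.card_univ, Fintype.card_fin, nsmul_eq_mul]
            ring
    have e2 : Real.log (∏ v, (((n + 1) ^ 2 * b v : ℕ) : ℝ) ^ n) ≤ m * (n * (2 * n + 1)) * X := by
      rw [Real.log_prod (fun v _ => (hQ1 v).ne')]
      calc ∑ v, Real.log ((((n + 1) ^ 2 * b v : ℕ) : ℝ) ^ n) ≤ ∑ _v : Fin m, (n * (2 * n + 1)) * X := by
            refine Finset.sum_le_sum fun v _ => ?_
            rw [Real.log_pow]
            have hbv : (0 : ℝ) < b v := by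
              have := hb v
              exact_mod_cast (by omega : 0 < b v)
            have h5 : Real.log (((n + 1) ^ 2 * b v : ℕ) : ℝ) ≤ (2 * n + 1) * X := by
              push_cast
              rw [Real.log_mul (by positivity) hbv.ne', Real.log_pow]
              have h6 : Real.log ((n : ℝ) + 1) ≤ n := by
                have := Real.log_le_sub_one_of_pos (show (0 : ℝ) < (n : ℝ) + 1 by positivity)
                linarith
              have h7 := hbX v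
              push_cast
              nlinarith
            calc (n : ℝ) * Real.log (((n + 1) ^ 2 * b v : ℕ) : ℝ) ≤ n * ((2 * n + 1) * X) :=
                  mul_le_mul_of_nonneg_left h5 (by positivity)
              _ = n * (2 * n + 1) * X := by ring
        _ = m * (n * (2 * n + 1)) * X := by
            rw [Finset.sum_const, Finset.card_univ, Fintype.card_fin, nsmul_eq_mul]
            ring
    have e6 : Real.log (((J + 1) * r : ℕ) : ℝ) ≤ X + r * X := by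
      rw [Nat.cast_mul, Real.log_mul (by positivity) (by positivity)]
      have g1 : Real.log ((J + 1 : ℕ) : ℝ) ≤ X := by
        refine (Real.log_le_self (Nat.cast_nonneg _)).trans ?_
        push_cast
        exact hJX
      have g2 : Real.log (r : ℝ) ≤ r * X := by
        refine (Real.log_le_self (Nat.cast_nonneg _)).trans ?_
        exact le_mul_of_one_le_right (by positivity) hX1
      linarith
    have e7 : Real.log ((p : ℝ) + q) ≤ 3 * X := by
      have g1 : Real.log ((p : ℝ) + q) ≤ Real.log (3 * q) :=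
        Real.log_le_log hpq0 (by linarith)
      have g2 : Real.log (3 * (q : ℝ)) = Real.log 3 + Real.log q :=
        Real.log_mul (by norm_num) (by positivity)
      have g3 : Real.log 3 ≤ 2 := by
        have := Real.log_le_sub_one_of_pos (show (0 : ℝ) < 3 by norm_num)
        linarith
      linarith
    have e3 : Real.log L ≤ s * s + s * ((X + r * X) + (3 * X + (m * n * X +
        (δ1 * Y + m * (n * (2 * n + 1)) * X)))) := by
      refine (Real.log_le_log h0 hL).trans ?_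
      rw [Real.log_mul hfac.ne' (by positivity), Real.log_pow, Real.log_mul hJr.ne' (by positivity),
        Real.log_mul hpq0.ne' (by positivity), Real.log_mul hP.ne' (by positivity),
        Real.log_mul hE.ne' hQ.ne', Real.log_exp]
      apply add_le_add (nrz_fact s)
      apply mul_le_mul_of_nonneg_left _ (Nat.cast_nonneg s)
      linarith
    have hsR : (s : ℝ) ≤ (r : ℝ) * (n : ℝ) ^ m := by exact_mod_cast hs
    obtain ⟨S, hS⟩ : ∃ S : ℝ, S = (r : ℝ) * (n : ℝ) ^ m := ⟨_, rfl⟩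
    rw [← hS] at hsR ⊢
    have hS0 : 0 ≤ S := (Nat.cast_nonneg s).trans hsR
    have hZ : 0 ≤ (X + r * X) + (3 * X + (m * n * X +
        (δ1 * Y + m * (n * (2 * n + 1)) * X))) := by positivity
    have e4 : (s : ℝ) * s ≤ S * S * X := by
      have h8 : (s : ℝ) * s ≤ S * S :=
        mul_le_mul hsR hsR (Nat.cast_nonneg _) hS0
      have h9 : (0 : ℝ) ≤ S * S := by positivity
      nlinarith
    have e5 := mul_le_mul_of_nonneg_right hsR hZ
    calc Real.log L ≤ _ := e3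
      _ ≤ S * S * X + S * ((X + r * X) + (3 * X + (m * n * X +
        (δ1 * Y + m * (n * (2 * n + 1)) * X)))) := add_le_add e4 e5
      _ = _ := by ring

/-- the choice of c -/
private theorem nrz_c (C δ Y : ℝ) (c : ℕ) (hδ : 0 < δ) (hC : 0 ≤ C) (hY : 0 ≤ Y)
    (hc : 4 * C / δ ≤ c) (hc1 : 1 ≤ c) : C * (Y / (c * Real.log 2)) ≤ δ / 2 * Y := by
  have hl2 : 1 / 2 ≤ Real.log 2 := by
    have := Real.log_two_gt_d9
    linarith
  have hcR : (1 : ℝ) ≤ c := by exact_mod_cast hc1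
  have hcl : 0 < (c : ℝ) * Real.log 2 := by positivity
  have h1 : 4 * C ≤ c * δ := by
    rw [div_le_iff₀ hδ] at hc
    exact hc
  have h2 : C * (Y / (c * Real.log 2)) = (C * Y) / (c * Real.log 2) := by ring
  rw [h2, div_le_iff₀ hcl]
  have h3 : C ≤ δ / 2 * (c * Real.log 2) := by nlinarith
  calc C * Y ≤ (δ / 2 * (c * Real.log 2)) * Y := mul_le_mul_of_nonneg_right h3 hY
    _ = δ / 2 * Y * (c * Real.log 2) := by ring

theorem norm_z (m n r : ℕ) (hm : 1 ≤ m) (hn : 4 ≤ n) (hr : 1 ≤ r) (lam : ℝ) (hlam : 0 < lam)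
    (hlam1 : lam ≤ 1) (γ : ℝ) (hγ : 0 < γ) :
    ∃ τ K0 : ℝ, 0 < τ ∧ 1 ≤ K0 ∧ ∀ δ : ℝ, 0 < δ → ∃ c : ℕ, cA n ≤ c ∧
      ∀ (P : Fin m → Ptd n) (PP : Finset (∀ v, Fin (P v).d)), Stb P PP →
      (fun v => (P v).i) ∈ PP →
      (1 + γ) * (((m : ℝ) + 1) ^ (m + 1) * PP.card) ≤
        ((m + 1).factorial : ℝ) * (r * lam * ∏ v, ((P v).d : ℝ)) →
      ∀ (p q : ℕ), NP lam p q → ∀ _ : ZD P PP r p q,
      (∀ v, (P v).Thr c) → (c : ℝ) ≤ Real.log q → (∀ v, c * Real.log q ≤ (P v).ell) →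
      ∀ Y : ℝ, (∀ v, K0 * (P v).ell ≤ Y) → ∃ N : MvPolynomial (Fin (m + 1)) ℤ, N ≠ 0 ∧
        (∀ v : Fin m, (N.degreeOf v.castSucc : ℝ) * (P v).ell ≤ 2 * (r * (n : ℝ) ^ m) * Y) ∧
        (N.degreeOf (Fin.last m) : ℝ) * Real.log q ≤ 2 * (r * (n : ℝ) ^ m) * Y ∧
        Real.log (l1 N) ≤ δ * Y ∧
        ∀ e : Fin (m + 1) →₀ ℕ, (e (Fin.last m) : ℝ) * (lam * Real.log q) +
            ∑ v : Fin m, (P v).ell * (e v.castSucc : ℝ) < τ * Y →
          (sh (Fin.snoc (α := fun _ => ℚ) (fun v => ((P v).x : ℚ)) ((q : ℚ) / p))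
            (toQ N)).coeff e = 0 := by
  obtain ⟨τ, K1, hτ, hK1, haux⟩ := aux_z m n r hm hn hr lam hlam hlam1 γ hγ
  refine ⟨τ, max K1 ((n : ℝ) ^ 2 + n + 2), hτ, hK1.trans (le_max_left _ _), ?_⟩
  intro δ hδ
  have hnR : (4 : ℝ) ≤ n := by exact_mod_cast hn
  have hrR : (1 : ℝ) ≤ r := by exact_mod_cast hr
  have hnm : (1 : ℝ) ≤ (n : ℝ) ^ m := one_le_pow₀ (by linarith)
  obtain ⟨S, hS⟩ : ∃ S : ℝ, S = (r : ℝ) * (n : ℝ) ^ m := ⟨_, rfl⟩
  have hS1 : 1 ≤ S := by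
    rw [hS]
    nlinarith
  have hS0 : 0 < S := by linarith
  obtain ⟨c1, hc1A, hc1⟩ := haux (δ / (4 * S)) (by positivity)
  obtain ⟨δ1, hδ1⟩ : ∃ δ1 : ℝ, δ1 = δ / (4 * S) := ⟨_, rfl⟩
  rw [← hδ1] at hc1
  have hδ0 : 0 < δ1 := by
    rw [hδ1]
    positivity
  have hδb : S * δ1 = δ / 4 := by
    rw [hδ1]
    field_simp
  obtain ⟨CC, hCC⟩ : ∃ CC : ℝ, CC = S * S + S * (4 + r + m * n + m * (n * (2 * n + 1))) := ⟨_, rfl⟩
  have hCC0 : 0 ≤ CC := by
    rw [hCC]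
    positivity
  refine ⟨c1 + ⌈4 * CC / δ⌉₊ + 1, by omega, ?_⟩
  intro P PP hStb hnear hcard p q hNP Z hThr hcq hcl Y hY
  obtain ⟨c, hc⟩ : ∃ c : ℕ, c = c1 + ⌈4 * CC / δ⌉₊ + 1 := ⟨_, rfl⟩
  rw [← hc] at hThr hcq hcl
  have hc1c : (c1 : ℝ) ≤ c := by
    rw [hc]
    push_cast
    have : (0 : ℝ) ≤ (⌈4 * CC / δ⌉₊ : ℝ) := Nat.cast_nonneg _
    linarith
  have hc0 : 1 ≤ c := by omega
  have hcR : (1 : ℝ) ≤ c := by exact_mod_cast hc0
  have hlq0 : 0 < Real.log q := by linarith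
  have hT1 : ∀ v, (P v).Thr c1 := fun v => Ptd.thr_mono _ (by omega) (hThr v)
  have hTA : ∀ v, (P v).Thr (cA n) := fun v => Ptd.thr_mono _ (by omega) (hThr v)
  have hge : ∀ v, (c : ℝ) * Real.log (P v).b ≤ (P v).ell := fun v => (Ptd.ell_ge _ (hThr v)).1
  have hell0 : ∀ v, 0 < (P v).ell := fun v => lt_of_lt_of_le (by positivity) (hcl v)
  have hK0 : (1 : ℝ) ≤ max K1 ((n : ℝ) ^ 2 + n + 2) := hK1.trans (le_max_left _ _)
  have hellY : ∀ v, (P v).ell ≤ Y := fun v => by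
    have h1 := hY v
    have h2 := hell0 v
    nlinarith
  have hY0 : 0 < Y := lt_of_lt_of_le (hell0 ⟨0, hm⟩) (hellY ⟨0, hm⟩)
  have hK1Y : ∀ v, K1 * (P v).ell ≤ Y := fun v =>
    (mul_le_mul_of_nonneg_right (le_max_left _ _) (hell0 v).le).trans (hY v)
  have hK2Y : ∀ v, ((n : ℝ) ^ 2 + n + 2) * (P v).ell ≤ Y := fun v =>
    (mul_le_mul_of_nonneg_right (le_max_right _ _) (hell0 v).le).trans (hY v)
  obtain ⟨hNf, hrY, A, hA0, hA, hLz⟩ := hc1 P PP hStb hnear hcard p q hNP Z hT1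
    (hc1c.trans hcq) (fun v => (mul_le_mul_of_nonneg_right hc1c hlq0.le).trans (hcl v)) Y hK1Y
  have hs := nrz_card P r
  have hsle := nrz_sle P r
  have hJ : ((Jz q r Y : ℝ) + 1) * Real.log q ≤ Y := by
    have g1 : Jz q r Y + 1 ≤ ⌊Y / Real.log q⌋₊ := by
      unfold Jz
      omega
    have g2 : ((Jz q r Y : ℝ) + 1) ≤ Y / Real.log q := by
      have g3 : (((Jz q r Y + 1 : ℕ)) : ℝ) ≤ (⌊Y / Real.log q⌋₊ : ℝ) := by exact_mod_cast g1
      push_cast at g3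
      exact g3.trans (Nat.floor_le (by positivity))
    rwa [le_div_iff₀ hlq0] at g2
  have hNY : ∀ v, (Nf P Y v : ℝ) * (P v).ell ≤ Y := by
    intro v
    have h5 : Nf P Y v ≤ Df P Y v := by
      unfold Nf
      have := (P v).C.d1
      omega
    have h6 : (Df P Y v : ℝ) ≤ Y / (P v).ell := Nat.floor_le (by have := hell0 v; positivity)
    have h7 : (Nf P Y v : ℝ) ≤ Y / (P v).ell := le_trans (by exact_mod_cast h5) h6
    rwa [le_div_iff₀ (hell0 v)] at h7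
  refine ⟨(MZ p q P (Nf P Y) A).det, det_ne_z hn P hTA _ hNP.p1 hNP.q1 A hA0, ?_, ?_, ?_, ?_⟩
  · intro v
    have h1 := nrz_deg (MZ p q P (Nf P Y) A) v.castSucc (Nf P Y v + n * n)
      (fun i j => MZ_deg p q P _ A i j v)
    rw [hs] at h1
    have h2 : (MZ p q P (Nf P Y) A).det.degreeOf v.castSucc ≤ r * n ^ m * (Nf P Y v + n * n) :=
      h1.trans (Nat.mul_le_mul_right _ hsle)
    have h3 : ((MZ p q P (Nf P Y) A).det.degreeOf v.castSucc : ℝ) ≤
        S * ((Nf P Y v : ℝ) + n * n) := by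
      rw [hS]
      exact_mod_cast h2
    have h8 : ((n : ℝ) * n) * (P v).ell ≤ Y := by
      have h9 := hK2Y v
      have h10 := hell0 v
      nlinarith
    have h4 := hNY v
    rw [← hS]
    calc ((MZ p q P (Nf P Y) A).det.degreeOf v.castSucc : ℝ) * (P v).ell
        ≤ (S * ((Nf P Y v : ℝ) + n * n)) * (P v).ell :=
          mul_le_mul_of_nonneg_right h3 (hell0 v).le
      _ = S * ((Nf P Y v : ℝ) * (P v).ell + ((n : ℝ) * n) * (P v).ell) := by ring
      _ ≤ S * (Y + Y) := by gcongr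
      _ = 2 * S * Y := by ring
  · have h1 := nrz_deg (MZ p q P (Nf P Y) A) (Fin.last m) (Jz q r Y + 1)
      (fun i j => MZ_deg_last p q P _ A i j)
    rw [hs] at h1
    have h2 : (MZ p q P (Nf P Y) A).det.degreeOf (Fin.last m) ≤ r * n ^ m * (Jz q r Y + 1) :=
      h1.trans (Nat.mul_le_mul_right _ hsle)
    have h3 : ((MZ p q P (Nf P Y) A).det.degreeOf (Fin.last m) : ℝ) ≤
        S * ((Jz q r Y : ℝ) + 1) := by
      rw [hS]
      exact_mod_cast h2
    rw [← hS]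
    calc ((MZ p q P (Nf P Y) A).det.degreeOf (Fin.last m) : ℝ) * Real.log q
        ≤ (S * ((Jz q r Y : ℝ) + 1)) * Real.log q := mul_le_mul_of_nonneg_right h3 hlq0.le
      _ = S * (((Jz q r Y : ℝ) + 1) * Real.log q) := by ring
      _ ≤ S * Y := by gcongr
      _ ≤ 2 * S * Y := by nlinarith
  · have hbig := nrz_l1 (MZ p q P (Nf P Y) A)
      ((((Jz q r Y + 1) * r : ℕ) : ℝ) * (((p : ℝ) + q) *
      (((∏ v, (Nf P Y v * (P v).d) : ℕ) : ℝ) * (Real.exp (δ1 * Y) *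
      ∏ v, (((n + 1) ^ 2 * (P v).b : ℕ) : ℝ) ^ n)))) (by positivity)
      (fun i j => MZ_l1 p q P _ A hA i j)
    rw [hs] at hbig
    have hfin := nrz_log m n r c ((∏ v, (P v).d) * r) (Jz q r Y) p q hm (by omega) hr hc0 hsle
      δ1 Y _ hδ0.le (fun v => (P v).b) (Nf P Y) (fun v => (P v).d) (fun v => (P v).ell)
      (fun v => (P v).C.b2) hNf (fun v => (P v).C.d1) (fun v => (P v).C.dn) hge hellY hNY
      hNP.p1 hNP.q1 hNP.pq hcq hcl hJ (l1_nonneg _) hbig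
    rw [← hS, ← hCC] at hfin
    refine hfin.trans ?_
    have h1 := nrz_c CC δ Y c hδ hCC0 hY0.le ?_ hc0
    · have h2 : S * (δ1 * Y) = δ / 4 * Y := by
        rw [← mul_assoc, hδb]
      nlinarith
    · have h3 := Nat.le_ceil (4 * CC / δ)
      rw [hc]
      push_cast
      have h4 : (0 : ℝ) ≤ c1 := Nat.cast_nonneg _
      linarith
  · intro e he
    exact det_idx_z hn P hTA _ hr hNP.p1 hNP.q1 A (by positivity) (fun v => (hell0 v).le) hLz e he

end Pool.Agent.H8.RZ
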