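import Pool.Agent.H8.RZ.MEI
import Pool.Agent.H97.NW.NZD

/-! # [H8 RZ NZA] Powers of `ζ = 1 + t` are independent; `G` is not zero

`zt_indep`: if `∑_(e ∈ E) zt^e * toS (g e) = 0` in `SS m`, `E ⊆ ℕ` finite, `g e : MvPowerSeries (Fin m) ℤ`, then all `g e = 0`. With `a e = MvPowerSeries.map (Int.castRingHom ℚ) (g e) : RR m` the sum is
`∑ (1+X)^e C(a e)`, the image in `PowerSeries (RR m)` of the polynomial `Q = ∑ C(a e) (1+X)^e : (RR m)[X]` (`Polynomial.coe_...`, `Polynomial.coe_injective`), so `Q = 0`, `Q.comp (X - 1) = ∑ C(a e) X^e = 0`, `a e = 0` (coefficients),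
and the map is injective (`MvPowerSeries` coefficientwise, `Int.cast_injective`).
`gZ_ne`: `(p : SS m)^J * gZ = (q : SS m) * ∑_u zt^(ex u) * toS (q^(u.1) p^(J-u.1) gl (A u))` (`p * qp = q`, `u.1 ≤ J`); `ex` is injective on `Ix2 J r` (`ex u / r`, `ex u % r`), so by `zt_indep` (sum over the image of `ex`, `Finset.sum_image`) and
`p, q ≠ 0` all `gl (A u) = 0`, i.e. `A u = 0` by `gl_ne`. -/

namespace Pool.Agent.H8.RZ

open Finset Polynomial Pool.Agent.H72.ES Pool.Agent.H87.SA2 Pool.Agent.H8.AW Pool.Agent.H52.AC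
  Pool.Agent.H97.NW H4AR

variable {m n : ℕ}

private theorem nza_map_inj :
    Function.Injective (MvPowerSeries.map (σ := Fin m) (Int.castRingHom ℚ)) := by
  intro a b hab
  ext K
  have h1 := congrArg (MvPowerSeries.coeff K) hab
  rw [MvPowerSeries.coeff_map, MvPowerSeries.coeff_map] at h1
  exact Int.cast_injective h1

theorem zt_indep (E : Finset ℕ) (g : ℕ → MvPowerSeries (Fin m) ℤ)
    (h : ∑ e ∈ E, zt m ^ e * toS m (g e) = 0) : ∀ e ∈ E, g e = 0 := by
  classical
  set a : ℕ → RR m := fun e => MvPowerSeries.map (Int.castRingHom ℚ) (g e) with ha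
  set Q : (RR m)[X] := ∑ e ∈ E, (1 + Polynomial.X) ^ e * Polynomial.C (a e) with hQ
  have h1 : (Q : PowerSeries (RR m)) = 0 := by
    rw [← h, hQ, ← Polynomial.coeToPowerSeries.ringHom_apply, map_sum]
    refine Finset.sum_congr rfl fun e _ => ?_
    rw [map_mul, map_pow, map_add, map_one]
    simp only [Polynomial.coeToPowerSeries.ringHom_apply, Polynomial.coe_X, Polynomial.coe_C]
    rfl
  have h2 : Q = 0 := by
    apply Polynomial.coe_injective (RR m)
    rw [h1, Polynomial.coe_zero]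
  have h3 : ∑ e ∈ E, (Polynomial.X : (RR m)[X]) ^ e * Polynomial.C (a e) = 0 := by
    have h4 := congrArg (Polynomial.compRingHom (Polynomial.X - 1 : (RR m)[X])) h2
    rw [hQ, map_sum, map_zero] at h4
    rw [← h4]
    refine Finset.sum_congr rfl fun e _ => ?_
    rw [Polynomial.coe_compRingHom_apply, Polynomial.mul_comp, Polynomial.pow_comp,
      Polynomial.add_comp, Polynomial.one_comp, Polynomial.X_comp, Polynomial.C_comp,
      add_sub_cancel]
  intro e he
  have h5 := congrArg (fun f : (RR m)[X] => f.coeff e) h3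
  simp only [Polynomial.finsetSum_coeff, Polynomial.coeff_mul_C, Polynomial.coeff_X_pow,
    Polynomial.coeff_zero, ite_mul, one_mul, zero_mul] at h5
  rw [Finset.sum_ite_eq, if_pos he] at h5
  apply nza_map_inj
  rw [map_zero]
  exact h5

theorem gZ_ne (hn : 4 ≤ n) (P : Fin m → Ptd n) (hP : ∀ v, (P v).Thr (cA n))
    (N : Fin m → ℕ) {J r p q : ℕ} (hp : 1 ≤ p) (hq : 1 ≤ q)
    (A : Ix2 J r → Mo P N → ℤ) (hA : A ≠ 0) : gZ p q P N A ≠ 0 := by
  classical
  intro h
  apply hA
  have hpq : (p : SS m) * qp m p q = (q : SS m) := by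
    unfold qp
    have hp0 : (p : ℚ) ≠ 0 := by
      have : p ≠ 0 := by omega
      exact_mod_cast this
    have h1 : (p : SS m) = PowerSeries.C (R := RR m) (algebraMap ℚ (RR m) (p : ℚ)) := by
      rw [map_natCast, map_natCast]
    have h2 : (q : SS m) = PowerSeries.C (R := RR m) (algebraMap ℚ (RR m) (q : ℚ)) := by
      rw [map_natCast, map_natCast]
    rw [h1, h2, ← map_mul, ← map_mul, mul_div_cancel₀ _ hp0]
  have hex : Function.Injective (ex : Ix2 J r → ℕ) := by
    rintro ⟨s, i⟩ ⟨s', i'⟩ hu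
    unfold ex at hu
    simp only at hu
    have hi := i.2
    have hi' := i'.2
    have hr : 0 < r := by omega
    have h1 : (s : ℕ) = s' := by
      have e1 : (r * (s : ℕ) + i) / r = s := by
        rw [Nat.mul_add_div hr, Nat.div_eq_of_lt hi, add_zero]
      have e2 : (r * (s' : ℕ) + i') / r = s' := by
        rw [Nat.mul_add_div hr, Nat.div_eq_of_lt hi', add_zero]
      rw [← e1, hu, e2]
    have h2 : (i : ℕ) = i' := by
      rw [h1] at hu
      omega
    exact Prod.ext (Fin.ext h1) (Fin.ext h2)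
  have h1 : ∑ u : Ix2 J r, zt m ^ (ex u) *
      toS m (((q : ℤ) ^ (u.1 : ℕ) * (p : ℤ) ^ (J - (u.1 : ℕ)) : ℤ) • gl P N (A u)) = 0 := by
    have h2 : (p : SS m) ^ J * gZ p q P N A = (q : SS m) * ∑ u : Ix2 J r, zt m ^ (ex u) *
      toS m (((q : ℤ) ^ (u.1 : ℕ) * (p : ℤ) ^ (J - (u.1 : ℕ)) : ℤ) • gl P N (A u)) := by
      unfold gZ
      rw [mul_left_comm, Finset.mul_sum]
      congr 1
      refine Finset.sum_congr rfl fun u _ => ?_
      have hu : (u.1 : ℕ) ≤ J := Nat.lt_succ_iff.1 u.1.2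
      have h3 : (p : SS m) ^ J = (p : SS m) ^ (J - (u.1 : ℕ)) * (p : SS m) ^ (u.1 : ℕ) := by
        rw [← pow_add, Nat.sub_add_cancel hu]
      rw [zsmul_eq_mul, map_mul, map_intCast]
      push_cast
      rw [h3, ← hpq, mul_pow, mul_pow, ← pow_mul]
      unfold ex
      rw [pow_add]
      ring
    rw [h, mul_zero] at h2
    have hq0 : (q : SS m) ≠ 0 := by
      have h2' : (q : SS m) = PowerSeries.C (R := RR m) (algebraMap ℚ (RR m) (q : ℚ)) := by
        rw [map_natCast, map_natCast]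
      rw [h2']
      intro h0
      have h0' := congrArg (fun f : SS m => PowerSeries.coeff 0 f) h0
      simp only [PowerSeries.coeff_zero_C, map_zero] at h0'
      rw [map_eq_zero] at h0'
      have : (q : ℚ) ≠ 0 := by
        have : q ≠ 0 := by omega
        exact_mod_cast this
      exact this h0'
    rcases mul_eq_zero.1 h2.symm with h3 | h3
    · exact absurd h3 hq0
    · exact h3
  funext u
  set gg : ℕ → MvPowerSeries (Fin m) ℤ := fun e => ∑ w : Ix2 J r, if ex w = e then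
      ((q : ℤ) ^ (w.1 : ℕ) * (p : ℤ) ^ (J - (w.1 : ℕ)) : ℤ) • gl P N (A w) else 0 with hgg
  have hggu : ∀ w : Ix2 J r, gg (ex w) =
      ((q : ℤ) ^ (w.1 : ℕ) * (p : ℤ) ^ (J - (w.1 : ℕ)) : ℤ) • gl P N (A w) := by
    intro w
    simp only [hgg]
    rw [Finset.sum_eq_single w]
    · rw [if_pos rfl]
    · intro w' _ hw'
      rw [if_neg fun hh => hw' (hex hh)]
    · intro hh
      exact absurd (Finset.mem_univ w) hh
  have h4 := zt_indep (Finset.univ.image (ex : Ix2 J r → ℕ)) gg (by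
    rw [Finset.sum_image fun x _ y _ hxy => hex hxy, ← h1]
    refine Finset.sum_congr rfl fun w _ => ?_
    rw [hggu w]) (ex u) (Finset.mem_image_of_mem _ (Finset.mem_univ u))
  rw [hggu u] at h4
  by_contra hu
  have h5 := gl_ne hn P hP N (A u) hu
  rw [zsmul_eq_mul] at h4
  rcases mul_eq_zero.1 h4 with h6 | h6
  · have h7 : ((q : ℤ) ^ (u.1 : ℕ) * (p : ℤ) ^ (J - (u.1 : ℕ)) : ℤ) ≠ 0 := by positivity
    apply h7
    have h8 := congrArg (fun f : MvPowerSeries (Fin m) ℤ => MvPowerSeries.coeff 0 f) h6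
    simp only [map_zero] at h8
    rw [← h8, ← eq_intCast (MvPowerSeries.C (σ := Fin m) (R := ℤ))]
    simp
  · exact h5 h6

end Pool.Agent.H8.RZ
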