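import Pool.Agent.H8.RZ.NZA

/-! # [H8 RZ NZB] The local series of the basis are independent over the polynomials

For `f : MvPolynomial (Fin (m+1)) ℤ` and `s : ℕ` let `f_s : MvPolynomial (Fin m) ℤ` be the coefficient of `X_last^s` (e.g. `f_s = ∑ over e ∈ f.support with e last = s of monomial (Fin.init-like) (f.coeff e)`, or through `MvPolynomial.finSuccEquivNth`):
`f = ∑_(s ≤ M) X_last^s * rename castSucc (f_s)` (`M` = `degreeOf last f`), and `f = 0` iff all `f_s = 0`. `phiZ f = ∑_s (qp zt^r)^s toS (phi P (f_s))` (`phiZ_rename`, `phiZ_last`).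
Take `M` larger than all degrees of the `w a`. `p^M ∑_a phiZ (w a) betZ a = ∑_(i < r, s ≤ M) zt^(r s + i) toS (∑_(j : ∀ v, Fin d_v) q^s p^(M-s) phi P ((w (j,i))_s) * bet P j)` (`p * qp = q`), `(s,i) ↦ r s + i` is injective, so by `zt_indep` (and `q, p ≠ 0`)
`∑_j phi P ((w (j,i))_s) * bet P j = 0` for all `i, s`, and `(w (j,i))_s = 0` by `bet_indep` (`Pool/Agent/H97/NW/NZD.lean`). -/

namespace Pool.Agent.H8.RZ

open Finset Polynomial Pool.Agent.H72.ES Pool.Agent.H87.SA2 Pool.Agent.H8.AW Pool.Agent.H52.AC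
  Pool.Agent.H97.NW H4AR

variable {m n : ℕ}

private theorem nzb_ex_inj {J r : ℕ} : Function.Injective (ex : Ix2 J r → ℕ) := by
  rintro ⟨s, i⟩ ⟨s', i'⟩ hu
  unfold ex at hu
  simp only at hu
  have hi := i.2
  have hi' := i'.2
  have hr : 0 < r := by omega
  have h1 : (s : ℕ) = s' := by
    have e1 : (r * (s : ℕ) + i) / r = s := by
      rw [Nat.mul_add_div hr, Nat.div_eq_of_lt hi, add_zero]
    have e2 : (r * (s' : ℕ) + i') / r = s' := by
      rw [Nat.mul_add_div hr, Nat.div_eq_of_lt hi', add_zero]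
    rw [← e1, hu, e2]
  have h2 : (i : ℕ) = i' := by
    rw [h1] at hu
    omega
  exact Prod.ext (Fin.ext h1) (Fin.ext h2)

private theorem nzb_indep {J r : ℕ} (g : Ix2 J r → MvPowerSeries (Fin m) ℤ)
    (h : ∑ u : Ix2 J r, zt m ^ (ex u) * toS m (g u) = 0) (u : Ix2 J r) : g u = 0 := by
  classical
  set gg : ℕ → MvPowerSeries (Fin m) ℤ := fun e => ∑ w : Ix2 J r, if ex w = e then g w else 0
    with hgg
  have hggu : ∀ w : Ix2 J r, gg (ex w) = g w := by
    intro w
    simp only [hgg]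
    rw [Finset.sum_eq_single w]
    · rw [if_pos rfl]
    · intro w' _ hw'
      rw [if_neg fun hh => hw' (nzb_ex_inj hh)]
    · intro hh
      exact absurd (Finset.mem_univ w) hh
  have h4 := zt_indep (Finset.univ.image (ex : Ix2 J r → ℕ)) gg (by
    rw [Finset.sum_image fun x _ y _ hxy => nzb_ex_inj hxy, ← h]
    refine Finset.sum_congr rfl fun w _ => ?_
    rw [hggu w]) (ex u) (Finset.mem_image_of_mem _ (Finset.mem_univ u))
  rwa [hggu u] at h4

/-- the polynomials in the last variable -/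
private noncomputable def nzb_psi (m : ℕ) :
    Polynomial (MvPolynomial (Fin m) ℤ) →+* MvPolynomial (Fin (m + 1)) ℤ :=
  Polynomial.eval₂RingHom (MvPolynomial.rename (R := ℤ) (Fin.castSucc (n := m))).toRingHom
    (MvPolynomial.X (Fin.last m))

private theorem nzb_surj (f : MvPolynomial (Fin (m + 1)) ℤ) : ∃ Q, nzb_psi m Q = f := by
  induction f using MvPolynomial.induction_on with
  | C a =>
    refine ⟨Polynomial.C (MvPolynomial.C a), ?_⟩
    unfold nzb_psi
    rw [Polynomial.coe_eval₂RingHom, Polynomial.eval₂_C]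
    exact MvPolynomial.rename_C _ _
  | add f g hf hg =>
    obtain ⟨Q, hQ⟩ := hf
    obtain ⟨Q', hQ'⟩ := hg
    exact ⟨Q + Q', by rw [map_add, hQ, hQ']⟩
  | mul_X f j hf =>
    obtain ⟨Q, hQ⟩ := hf
    rcases Fin.eq_castSucc_or_eq_last j with ⟨i, rfl⟩ | rfl
    · refine ⟨Q * Polynomial.C (MvPolynomial.X i), ?_⟩
      rw [map_mul, hQ]
      congr 1
      unfold nzb_psi
      rw [Polynomial.coe_eval₂RingHom, Polynomial.eval₂_C]
      exact MvPolynomial.rename_X _ _
    · refine ⟨Q * Polynomial.X, ?_⟩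
      rw [map_mul, hQ]
      congr 1
      unfold nzb_psi
      rw [Polynomial.coe_eval₂RingHom, Polynomial.eval₂_X]

theorem betZ_indep (hn : 4 ≤ n) (P : Fin m → Ptd n) (hP : ∀ v, (P v).Thr (cA n))
    {r p q : ℕ} (hp : 1 ≤ p) (hq : 1 ≤ q) (w : Bs P r → MvPolynomial (Fin (m + 1)) ℤ)
    (h : ∑ a, phiZ r p q P (w a) * betZ P a = 0) : w = 0 := by
  classical
  choose Q hQ using fun a => nzb_surj (w a)
  set J : ℕ := Finset.univ.sup fun a => (Q a).natDegree with hJ
  have hdeg : ∀ a, (Q a).natDegree < J + 1 := fun a =>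
    Nat.lt_succ_of_le (Finset.le_sup (f := fun a => (Q a).natDegree) (Finset.mem_univ a))
  have hpq : (p : SS m) * qp m p q = (q : SS m) := by
    unfold qp
    have hp0 : (p : ℚ) ≠ 0 := by
      have : p ≠ 0 := by omega
      exact_mod_cast this
    have h1 : (p : SS m) = PowerSeries.C (R := RR m) (algebraMap ℚ (RR m) (p : ℚ)) := by
      rw [map_natCast, map_natCast]
    have h2 : (q : SS m) = PowerSeries.C (R := RR m) (algebraMap ℚ (RR m) (q : ℚ)) := by
      rw [map_natCast, map_natCast]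
    rw [h1, h2, ← map_mul, ← map_mul, mul_div_cancel₀ _ hp0]
  have h1 : ∀ a, phiZ r p q P (w a) = ∑ s : Fin (J + 1),
      toS m (phi P ((Q a).coeff s)) * (qp m p q * zt m ^ r) ^ (s : ℕ) := by
    intro a
    conv_lhs => rw [← hQ a]
    unfold nzb_psi
    rw [Polynomial.coe_eval₂RingHom, Polynomial.eval₂_eq_sum_range' _ (hdeg a), map_sum,
      Finset.sum_range]
    refine Finset.sum_congr rfl fun s _ => ?_
    rw [map_mul, map_pow, phiZ_last, AlgHom.toRingHom_eq_coe, RingHom.coe_coe, phiZ_rename]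
  have h2 : ∑ u : Ix2 J r, zt m ^ (ex u) * toS m (∑ j : ∀ v, Fin (P v).d,
      ((q : MvPowerSeries (Fin m) ℤ) ^ (u.1 : ℕ) * (p : MvPowerSeries (Fin m) ℤ) ^ (J - (u.1 : ℕ))) *
        (phi P ((Q (j, u.2)).coeff u.1) * bet P j)) = 0 := by
    have h3 : (p : SS m) ^ J * ∑ a, phiZ r p q P (w a) * betZ P a = ∑ j : ∀ v, Fin (P v).d,
        ∑ i : Fin r, ∑ s : Fin (J + 1), zt m ^ (r * (s : ℕ) + i) *
          toS m (((q : MvPowerSeries (Fin m) ℤ) ^ (s : ℕ) *
            (p : MvPowerSeries (Fin m) ℤ) ^ (J - (s : ℕ))) *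
              (phi P ((Q (j, i)).coeff s) * bet P j)) := by
      rw [Fintype.sum_prod_type, Finset.mul_sum]
      refine Finset.sum_congr rfl fun j _ => ?_
      rw [Finset.mul_sum]
      refine Finset.sum_congr rfl fun i _ => ?_
      rw [h1, Finset.sum_mul, Finset.mul_sum]
      refine Finset.sum_congr rfl fun s _ => ?_
      have hs : (s : ℕ) ≤ J := Nat.lt_succ_iff.1 s.2
      have h3 : (p : SS m) ^ J = (p : SS m) ^ (J - (s : ℕ)) * (p : SS m) ^ (s : ℕ) := by
        rw [← pow_add, Nat.sub_add_cancel hs]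
      unfold betZ
      rw [map_mul, map_mul, map_mul, map_pow, map_pow, map_natCast, map_natCast, h3, ← hpq,
        mul_pow, mul_pow, ← pow_mul, pow_add]
      ring
    rw [h, mul_zero] at h3
    rw [h3, Fintype.sum_prod_type, Finset.sum_comm]
    have h4 : ∀ i : Fin r, ∑ s : Fin (J + 1), zt m ^ (ex ((s, i) : Ix2 J r)) *
        toS m (∑ j : ∀ v, Fin (P v).d, ((q : MvPowerSeries (Fin m) ℤ) ^ (s : ℕ) *
          (p : MvPowerSeries (Fin m) ℤ) ^ (J - (s : ℕ))) * (phi P ((Q (j, i)).coeff s) * bet P j)) =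
        ∑ j : ∀ v, Fin (P v).d, ∑ s : Fin (J + 1), zt m ^ (r * (s : ℕ) + i) *
          toS m (((q : MvPowerSeries (Fin m) ℤ) ^ (s : ℕ) *
            (p : MvPowerSeries (Fin m) ℤ) ^ (J - (s : ℕ))) *
              (phi P ((Q (j, i)).coeff s) * bet P j)) := by
      intro i
      rw [Finset.sum_comm]
      refine Finset.sum_congr rfl fun s _ => ?_
      rw [map_sum, Finset.mul_sum]
      rfl
    rw [Finset.sum_congr rfl fun i _ => h4 i, Finset.sum_comm]
  have h5 : ∀ (i : Fin r) (s : Fin (J + 1)), (fun j => (Q (j, i)).coeff s) = 0 := by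
    intro i s
    apply bet_indep hn P hP
    have h6 := nzb_indep _ h2 (s, i)
    simp only at h6
    rw [← Finset.mul_sum] at h6
    rcases mul_eq_zero.1 h6 with h7 | h7
    · exfalso
      have hp0 : (p : MvPowerSeries (Fin m) ℤ) ≠ 0 := by
        intro h0
        have h8 := congrArg (fun f : MvPowerSeries (Fin m) ℤ => MvPowerSeries.coeff 0 f) h0
        simp only [map_zero] at h8
        rw [← map_natCast (MvPowerSeries.C (σ := Fin m) (R := ℤ))] at h8
        simp at h8
        omega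
      have hq0 : (q : MvPowerSeries (Fin m) ℤ) ≠ 0 := by
        intro h0
        have h8 := congrArg (fun f : MvPowerSeries (Fin m) ℤ => MvPowerSeries.coeff 0 f) h0
        simp only [map_zero] at h8
        rw [← map_natCast (MvPowerSeries.C (σ := Fin m) (R := ℤ))] at h8
        simp at h8
        omega
      exact mul_ne_zero (pow_ne_zero _ hq0) (pow_ne_zero _ hp0) h7
    · exact h7
  have h6 : ∀ a, Q a = 0 := by
    intro a
    ext1 s
    rw [Polynomial.coeff_zero]
    by_cases hs : s < J + 1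
    · exact congrFun (h5 a.2 ⟨s, hs⟩) a.1
    · exact Polynomial.coeff_eq_zero_of_natDegree_lt (by have := hdeg a; omega)
  funext a
  rw [← hQ a, h6 a, map_zero, Pi.zero_apply]

end Pool.Agent.H8.RZ
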