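import Pool.Agent.H8.RZ.FNZ

/-! # [H8 RZ PDL] The pair theorem with an exponent `δ < 1 - 9/(2r)`, ratios in any form

`pair_delta`: choose `lam` with `9/(2r) < lam < 1 - δ` (the midpoint), so `9/2 < r lam`, `lam ≤ 1`; `C` at least that of `pair_big` and so large that for `q ≥ C`: `q^δ ≤ q/2` and `(2 p)^δ ≤ p^(1-lam)` for `p ≥ q/2`. Then `p, q` satisfy `NP lam p q`:
`|p - q| ≤ q^δ ≤ q/2` gives `p ≤ 2q`, `q ≤ 2p`, `p ≥ 1`; `q^δ ≤ q^(1-lam)` (`1 ≤ q`), `q^δ ≤ (2p)^δ ≤ p^(1-lam)`.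
(`(2p)^δ ≤ p^(1-lam)` iff `2^δ ≤ p^(1-lam-δ)`, true if `p ≥ 2^(1/(1-lam-δ))`.)
`pair_ratio`: `p, q` arbitrary positive, `P = p/g`, `Q = q/g`, `g = gcd`; `pair_delta` for `P, Q`: if `C ≤ Q` fails or ... i.e. the statement is: for two exceptional `b0 ≠ b1` with `b1/b0 = p/q` and `q ≤ M`, `Big r n C' M` for both (`C' = 2 C`-like: `(Q H)^C ≤ (M H)^C`), one has
`|p - q| > q * (1/C) * M^(δ-1)`: with `Q ≤ M`: if `Q < C` then `|P - Q| ≥ 1`, `|p - q|/q = |P-Q|/Q ≥ 1/C ≥ (1/C) M^(δ-1)`; else `|P - Q| > Q^δ` (otherwise contradiction to `pair_delta`), `|P-Q|/Q > Q^(δ-1) ≥ M^(δ-1)`. -/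

namespace Pool.Agent.H8.RZ

open Pool.Agent.H34.AC Pool.Agent.H97.NW

private theorem pdl_mono {r n C C' T T' : ℕ} {β : ℚ} (hT : T ≤ T') (hT1 : 1 ≤ T') (hC : C ≤ C')
    (hb : Big r n C' T' β) : Big r n C T β := by
  apply Big.mono _ hb
  intro H hH
  calc (T * H) ^ C ≤ (T' * H) ^ C := Nat.pow_le_pow_left (Nat.mul_le_mul_right _ hT) _
    _ ≤ (T' * H) ^ C' := Nat.pow_le_pow_right (by nlinarith) hC

theorem pair_delta (r n : ℕ) (hr : 5 ≤ r) (hn : 3 ≤ n) (δ : ℝ) (hδ : 0 < δ)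
    (hδ1 : δ < 1 - 9 / (2 * r)) :
    ∃ C : ℕ, 1 ≤ C ∧ ∀ (p q : ℕ), Nat.Coprime p q → p ≠ q → C ≤ q →
      |(p : ℝ) - q| ≤ (q : ℝ) ^ δ → ∀ (b0 b1 : ℚ), 0 < b0 → 0 < b1 →
      b1 * (q : ℚ) = (p : ℚ) * b0 → Big r n C q b0 → Big r n C q b1 → False := by
  have hr0 : (0 : ℝ) < r := by
    have : 0 < r := by omega
    exact_mod_cast this
  have h9 : 0 < 9 / (2 * (r : ℝ)) := by positivity
  obtain ⟨lam, hlam⟩ : ∃ lam : ℝ, lam = (9 / (2 * (r : ℝ)) + (1 - δ)) / 2 := ⟨_, rfl⟩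
  have hl1 : 9 / (2 * (r : ℝ)) < lam := by rw [hlam]; linarith
  have hl2 : lam < 1 - δ := by rw [hlam]; linarith
  have hl0 : 0 < lam := lt_trans h9 hl1
  have hrl : 9 / 2 < r * lam := by
    rw [div_lt_iff₀ (by positivity)] at hl1
    linarith
  obtain ⟨C0, hC0⟩ := pair_big r n (by omega) hn lam hl0 (by linarith) hrl
  obtain ⟨τ, hτ⟩ : ∃ τ : ℝ, τ = 1 - lam - δ := ⟨_, rfl⟩
  have hτ0 : 0 < τ := by rw [hτ]; linarith
  obtain ⟨K, hK⟩ : ∃ K : ℕ, (2 : ℝ) * (2 : ℝ) ^ (1 / τ) ≤ K := exists_nat_ge _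
  refine ⟨C0 + K + 2, by omega, ?_⟩
  intro p q hcop hne hCq hcl b0 b1 hb0 hb1 hbb hB0 hB1
  have hq2 : (2 : ℝ) ≤ q := by
    have : 2 ≤ q := by omega
    exact_mod_cast this
  have hq1 : (1 : ℝ) ≤ q := by linarith
  have hqK : (2 : ℝ) * (2 : ℝ) ^ (1 / τ) ≤ q := by
    have : K ≤ q := by omega
    exact hK.trans (by exact_mod_cast this)
  have hlam1 : lam < 1 := by linarith
  -- 2 <= x^tau for x >= q/2
  have key : ∀ x : ℝ, (q : ℝ) / 2 ≤ x → 2 ≤ x ^ τ := by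
    intro x hx
    have h1 : (2 : ℝ) ^ (1 / τ) ≤ x := by linarith
    have h2 : ((2 : ℝ) ^ (1 / τ)) ^ τ ≤ x ^ τ := Real.rpow_le_rpow (by positivity) h1 hτ0.le
    rw [← Real.rpow_mul (by norm_num), one_div, inv_mul_cancel₀ hτ0.ne', Real.rpow_one] at h2
    exact h2
  have hqd : (q : ℝ) ^ δ ≤ q / 2 := by
    have h1 := key q (by linarith)
    have h2 : (q : ℝ) ^ τ ≤ (q : ℝ) ^ (1 - δ) := Real.rpow_le_rpow_of_exponent_le hq1 (by rw [hτ]; linarith)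
    have h3 : (q : ℝ) ^ δ * (q : ℝ) ^ (1 - δ) = q := by
      rw [← Real.rpow_add (by linarith)]
      simp
    have h4 : 0 < (q : ℝ) ^ δ := by positivity
    have h5 : (q : ℝ) ^ δ * 2 ≤ (q : ℝ) ^ δ * (q : ℝ) ^ (1 - δ) :=
      mul_le_mul_of_nonneg_left (h1.trans h2) h4.le
    linarith
  have hpq := abs_le.mp (hcl.trans hqd)
  have hp : (q : ℝ) / 2 ≤ p := by linarith [hpq.1]
  have hp0 : (1 : ℝ) ≤ p := by linarith
  have hnp : NP lam p q := by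
    refine ⟨by exact_mod_cast hp0, by omega, hcop, hne, ?_, ?_, ?_, ?_⟩
    · have : (p : ℝ) ≤ 2 * q := by linarith [hpq.2]
      exact_mod_cast this
    · have : (q : ℝ) ≤ 2 * p := by linarith
      exact_mod_cast this
    · exact hcl.trans (Real.rpow_le_rpow_of_exponent_le hq1 (by linarith))
    · have h1 : (q : ℝ) ^ δ ≤ (2 * (p : ℝ)) ^ δ := Real.rpow_le_rpow (by linarith) (by linarith) hδ.le
      have h2 : (2 * (p : ℝ)) ^ δ = (2 : ℝ) ^ δ * (p : ℝ) ^ δ := Real.mul_rpow (by norm_num) (by linarith)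
      have h3 : (2 : ℝ) ^ δ ≤ 2 := by
        have := Real.rpow_le_rpow_of_exponent_le (x := 2) (by norm_num) (show δ ≤ 1 by linarith)
        rwa [Real.rpow_one] at this
      have h4 := key p hp
      have h5 : (p : ℝ) ^ τ * (p : ℝ) ^ δ = (p : ℝ) ^ (1 - lam) := by
        rw [← Real.rpow_add (by linarith), hτ]
        congr 1
        ring
      have h6 : 0 ≤ (p : ℝ) ^ δ := by positivity
      calc |(p : ℝ) - q| ≤ (q : ℝ) ^ δ := hcl
        _ ≤ (2 : ℝ) ^ δ * (p : ℝ) ^ δ := by rw [← h2]; exact h1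
        _ ≤ (p : ℝ) ^ τ * (p : ℝ) ^ δ := mul_le_mul_of_nonneg_right (h3.trans h4) h6
        _ = _ := h5
  exact hC0 p q hnp (by omega) b0 b1 hb0 hb1 hbb (pdl_mono le_rfl (by omega) (by omega) hB0)
    (pdl_mono le_rfl (by omega) (by omega) hB1)

theorem pair_ratio (r n : ℕ) (hr : 5 ≤ r) (hn : 3 ≤ n) (δ : ℝ) (hδ : 0 < δ)
    (hδ1 : δ < 1 - 9 / (2 * r)) :
    ∃ C : ℕ, 1 ≤ C ∧ ∀ (p q M : ℕ), 1 ≤ p → 1 ≤ q → p ≠ q → p ≤ M → q ≤ M →
      ∀ (b0 b1 : ℚ), 0 < b0 → 0 < b1 → b1 * (q : ℚ) = (p : ℚ) * b0 →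
      Big r n C M b0 → Big r n C M b1 →
      (M : ℝ) ^ (δ - 1) * q ≤ C * |(p : ℝ) - q| := by
  have hr0 : (0 : ℝ) < r := by
    have : 0 < r := by omega
    exact_mod_cast this
  have h9 : 0 < 9 / (2 * (r : ℝ)) := by positivity
  have hd1 : δ - 1 ≤ 0 := by linarith
  obtain ⟨C, hC1, hC⟩ := pair_delta r n hr hn δ hδ hδ1
  refine ⟨C, hC1, ?_⟩
  intro p q M hp hq hne hpM hqM b0 b1 hb0 hb1 hbb hB0 hB1
  obtain ⟨g, P, Q, hg, hcop, hP, hQ⟩ := Nat.exists_coprime' (m := p) (n := q) (Nat.gcd_pos_of_pos_left _ hp)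
  have hM1 : 1 ≤ M := hp.trans hpM
  have hQ1 : 1 ≤ Q := by
    rcases Nat.eq_zero_or_pos Q with h | h
    · rw [h, zero_mul] at hQ
      omega
    · exact h
  have hPQ : P ≠ Q := by
    intro h
    apply hne
    rw [hP, hQ, h]
  have hgr : (1 : ℝ) ≤ g := by exact_mod_cast hg
  have hpr : (p : ℝ) = P * g := by rw [hP]; push_cast; ring
  have hqr : (q : ℝ) = Q * g := by rw [hQ]; push_cast; ring
  have habs : |(p : ℝ) - q| = |(P : ℝ) - Q| * g := by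
    rw [hpr, hqr, ← sub_mul, abs_mul, abs_of_pos (show (0 : ℝ) < g by linarith)]
  have h1 : (1 : ℝ) ≤ |(P : ℝ) - Q| := by
    have h2 : (1 : ℤ) ≤ |(P : ℤ) - Q| := by
      apply Int.one_le_abs
      intro h
      apply hPQ
      have : (P : ℤ) = Q := by linarith
      exact_mod_cast this
    exact_mod_cast h2
  have hCr : (1 : ℝ) ≤ C := by exact_mod_cast hC1
  have hMr : (1 : ℝ) ≤ M := by exact_mod_cast hM1
  have hQr : (1 : ℝ) ≤ Q := by exact_mod_cast hQ1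
  rw [habs, hqr]
  rcases Nat.lt_or_ge Q C with hQC | hQC
  · have h3 : (M : ℝ) ^ (δ - 1) ≤ 1 := Real.rpow_le_one_of_one_le_of_nonpos hMr hd1
    have h4 : (Q : ℝ) ≤ C := by exact_mod_cast hQC.le
    calc (M : ℝ) ^ (δ - 1) * (Q * g) ≤ 1 * (C * g) := by
          apply mul_le_mul h3 _ (by positivity) zero_le_one
          exact mul_le_mul_of_nonneg_right h4 (by linarith)
      _ ≤ C * (|(P : ℝ) - Q| * g) := by
          rw [one_mul]
          apply mul_le_mul_of_nonneg_left _ (by linarith)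
          exact le_mul_of_one_le_left (by linarith) h1
  · have hQM : Q ≤ M := by
      refine le_trans ?_ hqM
      rw [hQ]
      exact Nat.le_mul_of_pos_right _ hg
    have h5 : (Q : ℝ) ^ δ < |(P : ℝ) - Q| := by
      by_contra hcon
      rw [not_lt] at hcon
      refine hC P Q hcop hPQ hQC hcon b0 b1 hb0 hb1 ?_ (pdl_mono hQM hM1 le_rfl hB0)
        (pdl_mono hQM hM1 le_rfl hB1)
      have hg0 : (g : ℚ) ≠ 0 := by
        have : g ≠ 0 := by omega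
        exact_mod_cast this
      rw [hP, hQ] at hbb
      push_cast at hbb
      apply mul_right_cancel₀ hg0
      linarith
    have h6 : (M : ℝ) ^ (δ - 1) ≤ (Q : ℝ) ^ (δ - 1) :=
      Real.rpow_le_rpow_of_nonpos (by linarith) (by exact_mod_cast hQM) hd1
    have h7 : (Q : ℝ) ^ (δ - 1) * Q = (Q : ℝ) ^ δ := by
      rw [← Real.rpow_add_one (by linarith)]
      congr 1
      ring
    calc (M : ℝ) ^ (δ - 1) * (Q * g) ≤ (Q : ℝ) ^ (δ - 1) * (Q * g) :=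
          mul_le_mul_of_nonneg_right h6 (by positivity)
      _ = (Q : ℝ) ^ δ * g := by rw [← mul_assoc, h7]
      _ ≤ |(P : ℝ) - Q| * g := mul_le_mul_of_nonneg_right h5.le (by linarith)
      _ ≤ C * (|(P : ℝ) - Q| * g) := le_mul_of_one_le_left (by positivity) hCr

end Pool.Agent.H8.RZ
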