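import Pool.Agent.H8.RZ.ANP
import Pool.Agent.H8.RZ.CTA
import Pool.Agent.H8.RZ.CTB

/-!
# Neighbouring radical fields repel each other: at most one exceptional radical in every short interval

Let `r ≥ 3`, `n ≥ 3`. For a positive rational number `β` consider the polynomials `F ∈ ℤ[x,y]`, irreducible over
`ℚ`, of total degree at most `n`, all of whose points at infinity defined over a number field `K` with a
real embedding carry an `r`-th root of `β` in `K`. Call `β` exceptional (for `C, T`) if one of them, with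
coefficients of absolute value at most `H`, `H ≥ 2`, has an integer point with `max(|x|,|y|) > (T H)^C`.
For every `δ > 0` there is a constant `C` depending only on `r, n, δ` such that:
(0) if `δ < 1 - 2/r`: for coprime `p ≠ q`, `q ≥ C`, `|p - q| ≤ q^δ` the radical `p/q` is not exceptional
(for `C, q`); and if `r ≥ 5` and `δ < 1 - 9/(2r)`:
(i) for coprime `p ≠ q`, `q ≥ C`, `|p - q| ≤ q^δ` and every rational `β > 0`: not both `β` and `(p/q) β` are
exceptional (for `C, q`);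
(ii) for all `X ≥ C`, `b ≥ 1` at most one integer `a ∈ [X, X + X^δ]` is such that `a/b` is exceptional (for `C, X`);
(iii) for all `T, b ≥ 1` at most `C T^(1-δ)` of the positive integers `a ≤ T` are such that `a/b` is exceptional
(for `C, T`);
(iv) for all `T ≥ 1` at most `C T^(2-2δ)` of the positive rationals with numerator and denominator at most `T`
are exceptional (for `C, T`).
-/

namespace Pool.Agent.H8.RZ.Res

open Pool.Agent.H97.NW Pool.Agent.H8.RZ

/-- some curve of degree at most `n`, all of whose real points at infinity carry an `r`-th root of `β`,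
has an integer point of size larger than `(T * H)^C`, `H` a bound for its height -/
def Exceptional (r n C T : ℕ) (β : ℚ) : Prop :=
  ∃ (F : MvPolynomial (Fin 2) ℤ) (H : ℕ) (x y : ℤ), F.totalDegree ≤ n ∧
    Irreducible (MvPolynomial.map (Int.castRingHom ℚ) F) ∧
    (∀ (K : Type) [Field K] [NumberField K], Nonempty (K →+* ℝ) → ∀ X Y : LaurentSeries K,
      MvPolynomial.eval₂ (Int.castRingHom (LaurentSeries K)) ![X, Y] F = 0 →
        (X ∈ (HahnSeries.ofPowerSeries ℤ K).range ∧ Y ∈ (HahnSeries.ofPowerSeries ℤ K).range) ∨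
          ∃ θ : K, θ ^ r = (β : K)) ∧
    2 ≤ H ∧ (∀ m, |MvPolynomial.coeff m F| ≤ (H : ℤ)) ∧ MvPolynomial.eval ![x, y] F = 0 ∧
    ((T : ℤ) * (H : ℤ)) ^ C < max |x| |y|

theorem vl_eval (F : MvPolynomial (Fin 2) ℤ) (x y : ℤ) :
    Pool.Agent.H34.AC.vl F x y = MvPolynomial.eval ![x, y] F := by
  unfold Pool.Agent.H34.AC.vl
  rw [← MvPolynomial.eval₂_id]
  congr 1

theorem max_abs (x y : ℤ) : max |x| |y| = ((max x.natAbs y.natAbs : ℕ) : ℤ) := by
  rw [Int.abs_eq_natAbs, Int.abs_eq_natAbs]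
  push_cast
  rfl

theorem big_of {r n C C' T : ℕ} {β : ℚ} (hT : 1 ≤ T) (hC : C ≤ C') (h : Exceptional r n C' T β) :
    Big r n C T β := by
  obtain ⟨F, H, x, y, h2, h3, h4, h5, h6, h7, h8⟩ := h
  refine ⟨F, h3, h2, h4, H, h5, h6, x, y, ?_, ?_⟩
  · rw [vl_eval]
    exact h7
  · rw [max_abs] at h8
    have h9 : (T * H) ^ C' < max x.natAbs y.natAbs := by exact_mod_cast h8
    refine lt_of_le_of_lt (Nat.pow_le_pow_right ?_ hC) h9
    exact Nat.mul_pos (by omega) (by omega)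

/-- neighbouring radical fields repel each other -/
theorem result (r n : ℕ) (hr : 3 ≤ r) (hn : 3 ≤ n) (δ : ℝ) (hδ : 0 < δ) : ∃ C : ℕ, 1 ≤ C ∧
    (δ < 1 - 2 / r → ∀ p q : ℕ, Nat.Coprime p q → p ≠ q → C ≤ q → |(p : ℝ) - q| ≤ (q : ℝ) ^ δ →
      ¬ Exceptional r n C q ((p : ℚ) / q)) ∧
    (5 ≤ r → δ < 1 - 9 / (2 * r) →
      (∀ p q : ℕ, Nat.Coprime p q → p ≠ q → C ≤ q → |(p : ℝ) - q| ≤ (q : ℝ) ^ δ →
        ∀ β : ℚ, 0 < β → ¬ (Exceptional r n C q β ∧ Exceptional r n C q (p / q * β))) ∧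
      (∀ X b : ℕ, C ≤ X → 1 ≤ b →
        {a : ℕ | X ≤ a ∧ (a : ℝ) ≤ X + (X : ℝ) ^ δ ∧
          Exceptional r n C X ((a : ℚ) / b)}.Subsingleton) ∧
      (∀ T b : ℕ, 1 ≤ T → 1 ≤ b →
        ({a : ℕ | 1 ≤ a ∧ a ≤ T ∧ Exceptional r n C T ((a : ℚ) / b)}.ncard : ℝ) ≤
          C * (T : ℝ) ^ (1 - δ)) ∧
      (∀ T : ℕ, 1 ≤ T →
        ({β : ℚ | 0 < β ∧ β.num ≤ T ∧ β.den ≤ T ∧ Exceptional r n C T β}.ncard : ℝ) ≤
          C * (T : ℝ) ^ (2 - 2 * δ))) := by
  classical
  -- the constants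
  obtain ⟨CA, hCA⟩ : ∃ CA : ℕ, δ < 1 - 2 / r → ∀ C, CA ≤ C → ∀ p q : ℕ, Nat.Coprime p q → p ≠ q →
      C ≤ q → |(p : ℝ) - q| ≤ (q : ℝ) ^ δ → ¬ Exceptional r n C q ((p : ℚ) / q) := by
    by_cases h : δ < 1 - 2 / r
    · obtain ⟨C0, h0, h1⟩ := anchor_delta r n hr hn δ hδ h
      refine ⟨C0, fun _ C hC p q hpq hne hq hcl hexc => ?_⟩
      exact h1 p q hpq hne (hC.trans hq) hcl (big_of (by omega) hC hexc)
    · exact ⟨0, fun h' => absurd h' h⟩
  by_cases hB : 5 ≤ r ∧ δ < 1 - 9 / (2 * r)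
  · obtain ⟨hr5, hδ1⟩ := hB
    obtain ⟨C1, h11, h1⟩ := pair_delta r n hr5 hn δ hδ hδ1
    obtain ⟨C2, h21, h2⟩ := int_one r n hr5 hn δ hδ hδ1
    obtain ⟨C3, h31, h3⟩ := count_a r n hr5 hn δ hδ hδ1
    obtain ⟨C4, h41, h4⟩ := count_b r n hr5 hn δ hδ hδ1
    obtain ⟨C, hC⟩ : ∃ C, C = CA + C1 + C2 + C3 + C4 := ⟨_, rfl⟩
    refine ⟨C, by omega, fun h => hCA h C (by omega), fun _ _ => ⟨?_, ?_, ?_, ?_⟩⟩
    · rintro p q hpq hne hq hcl β hβ ⟨he1, he2⟩
      have hq0 : 0 < q := by omega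
      have hp0 : 0 < p := by
        rcases Nat.eq_zero_or_pos p with h0 | h0
        · exfalso
          rw [h0] at hpq hcl
          have hq1 : q = 1 := by simpa using hpq
          have h5 : (2 : ℕ) ≤ C := by omega
          omega
        · exact h0
      have hqQ : (0 : ℚ) < q := by exact_mod_cast hq0
      have hpQ : (0 : ℚ) < p := by exact_mod_cast hp0
      refine h1 p q hpq hne (by omega) hcl β (p / q * β) hβ (by positivity) ?_
        (big_of (by omega) (by omega) he1) (big_of (by omega) (by omega) he2)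
      field_simp
    · rintro X b hX hb a0 ⟨h5, h6, h7⟩ a1 ⟨h8, h9, h10⟩
      exact h2 X b (by omega) hb a0 a1 h5 h8 h6 h9 (big_of (by omega) (by omega) h7)
        (big_of (by omega) (by omega) h10)
    · intro T b hT hb
      have hsub : {a : ℕ | 1 ≤ a ∧ a ≤ T ∧ Exceptional r n C T ((a : ℚ) / b)} ⊆
          (((Finset.Icc 1 T).filter fun a : ℕ => Big r n C3 T ((a : ℚ) / b) : Finset ℕ) :
            Set ℕ) := by
        rintro a ⟨h5, h6, h7⟩
        rw [Finset.mem_coe, Finset.mem_filter, Finset.mem_Icc]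
        exact ⟨⟨h5, h6⟩, big_of hT (by omega) h7⟩
      have h5 := Set.ncard_le_ncard hsub (Finset.finite_toSet _)
      rw [Set.ncard_coe_finset] at h5
      have h6 := h3 T b hT hb
      have h7 : (0 : ℝ) ≤ (T : ℝ) ^ (1 - δ) := by positivity
      have h8 : (C3 : ℝ) ≤ C := by exact_mod_cast (by omega : C3 ≤ C)
      calc ({a : ℕ | 1 ≤ a ∧ a ≤ T ∧ Exceptional r n C T ((a : ℚ) / b)}.ncard : ℝ)
          ≤ (((Finset.Icc 1 T).filter fun a : ℕ => Big r n C3 T ((a : ℚ) / b)).card : ℝ) := by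
            exact_mod_cast h5
        _ ≤ C3 * (T : ℝ) ^ (1 - δ) := h6
        _ ≤ C * (T : ℝ) ^ (1 - δ) := mul_le_mul_of_nonneg_right h8 h7
    · intro T hT
      have hfin : {β : ℚ | 0 < β ∧ β.num ≤ T ∧ β.den ≤ T ∧ Exceptional r n C T β}.Finite := by
        refine Set.Finite.subset (((Finset.Icc (0 : ℤ) T) ×ˢ Finset.range (T + 1)).image
          (fun p : ℤ × ℕ => (p.1 : ℚ) / (p.2 : ℚ))).finite_toSet ?_
        rintro β ⟨h5, h6, h7, -⟩
        rw [Finset.mem_coe, Finset.mem_image]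
        refine ⟨(β.num, β.den), ?_, Rat.num_div_den β⟩
        rw [Finset.mem_product, Finset.mem_Icc, Finset.mem_range]
        have := Rat.num_pos.2 h5
        simp only
        omega
      have h6 := h4 T hT hfin.toFinset (by
        intro β hβ
        obtain ⟨h5, h6, h7, h8⟩ := hfin.mem_toFinset.1 hβ
        exact ⟨h5, h6, h7, big_of hT (by omega) h8⟩)
      have h7 : (0 : ℝ) ≤ (T : ℝ) ^ (2 - 2 * δ) := by positivity
      have h8 : (C4 : ℝ) ≤ C := by exact_mod_cast (by omega : C4 ≤ C)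
      rw [Set.ncard_eq_toFinset_card _ hfin]
      have h9 : 2 * (1 - δ) = 2 - 2 * δ := by ring
      rw [h9] at h6
      exact h6.trans (mul_le_mul_of_nonneg_right h8 h7)
  · exact ⟨CA + 1, by omega, fun h => hCA h _ (by omega), fun h5 h6 => absurd ⟨h5, h6⟩ hB⟩

end Pool.Agent.H8.RZ.Res
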