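import Pool.Agent.H8.RZ.Defs

/-! # [H8 RZ RHO] The root is close to 1 (Mathlib only)

`ρ^r = p/q ∈ [1/2, 2]`. If `2 < ρ` then `ρ^r ≥ ρ > 2` (`1 ≤ r`), if `ρ < 1/2` then `ρ^r ≤ ρ < 1/2`. If `q ≤ p`: `1 ≤ ρ ≤ ρ^r = p/q` (if `ρ < 1` then `ρ^r ≤ ρ < 1`), so
`0 ≤ 1 - 1/ρ ≤ 1 - q/p`; if `p ≤ q`: `ρ ≤ 1`, `ρ ≥ ρ^r = p/q`, `0 ≤ 1/ρ - 1 ≤ q/p - 1`. In both cases `|1/ρ - 1| ≤ |q - p|/p ≤ q^(1-lam)/p ≤ 2 q^(1-lam)/q`
(`q ≤ 2p`), and `q^(1-lam)/q = q^(-lam) = exp(-lam log q)` (`Real.rpow_sub`, `Real.rpow_def_of_pos`). -/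

namespace Pool.Agent.H8.RZ

theorem rho_close {lam : ℝ} {p q r : ℕ} (hr : 1 ≤ r) (h : NP lam p q) {ρ : ℝ} (hρ : 0 < ρ)
    (hroot : ρ ^ r * (q : ℝ) = p) :
    1 / 2 ≤ ρ ∧ ρ ≤ 2 ∧ |1 / ρ - 1| ≤ 2 * Real.exp (-(lam * Real.log q)) := by
  have hp : (0:ℝ) < p := by exact_mod_cast h.p1
  have hq : (0:ℝ) < q := by exact_mod_cast h.q1
  have hpq : (p:ℝ) ≤ 2 * q := by exact_mod_cast h.pq
  have hqp : (q:ℝ) ≤ 2 * p := by exact_mod_cast h.qp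
  have hr0 : r ≠ 0 := by omega
  have hexp : Real.exp (-(lam * Real.log q)) = (q:ℝ) ^ (1 - lam) / q := by
    rw [Real.rpow_def_of_pos hq]
    nth_rewrite 3 [← Real.exp_log hq]
    rw [← Real.exp_sub]
    congr 1
    ring
  have hcl := h.cl
  have hroot' : ρ ^ r = (p : ℝ) / q := by
    rw [eq_div_iff hq.ne']; exact hroot
  have hδ : |(p : ℝ) - q| / p ≤ 2 * ((q:ℝ) ^ (1 - lam) / q) := by
    rw [div_le_iff₀ hp]
    have h1 : (1:ℝ) ≤ 2 * (p / q) := by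
      rw [← mul_div_assoc, le_div_iff₀ hq]; linarith
    have h0 : (0:ℝ) ≤ (q:ℝ) ^ (1 - lam) := le_trans (abs_nonneg _) hcl
    calc |(p : ℝ) - q| ≤ (q:ℝ) ^ (1 - lam) * 1 := by rw [mul_one]; exact hcl
      _ ≤ (q:ℝ) ^ (1 - lam) * (2 * (p / q)) := by gcongr
      _ = 2 * ((q:ℝ) ^ (1 - lam) / q) * p := by ring
  rw [hexp]
  rcases le_total (p:ℝ) q with hle | hle
  · have h1 : ρ ^ r ≤ 1 := by rw [hroot']; exact (div_le_one hq).mpr hle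
    have h2 : ρ ≤ 1 := (pow_le_one_iff_of_nonneg hρ.le hr0).mp h1
    have h3 : ρ ^ r ≤ ρ := pow_le_of_le_one hρ.le h2 hr0
    have h4 : (p : ℝ) / q ≤ ρ := hroot' ▸ h3
    have h5 : (1:ℝ) / 2 ≤ p / q := by
      rw [div_le_div_iff₀ (by norm_num) hq]; linarith
    refine ⟨le_trans h5 h4, by linarith, le_trans ?_ hδ⟩
    have h6 : 1 / ρ ≤ q / p := by
      rw [div_le_div_iff₀ hρ hp]
      rw [div_le_iff₀ hq] at h4
      linarith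
    have h7 : 1 ≤ 1 / ρ := by rw [le_div_iff₀ hρ]; linarith
    rw [abs_of_nonneg (by linarith), abs_of_nonpos (by linarith)]
    have h8 : -((p:ℝ) - q) / p = q / p - 1 := by field_simp; ring
    rw [h8]; linarith
  · have h1 : 1 ≤ ρ ^ r := by rw [hroot']; exact (one_le_div hq).mpr hle
    have h2 : 1 ≤ ρ := (one_le_pow_iff_of_nonneg hρ.le hr0).mp h1
    have h3 : ρ ≤ ρ ^ r := le_self_pow₀ h2 hr0
    have h4 : ρ ≤ (p : ℝ) / q := hroot' ▸ h3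
    have h5 : (p : ℝ) / q ≤ 2 := by rw [div_le_iff₀ hq]; linarith
    refine ⟨by linarith, le_trans h4 h5, le_trans ?_ hδ⟩
    have h6 : (q:ℝ) / p ≤ 1 / ρ := by
      rw [div_le_div_iff₀ hp hρ]
      rw [le_div_iff₀ hq] at h4
      linarith
    have h7 : 1 / ρ ≤ 1 := by rw [div_le_one hρ]; exact h2
    rw [abs_of_nonpos (by linarith), abs_of_nonneg (by linarith)]
    have h8 : ((p:ℝ) - q) / p = 1 - q / p := by field_simp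
    rw [h8]; linarith

end Pool.Agent.H8.RZ
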